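import Mathlib

/-! The arithmetic of the recursion `k = 2 (6 N + t1 + t2) + e` (project PNU). -/

set_option autoImplicit false

namespace Pool.Agent.Lib.MP_a966e6_co.PNU

/-- orders of the transversal designs used in the recursion -/
def OkN (N : ℕ) : Prop := N = 9 ∨ (7 ≤ N ∧ N % 2 ≠ 0 ∧ N % 3 ≠ 0 ∧ N % 5 ≠ 0)

theorem arith_window : ∀ r < 30, ∃ j < 6, (r + j) % 2 ≠ 0 ∧ (r + j) % 3 ≠ 0 ∧ (r + j) % 5 ≠ 0 := by decide

theorem arith_split (N d : ℕ) (hN : 7 ≤ N) (hd : d = 0 ∨ (3 ≤ d ∧ d ≤ 2 * N)) :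
    ∃ t1 t2, t1 ≤ N ∧ t2 ≤ N ∧ (t1 = 0 ∨ 3 ≤ t1) ∧ (t2 = 0 ∨ 3 ≤ t2) ∧ d = t1 + t2 := by
  by_cases h1 : d ≤ N
  · exact ⟨d, 0, h1, by omega, by omega, Or.inl rfl, by omega⟩
  · by_cases h2 : d < N + 3
    · exact ⟨d - 3, 3, by omega, by omega, by omega, by omega, by omega⟩
    · exact ⟨N, d - N, by omega, by omega, by omega, by omega, by omega⟩

theorem arith_N (s : ℕ) (h : s = 42 ∨ 45 ≤ s) : ∃ N, OkN N ∧ 6 * N ≤ s ∧ (s = 6 * N ∨ 3 ≤ s - 6 * N) ∧ s ≤ 8 * N := by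
  by_cases h1 : s ≤ 56
  · exact ⟨7, Or.inr (by omega), by omega, by omega, by omega⟩
  by_cases h2 : s ≤ 72
  · exact ⟨9, Or.inl rfl, by omega, by omega, by omega⟩
  by_cases h3 : s ≤ 88
  · exact ⟨11, Or.inr (by omega), by omega, by omega, by omega⟩
  by_cases h4 : s ≤ 104
  · exact ⟨13, Or.inr (by omega), by omega, by omega, by omega⟩
  by_cases h5 : s ≤ 136
  · exact ⟨17, Or.inr (by omega), by omega, by omega, by omega⟩
  by_cases h6 : s ≤ 152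
  · exact ⟨19, Or.inr (by omega), by omega, by omega, by omega⟩
  obtain ⟨j, hj, j2, j3, j5⟩ := arith_window ((s + 7) / 8 % 30) (Nat.mod_lt _ (by norm_num))
  refine ⟨(s + 7) / 8 + j, Or.inr ⟨by omega, ?_, ?_, ?_⟩, by omega, by omega, by omega⟩
  · omega
  · omega
  · omega

theorem arith_exists (s : ℕ) (h : s = 42 ∨ 45 ≤ s) : ∃ N t1 t2, OkN N ∧ t1 ≤ N ∧ t2 ≤ N ∧
    (t1 = 0 ∨ 3 ≤ t1) ∧ (t2 = 0 ∨ 3 ≤ t2) ∧ s = 6 * N + t1 + t2 := by
  obtain ⟨N, hN, h1, h2, h3⟩ := arith_N s h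
  have h7 : 7 ≤ N := by
    rcases hN with h | h
    · omega
    · exact h.1
  obtain ⟨t1, t2, a1, a2, a3, a4, a5⟩ := arith_split N (s - 6 * N) h7 (by omega)
  exact ⟨N, t1, t2, hN, a1, a2, a3, a4, by omega⟩

/-- Strong induction: `A` for the even numbers (later `U`), `B` for the odd ones (later `UT`). -/
theorem arith_all (A B : ℕ → Prop)
    (baseA : ∀ k, 6 ≤ k → k ≤ 88 → k % 2 = 0 → k ≠ 84 → A k)
    (baseB : ∀ k, 7 ≤ k → k ≤ 89 → k % 2 = 1 → k ≠ 85 → B k)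
    (stepA : ∀ N t1 t2, OkN N → t1 ≤ N → t2 ≤ N → A (2 * N) → (t1 = 0 ∨ A (2 * t1)) → (t2 = 0 ∨ A (2 * t2)) →
      A (2 * (6 * N + t1 + t2)))
    (stepB : ∀ N t1 t2, OkN N → t1 ≤ N → t2 ≤ N → B (2 * N + 1) → (t1 = 0 ∨ B (2 * t1 + 1)) →
      (t2 = 0 ∨ B (2 * t2 + 1)) → B (2 * (6 * N + t1 + t2) + 1)) :
    ∀ s, 3 ≤ s → A (2 * s) ∧ B (2 * s + 1) := by
  intro s
  induction s using Nat.strong_induction_on with
  | _ s ih =>
    intro hs
    by_cases h : s = 42 ∨ 45 ≤ s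
    · obtain ⟨N, t1, t2, hN, h1, h2, h3, h4, h5⟩ := arith_exists s h
      have h7 : 7 ≤ N := by
        rcases hN with h | h
        · omega
        · exact h.1
      have iN := ih N (by omega) (by omega)
      have e1 : t1 = 0 ∨ (A (2 * t1) ∧ B (2 * t1 + 1)) := by
        rcases h3 with h | h
        · exact Or.inl h
        · exact Or.inr (ih t1 (by omega) h)
      have e2 : t2 = 0 ∨ (A (2 * t2) ∧ B (2 * t2 + 1)) := by
        rcases h4 with h | h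
        · exact Or.inl h
        · exact Or.inr (ih t2 (by omega) h)
      rw [h5]
      exact ⟨stepA N t1 t2 hN h1 h2 iN.1 (e1.imp_right And.left) (e2.imp_right And.left),
        stepB N t1 t2 hN h1 h2 iN.2 (e1.imp_right And.right) (e2.imp_right And.right)⟩
    · exact ⟨baseA _ (by omega) (by omega) (by omega) (by omega), baseB _ (by omega) (by omega) (by omega) (by omega)⟩

end Pool.Agent.Lib.MP_a966e6_co.PNU
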