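import Pool.Agent.Lib.MP_a966e6_co.PNU.Arith

/-! The arithmetic of the recursion with up to four truncated groups, avoiding a list `M` of odd numbers (project PNU). -/

set_option autoImplicit false

namespace Pool.Agent.Lib.MP_a966e6_co.PNU

/-- the odd numbers which are avoided -/
def arM : List ℕ := [23, 29, 35, 47, 53, 59]

/-- `(N, t1, t2, t3, t4)` for `s = 45, 46, .., 399` -/
def arTab : List (ℕ × ℕ × ℕ × ℕ × ℕ) := [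
  (7, 3, 0, 0, 0), (7, 4, 0, 0, 0), (7, 5, 0, 0, 0), (7, 6, 0, 0, 0), (7, 7, 0, 0, 0), (7, 5, 3, 0, 0), 
  (7, 6, 3, 0, 0), (7, 7, 3, 0, 0), (7, 7, 4, 0, 0), (7, 7, 5, 0, 0), (7, 7, 6, 0, 0), (7, 7, 7, 0, 0), 
  (9, 3, 0, 0, 0), (9, 4, 0, 0, 0), (9, 5, 0, 0, 0), (9, 6, 0, 0, 0), (9, 7, 0, 0, 0), (9, 8, 0, 0, 0), 
  (9, 9, 0, 0, 0), (9, 7, 3, 0, 0), (9, 8, 3, 0, 0), (9, 9, 3, 0, 0), (9, 9, 4, 0, 0), (9, 9, 5, 0, 0), 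
  (9, 9, 6, 0, 0), (9, 9, 7, 0, 0), (9, 9, 8, 0, 0), (9, 9, 9, 0, 0), (9, 9, 7, 3, 0), (9, 9, 8, 3, 0), 
  (9, 9, 9, 3, 0), (9, 9, 9, 4, 0), (9, 9, 9, 5, 0), (9, 9, 9, 6, 0), (9, 9, 9, 7, 0), (9, 9, 9, 8, 0), 
  (9, 9, 9, 9, 0), (9, 9, 9, 7, 3), (9, 9, 9, 8, 3), (9, 9, 9, 9, 3), (9, 9, 9, 9, 4), (9, 9, 9, 9, 5), 
  (9, 9, 9, 9, 6), (9, 9, 9, 9, 7), (9, 9, 9, 9, 8), (9, 9, 9, 9, 9), (13, 13, 0, 0, 0), (13, 10, 4, 0, 0), 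
  (13, 12, 3, 0, 0), (13, 13, 3, 0, 0), (13, 13, 4, 0, 0), (13, 13, 5, 0, 0), (13, 13, 6, 0, 0), (13, 13, 7, 0, 0), 
  (13, 13, 8, 0, 0), (13, 13, 9, 0, 0), (13, 13, 10, 0, 0), (13, 13, 8, 3, 0), (13, 13, 12, 0, 0), 
  (13, 13, 13, 0, 0), (13, 13, 10, 4, 0), (13, 13, 12, 3, 0), (13, 13, 13, 3, 0), (13, 13, 13, 4, 0), 
  (13, 13, 13, 5, 0), (13, 13, 13, 6, 0), (13, 13, 13, 7, 0), (13, 13, 13, 8, 0), (13, 13, 13, 9, 0), 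
  (13, 13, 13, 10, 0), (13, 13, 13, 8, 3), (13, 13, 13, 12, 0), (13, 13, 13, 13, 0), (13, 13, 13, 10, 4), 
  (13, 13, 13, 12, 3), (13, 13, 13, 13, 3), (13, 13, 13, 13, 4), (13, 13, 13, 13, 5), (13, 13, 13, 13, 6), 
  (13, 13, 13, 13, 7), (13, 13, 13, 13, 8), (13, 13, 13, 13, 9), (13, 13, 13, 13, 10), (13, 13, 13, 12, 12), 
  (13, 13, 13, 13, 12), (13, 13, 13, 13, 13), (19, 13, 4, 0, 0), (19, 18, 0, 0, 0), (19, 19, 0, 0, 0), 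
  (19, 16, 4, 0, 0), (19, 18, 3, 0, 0), (19, 19, 3, 0, 0), (19, 19, 4, 0, 0), (19, 19, 5, 0, 0), (19, 19, 6, 0, 0), 
  (19, 19, 7, 0, 0), (19, 19, 8, 0, 0), (19, 19, 9, 0, 0), (19, 19, 10, 0, 0), (19, 19, 8, 3, 0), 
  (19, 19, 12, 0, 0), (19, 19, 13, 0, 0), (19, 19, 10, 4, 0), (19, 19, 15, 0, 0), (19, 19, 16, 0, 0), 
  (19, 19, 13, 4, 0), (19, 19, 18, 0, 0), (19, 19, 19, 0, 0), (19, 19, 16, 4, 0), (19, 19, 18, 3, 0), 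
  (19, 19, 19, 3, 0), (19, 19, 19, 4, 0), (19, 19, 19, 5, 0), (19, 19, 19, 6, 0), (19, 19, 19, 7, 0), 
  (19, 19, 19, 8, 0), (19, 19, 19, 9, 0), (19, 19, 19, 10, 0), (19, 19, 19, 8, 3), (19, 19, 19, 12, 0), 
  (19, 19, 19, 13, 0), (19, 19, 19, 10, 4), (19, 19, 19, 15, 0), (19, 19, 19, 16, 0), (19, 19, 19, 13, 4), 
  (19, 19, 19, 18, 0), (19, 19, 19, 19, 0), (19, 19, 19, 16, 4), (19, 19, 19, 18, 3), (19, 19, 19, 19, 3), 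
  (19, 19, 19, 19, 4), (19, 19, 19, 19, 5), (19, 19, 19, 19, 6), (19, 19, 19, 19, 7), (19, 19, 19, 19, 8), 
  (19, 19, 19, 19, 9), (19, 19, 19, 19, 10), (19, 19, 19, 18, 12), (19, 19, 19, 19, 12), (19, 19, 19, 19, 13), 
  (19, 19, 19, 18, 15), (19, 19, 19, 19, 15), (19, 19, 19, 19, 16), (19, 19, 19, 18, 18), (19, 19, 19, 19, 18), 
  (19, 19, 19, 19, 19), (31, 5, 0, 0, 0), (31, 6, 0, 0, 0), (31, 7, 0, 0, 0), (31, 8, 0, 0, 0), (31, 9, 0, 0, 0), 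
  (31, 10, 0, 0, 0), (31, 8, 3, 0, 0), (31, 12, 0, 0, 0), (31, 13, 0, 0, 0), (31, 10, 4, 0, 0), (31, 15, 0, 0, 0), 
  (31, 16, 0, 0, 0), (31, 13, 4, 0, 0), (31, 18, 0, 0, 0), (31, 19, 0, 0, 0), (31, 20, 0, 0, 0), (31, 21, 0, 0, 0), 
  (31, 22, 0, 0, 0), (31, 20, 3, 0, 0), (31, 24, 0, 0, 0), (31, 25, 0, 0, 0), (31, 22, 4, 0, 0), (31, 27, 0, 0, 0), 
  (31, 28, 0, 0, 0), (31, 25, 4, 0, 0), (31, 30, 0, 0, 0), (31, 31, 0, 0, 0), (31, 28, 4, 0, 0), (31, 30, 3, 0, 0), 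
  (31, 31, 3, 0, 0), (31, 31, 4, 0, 0), (31, 31, 5, 0, 0), (31, 31, 6, 0, 0), (31, 31, 7, 0, 0), (31, 31, 8, 0, 0), 
  (31, 31, 9, 0, 0), (31, 31, 10, 0, 0), (31, 31, 8, 3, 0), (31, 31, 12, 0, 0), (31, 31, 13, 0, 0), 
  (31, 31, 10, 4, 0), (31, 31, 15, 0, 0), (31, 31, 16, 0, 0), (31, 31, 13, 4, 0), (31, 31, 18, 0, 0), 
  (31, 31, 19, 0, 0), (31, 31, 20, 0, 0), (31, 31, 21, 0, 0), (31, 31, 22, 0, 0), (31, 31, 20, 3, 0), 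
  (31, 31, 24, 0, 0), (31, 31, 25, 0, 0), (31, 31, 22, 4, 0), (31, 31, 27, 0, 0), (31, 31, 28, 0, 0), 
  (31, 31, 25, 4, 0), (31, 31, 30, 0, 0), (31, 31, 31, 0, 0), (31, 31, 28, 4, 0), (31, 31, 30, 3, 0), 
  (31, 31, 31, 3, 0), (31, 31, 31, 4, 0), (31, 31, 31, 5, 0), (31, 31, 31, 6, 0), (31, 31, 31, 7, 0), 
  (31, 31, 31, 8, 0), (31, 31, 31, 9, 0), (31, 31, 31, 10, 0), (31, 31, 31, 8, 3), (31, 31, 31, 12, 0), 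
  (31, 31, 31, 13, 0), (31, 31, 31, 10, 4), (31, 31, 31, 15, 0), (31, 31, 31, 16, 0), (31, 31, 31, 13, 4), 
  (31, 31, 31, 18, 0), (31, 31, 31, 19, 0), (31, 31, 31, 20, 0), (31, 31, 31, 21, 0), (31, 31, 31, 22, 0), 
  (31, 31, 31, 20, 3), (31, 31, 31, 24, 0), (31, 31, 31, 25, 0), (31, 31, 31, 22, 4), (31, 31, 31, 27, 0), 
  (31, 31, 31, 28, 0), (31, 31, 31, 25, 4), (31, 31, 31, 30, 0), (31, 31, 31, 31, 0), (31, 31, 31, 28, 4), 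
  (31, 31, 31, 30, 3), (31, 31, 31, 31, 3), (31, 31, 31, 31, 4), (31, 31, 31, 31, 5), (31, 31, 31, 31, 6), 
  (31, 31, 31, 31, 7), (31, 31, 31, 31, 8), (31, 31, 31, 31, 9), (31, 31, 31, 31, 10), (31, 31, 31, 30, 12), 
  (31, 31, 31, 31, 12), (31, 31, 31, 31, 13), (31, 31, 31, 30, 15), (31, 31, 31, 31, 15), (31, 31, 31, 31, 16), 
  (31, 31, 31, 30, 18), (31, 31, 31, 31, 18), (31, 31, 31, 31, 19), (31, 31, 31, 31, 20), (31, 31, 31, 31, 21), 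
  (31, 31, 31, 31, 22), (31, 31, 31, 30, 24), (31, 31, 31, 31, 24), (31, 31, 31, 31, 25), (31, 31, 31, 30, 27), 
  (31, 31, 31, 31, 27), (31, 31, 31, 31, 28), (31, 31, 31, 30, 30), (31, 31, 31, 31, 30), (31, 31, 31, 31, 31), 
  (37, 37, 37, 15, 0), (37, 37, 37, 16, 0), (37, 37, 37, 13, 4), (37, 37, 37, 18, 0), (37, 37, 37, 19, 0), 
  (37, 37, 37, 20, 0), (37, 37, 37, 21, 0), (37, 37, 37, 22, 0), (37, 37, 37, 20, 3), (37, 37, 37, 24, 0), 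
  (37, 37, 37, 25, 0), (37, 37, 37, 22, 4), (37, 37, 37, 27, 0), (37, 37, 37, 28, 0), (37, 37, 37, 25, 4), 
  (37, 37, 37, 30, 0), (37, 37, 37, 31, 0), (37, 37, 37, 32, 0), (37, 37, 37, 33, 0), (37, 37, 37, 34, 0), 
  (37, 37, 37, 35, 0), (37, 37, 37, 36, 0), (37, 37, 37, 37, 0), (37, 37, 37, 35, 3), (37, 37, 37, 36, 3), 
  (37, 37, 37, 37, 3), (37, 37, 37, 37, 4), (37, 37, 37, 37, 5), (37, 37, 37, 37, 6), (37, 37, 37, 37, 7), 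
  (37, 37, 37, 37, 8), (37, 37, 37, 37, 9), (37, 37, 37, 37, 10), (37, 37, 37, 36, 12), (37, 37, 37, 37, 12), 
  (37, 37, 37, 37, 13), (37, 37, 37, 36, 15), (37, 37, 37, 37, 15), (37, 37, 37, 37, 16), (37, 37, 37, 36, 18), 
  (37, 37, 37, 37, 18), (37, 37, 37, 37, 19), (37, 37, 37, 37, 20), (37, 37, 37, 37, 21), (37, 37, 37, 37, 22), 
  (37, 37, 37, 36, 24), (37, 37, 37, 37, 24), (37, 37, 37, 37, 25), (37, 37, 37, 36, 27), (37, 37, 37, 37, 27), 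
  (37, 37, 37, 37, 28), (37, 37, 37, 36, 30), (37, 37, 37, 37, 30), (37, 37, 37, 37, 31), (37, 37, 37, 37, 32), 
  (37, 37, 37, 37, 33), (37, 37, 37, 37, 34), (37, 37, 37, 37, 35), (37, 37, 37, 37, 36), (37, 37, 37, 37, 37), 
  (41, 41, 41, 40, 3), (41, 41, 41, 41, 3), (41, 41, 41, 41, 4), (41, 41, 41, 41, 5), (41, 41, 41, 41, 6), 
  (41, 41, 41, 41, 7), (41, 41, 41, 41, 8), (41, 41, 41, 41, 9), (41, 41, 41, 41, 10), (41, 41, 41, 40, 12), 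
  (41, 41, 41, 41, 12), (41, 41, 41, 41, 13), (41, 41, 41, 40, 15), (41, 41, 41, 41, 15), (41, 41, 41, 41, 16), 
  (41, 41, 41, 40, 18), (41, 41, 41, 41, 18), (41, 41, 41, 41, 19), (41, 41, 41, 41, 20), (41, 41, 41, 41, 21), 
  (41, 41, 41, 41, 22), (41, 41, 41, 40, 24), (41, 41, 41, 41, 24), (41, 41, 41, 41, 25), (41, 41, 41, 40, 27), 
  (41, 41, 41, 41, 27), (41, 41, 41, 41, 28), (41, 41, 41, 40, 30), (41, 41, 41, 41, 30)]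

/-- a size is allowed -/
def arGood (t : ℕ) : Bool := t == 0 || (decide (3 ≤ t) && !(arM.contains (2 * t + 1)))

def arChk (s : ℕ) (x : ℕ × ℕ × ℕ × ℕ × ℕ) : Bool :=
  match x with
  | (N, t1, t2, t3, t4) =>
    ((decide (7 ≤ N) && N % 2 != 0 && N % 3 != 0 && N % 5 != 0 && t3 == 0 && t4 == 0) || N == 9 ||
      (decide (11 ≤ N) && N % 2 != 0 && N % 3 != 0 && N % 5 != 0 && N % 7 != 0)) &&
    decide (t1 ≤ N) && decide (t2 ≤ N) && decide (t3 ≤ N) && decide (t4 ≤ N) &&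
    !(arM.contains (2 * N + 1)) && arGood t1 && arGood t2 && arGood t3 && arGood t4 &&
    s == 6 * N + t1 + t2 + t3 + t4

theorem ar_tab : ((List.range 355).all fun i => arChk (45 + i) (arTab.getD i (0, 0, 0, 0, 0))) = true := by
  decide +kernel

theorem arGood_spec {t : ℕ} (h : arGood t = true) : t = 0 ∨ (3 ≤ t ∧ 2 * t + 1 ∉ arM) := by
  unfold arGood at h
  simp only [Bool.or_eq_true, Bool.and_eq_true, beq_iff_eq, decide_eq_true_eq, Bool.not_eq_true',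
    List.contains_eq_mem, decide_eq_false_iff_not] at h
  exact h

/-- The decomposition for `arM`. -/
theorem ar0 (s : ℕ) (hs : s = 42 ∨ 45 ≤ s) : ∃ N t1 t2 t3 t4 : ℕ,
    ((OkN N ∧ t3 = 0 ∧ t4 = 0) ∨ (N = 9 ∨ (11 ≤ N ∧ N % 2 ≠ 0 ∧ N % 3 ≠ 0 ∧ N % 5 ≠ 0 ∧ N % 7 ≠ 0))) ∧
    (t1 ≤ N ∧ t2 ≤ N ∧ t3 ≤ N ∧ t4 ≤ N) ∧ (3 ≤ N ∧ 2 * N + 1 ∉ arM) ∧
    (t1 = 0 ∨ (3 ≤ t1 ∧ 2 * t1 + 1 ∉ arM)) ∧ (t2 = 0 ∨ (3 ≤ t2 ∧ 2 * t2 + 1 ∉ arM)) ∧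
    (t3 = 0 ∨ (3 ≤ t3 ∧ 2 * t3 + 1 ∉ arM)) ∧ (t4 = 0 ∨ (3 ≤ t4 ∧ 2 * t4 + 1 ∉ arM)) ∧
    s = 6 * N + t1 + t2 + t3 + t4 := by
  by_cases h42 : s = 42
  · refine ⟨7, 0, 0, 0, 0, Or.inl ⟨Or.inr ⟨by norm_num, by norm_num, by norm_num, by norm_num⟩, rfl, rfl⟩, by omega,
      ⟨by norm_num, by decide⟩, Or.inl rfl, Or.inl rfl, Or.inl rfl, Or.inl rfl, by omega⟩
  by_cases h400 : s < 400
  · have h := ar_tab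
    rw [List.all_eq_true] at h
    have h1 := h (s - 45) (List.mem_range.2 (by omega))
    have e : 45 + (s - 45) = s := by omega
    rw [e] at h1
    generalize arTab.getD (s - 45) (0, 0, 0, 0, 0) = x at h1
    obtain ⟨N, t1, t2, t3, t4⟩ := x
    simp only [arChk, Bool.and_eq_true, Bool.or_eq_true, decide_eq_true_eq, beq_iff_eq, bne_iff_ne,
      Bool.not_eq_true', List.contains_eq_mem, decide_eq_false_iff_not] at h1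
    obtain ⟨⟨⟨⟨⟨⟨⟨⟨⟨⟨hN, a1⟩, a2⟩, a3⟩, a4⟩, hM⟩, g1⟩, g2⟩, g3⟩, g4⟩, hs'⟩ := h1
    have h3 : 3 ≤ N := by
      rcases hN with (h | h) | h
      · omega
      · omega
      · omega
    refine ⟨N, t1, t2, t3, t4, ?_, ⟨a1, a2, a3, a4⟩, ⟨h3, hM⟩, arGood_spec g1, arGood_spec g2, arGood_spec g3,
      arGood_spec g4, hs'⟩
    rcases hN with (h | h) | h
    · exact Or.inl ⟨Or.inr ⟨h.1.1.1.1.1, h.1.1.1.1.2, h.1.1.1.2, h.1.1.2⟩, h.1.2, h.2⟩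
    · exact Or.inr (Or.inl h)
    · exact Or.inr (Or.inr ⟨h.1.1.1.1, h.1.1.1.2, h.1.1.2, h.1.2, h.2⟩)
  · obtain ⟨j, hj, j2, j3, j5⟩ := arith_window ((s + 7) / 8 % 30) (Nat.mod_lt _ (by norm_num))
    have big : ∀ t, 30 ≤ t → 2 * t + 1 ∉ arM := by
      intro t ht h
      simp only [arM, List.mem_cons, List.not_mem_nil, or_false] at h
      omega
    obtain ⟨N, hN⟩ : ∃ N, N = (s + 7) / 8 + j := ⟨_, rfl⟩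
    refine ⟨N, (s - 6 * N) / 2, (s - 6 * N) - (s - 6 * N) / 2, 0, 0,
      Or.inl ⟨Or.inr ⟨by omega, by omega, by omega, by omega⟩, rfl, rfl⟩, ⟨by omega, by omega, by omega, by omega⟩,
      ⟨by omega, big N (by omega)⟩, Or.inr ⟨by omega, big _ (by omega)⟩, Or.inr ⟨by omega, big _ (by omega)⟩,
      Or.inl rfl, Or.inl rfl, by omega⟩

/-- The same for every list `M` of numbers from `arM`. -/
theorem arith4 (M : List ℕ) (hM : ∀ k ∈ M, k ∈ arM) (s : ℕ) (hs : s = 42 ∨ 45 ≤ s) : ∃ N t1 t2 t3 t4 : ℕ,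
    ((OkN N ∧ t3 = 0 ∧ t4 = 0) ∨ (N = 9 ∨ (11 ≤ N ∧ N % 2 ≠ 0 ∧ N % 3 ≠ 0 ∧ N % 5 ≠ 0 ∧ N % 7 ≠ 0))) ∧
    (t1 ≤ N ∧ t2 ≤ N ∧ t3 ≤ N ∧ t4 ≤ N) ∧ (3 ≤ N ∧ 2 * N + 1 ∉ M) ∧
    (t1 = 0 ∨ (3 ≤ t1 ∧ 2 * t1 + 1 ∉ M)) ∧ (t2 = 0 ∨ (3 ≤ t2 ∧ 2 * t2 + 1 ∉ M)) ∧
    (t3 = 0 ∨ (3 ≤ t3 ∧ 2 * t3 + 1 ∉ M)) ∧ (t4 = 0 ∨ (3 ≤ t4 ∧ 2 * t4 + 1 ∉ M)) ∧
    s = 6 * N + t1 + t2 + t3 + t4 := by
  obtain ⟨N, t1, t2, t3, t4, hN, a, ⟨b1, b2⟩, c1, c2, c3, c4, e⟩ := ar0 s hs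
  have go : ∀ t, (t = 0 ∨ (3 ≤ t ∧ 2 * t + 1 ∉ arM)) → (t = 0 ∨ (3 ≤ t ∧ 2 * t + 1 ∉ M)) := by
    intro t h
    exact h.imp_right fun h => ⟨h.1, fun h' => h.2 (hM _ h')⟩
  exact ⟨N, t1, t2, t3, t4, hN, a, ⟨b1, fun h => b2 (hM _ h)⟩, go _ c1, go _ c2, go _ c3, go _ c4, e⟩

end Pool.Agent.Lib.MP_a966e6_co.PNU
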