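import Pool.Agent.Lib.MP_a966e6_co.PNU.BaseU
import Pool.Agent.Lib.MP_a966e6_co.PNU.BaseT

/-! The base of the recursion: `f6`, `f7`, `f8`, `baseU`, `baseT`. -/
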