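import Pool.Agent.Lib.MP_a966e6_co.PNU.Dat.FrC2_9
import Pool.Agent.Lib.MP_a966e6_co.PNU.Dat.FrC2_10

/-! The coset frames `2^9`, `2^10`. -/

set_option autoImplicit false

namespace Pool.Agent.Lib.MP_a966e6_co.PNU

theorem f9 : FrC 2 9 := pFrC2_9

theorem f10 : FrC 2 10 := pFrC2_10

end Pool.Agent.Lib.MP_a966e6_co.PNU
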