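import Pool.Agent.Lib.MP_a966e6_co.PNU.BaseT4
import Pool.Agent.Lib.MP_a966e6_co.PNU.Dat.U23
import Pool.Agent.Lib.MP_a966e6_co.PNU.Dat.U29
import Pool.Agent.Lib.MP_a966e6_co.PNU.Dat.U35
import Pool.Agent.Lib.MP_a966e6_co.PNU.Dat.U47
import Pool.Agent.Lib.MP_a966e6_co.PNU.Dat.U53
import Pool.Agent.Lib.MP_a966e6_co.PNU.Dat.U59

/-! The base of the recursion. -/

set_option autoImplicit false

namespace Pool.Agent.Lib.MP_a966e6_co.PNU

theorem u23 : U 23 := U_of_chk 23 3 _ Dat.cU23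

theorem u29 : U 29 := U_of_chk 29 3 _ Dat.cU29

theorem u35 : U 35 := U_of_chk 35 5 _ Dat.cU35

theorem u47 : U 47 := U_of_chk 47 3 _ Dat.cU47

theorem u53 : U 53 := U_of_chk 53 3 _ Dat.cU53

theorem u59 : U 59 := U_of_chk 59 3 _ Dat.cU59

/-- All but the missing numbers. -/
theorem baseN' : ∀ k ∈ baseM, k ∉ [23] → U k := by
  intro k hk hm
  simp only [baseM, List.mem_cons, List.not_mem_nil, or_false] at hk hm
  rcases hk with rfl | rfl | rfl | rfl | rfl | rfl
  · exact absurd rfl hm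
  · exact u29
  · exact u35
  · exact u47
  · exact u53
  · exact u59

/-- The whole base. -/
theorem baseN : ∀ k ∈ baseM, U k := by
  intro k hk
  by_cases h : k = 23
  · rw [h]
    exact u23
  · exact baseN' k hk (by simpa using h)

end Pool.Agent.Lib.MP_a966e6_co.PNU
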