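import Pool.Agent.Lib.MP_a966e6_co.PNU.Sound3
import Pool.Agent.Lib.MP_a966e6_co.PNU.Dat.UT7
import Pool.Agent.Lib.MP_a966e6_co.PNU.Dat.UT9
import Pool.Agent.Lib.MP_a966e6_co.PNU.Dat.UT11
import Pool.Agent.Lib.MP_a966e6_co.PNU.Dat.UT13
import Pool.Agent.Lib.MP_a966e6_co.PNU.Dat.UT15
import Pool.Agent.Lib.MP_a966e6_co.PNU.Dat.UT17
import Pool.Agent.Lib.MP_a966e6_co.PNU.Dat.UT19
import Pool.Agent.Lib.MP_a966e6_co.PNU.Dat.UT21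
import Pool.Agent.Lib.MP_a966e6_co.PNU.Dat.UT25
import Pool.Agent.Lib.MP_a966e6_co.PNU.Dat.UT27
import Pool.Agent.Lib.MP_a966e6_co.PNU.Dat.UT31
import Pool.Agent.Lib.MP_a966e6_co.PNU.Dat.UT33
import Pool.Agent.Lib.MP_a966e6_co.PNU.Dat.UT37
import Pool.Agent.Lib.MP_a966e6_co.PNU.Dat.UT39
import Pool.Agent.Lib.MP_a966e6_co.PNU.Dat.UT41
import Pool.Agent.Lib.MP_a966e6_co.PNU.Dat.UT43
import Pool.Agent.Lib.MP_a966e6_co.PNU.Dat.UT45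
import Pool.Agent.Lib.MP_a966e6_co.PNU.Dat.UT49
import Pool.Agent.Lib.MP_a966e6_co.PNU.Dat.UT51
import Pool.Agent.Lib.MP_a966e6_co.PNU.Dat.UT55
import Pool.Agent.Lib.MP_a966e6_co.PNU.Dat.UT57
import Pool.Agent.Lib.MP_a966e6_co.PNU.Dat.UT61
import Pool.Agent.Lib.MP_a966e6_co.PNU.Dat.UT63
import Pool.Agent.Lib.MP_a966e6_co.PNU.Dat.UT65
import Pool.Agent.Lib.MP_a966e6_co.PNU.Dat.UT67
import Pool.Agent.Lib.MP_a966e6_co.PNU.Dat.UT69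
import Pool.Agent.Lib.MP_a966e6_co.PNU.Dat.UT71
import Pool.Agent.Lib.MP_a966e6_co.PNU.Dat.UT73
import Pool.Agent.Lib.MP_a966e6_co.PNU.Dat.UT75
import Pool.Agent.Lib.MP_a966e6_co.PNU.Dat.UT77
import Pool.Agent.Lib.MP_a966e6_co.PNU.Dat.UT79
import Pool.Agent.Lib.MP_a966e6_co.PNU.Dat.UT81
import Pool.Agent.Lib.MP_a966e6_co.PNU.Dat.UT83
import Pool.Agent.Lib.MP_a966e6_co.PNU.Dat.UT87
import Pool.Agent.Lib.MP_a966e6_co.PNU.Dat.UT89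

/-! The base of the recursion. -/

set_option autoImplicit false

namespace Pool.Agent.Lib.MP_a966e6_co.PNU

/-- The odd numbers for which no system with a `T` component is used. -/
def baseM : List ℕ := [23, 29, 35, 47, 53, 59]

theorem baseT4 : ∀ k, 7 ≤ k → k ≤ 89 → k % 2 = 1 → k ≠ 85 → k ∉ baseM → UT k := by
  intro k h1 h2 h3 h4 h5
  simp only [baseM, List.mem_cons, List.not_mem_nil, or_false, not_or] at h5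
  have h : k = 7 ∨ k = 9 ∨ k = 11 ∨ k = 13 ∨ k = 15 ∨ k = 17 ∨ k = 19 ∨ k = 21 ∨ k = 25 ∨ k = 27 ∨ k = 31 ∨ k = 33 ∨ k = 37 ∨ k = 39 ∨ k = 41 ∨ k = 43 ∨ k = 45 ∨ k = 49 ∨ k = 51 ∨ k = 55 ∨ k = 57 ∨ k = 61 ∨ k = 63 ∨ k = 65 ∨ k = 67 ∨ k = 69 ∨ k = 71 ∨ k = 73 ∨ k = 75 ∨ k = 77 ∨ k = 79 ∨ k = 81 ∨ k = 83 ∨ k = 87 ∨ k = 89 := by omega
  clear h1 h2 h3 h4 h5
  rcases h with rfl | rfl | rfl | rfl | rfl | rfl | rfl | rfl | rfl | rfl | rfl | rfl | rfl | rfl | rfl | rfl | rfl | rfl | rfl | rfl | rfl | rfl | rfl | rfl | rfl | rfl | rfl | rfl | rfl | rfl | rfl | rfl | rfl | rfl | rfl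
  · exact UT_of_chk 7 1 _ Dat.cUT7 Dat.tUT7
  · exact UT_of_chk 9 3 _ Dat.cUT9 Dat.tUT9
  · exact UT_of_chk 11 3 _ Dat.cUT11 Dat.tUT11
  · exact UT_of_chk 13 1 _ Dat.cUT13 Dat.tUT13
  · exact UT_of_chk 15 3 _ Dat.cUT15 Dat.tUT15
  · exact UT_of_chk 17 3 _ Dat.cUT17 Dat.tUT17
  · exact UT_of_chk 19 1 _ Dat.cUT19 Dat.tUT19
  · exact UT_of_chk 21 3 _ Dat.cUT21 Dat.tUT21
  · exact UT_of_chk 25 1 _ Dat.cUT25 Dat.tUT25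
  · exact UT_of_chk 27 3 _ Dat.cUT27 Dat.tUT27
  · exact UT_of_chk 31 1 _ Dat.cUT31 Dat.tUT31
  · exact UT_of_chk 33 33 _ Dat.cUT33 Dat.tUT33
  · exact UT_of_chk 37 1 _ Dat.cUT37 Dat.tUT37
  · exact UT_of_chk 39 3 _ Dat.cUT39 Dat.tUT39
  · exact UT_of_chk 41 123 _ Dat.cUT41 Dat.tUT41
  · exact UT_of_chk 43 1 _ Dat.cUT43 Dat.tUT43
  · exact UT_of_chk 45 45 _ Dat.cUT45 Dat.tUT45
  · exact UT_of_chk 49 1 _ Dat.cUT49 Dat.tUT49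
  · exact UT_of_chk 51 153 _ Dat.cUT51 Dat.tUT51
  · exact UT_of_chk 55 1 _ Dat.cUT55 Dat.tUT55
  · exact UT_of_chk 57 57 _ Dat.cUT57 Dat.tUT57
  · exact UT_of_chk 61 1 _ Dat.cUT61 Dat.tUT61
  · exact UT_of_chk 63 63 _ Dat.cUT63 Dat.tUT63
  · exact UT_of_chk 65 195 _ Dat.cUT65 Dat.tUT65
  · exact UT_of_chk 67 1 _ Dat.cUT67 Dat.tUT67
  · exact UT_of_chk 69 207 _ Dat.cUT69 Dat.tUT69
  · exact UT_of_chk 71 213 _ Dat.cUT71 Dat.tUT71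
  · exact UT_of_chk 73 1 _ Dat.cUT73 Dat.tUT73
  · exact UT_of_chk 75 225 _ Dat.cUT75 Dat.tUT75
  · exact UT_of_chk 77 231 _ Dat.cUT77 Dat.tUT77
  · exact UT_of_chk 79 1 _ Dat.cUT79 Dat.tUT79
  · exact UT_of_chk 81 243 _ Dat.cUT81 Dat.tUT81
  · exact UT_of_chk 83 249 _ Dat.cUT83 Dat.tUT83
  · exact UT_of_chk 87 261 _ Dat.cUT87 Dat.tUT87
  · exact UT_of_chk 89 267 _ Dat.cUT89 Dat.tUT89

end Pool.Agent.Lib.MP_a966e6_co.PNU
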