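import Pool.Agent.Lib.MP_a966e6_co.PNU.Sound3
import Pool.Agent.Lib.MP_a966e6_co.PNU.Dat.FrC2_6
import Pool.Agent.Lib.MP_a966e6_co.PNU.Dat.FrC2_7
import Pool.Agent.Lib.MP_a966e6_co.PNU.Dat.FrC2_8
import Pool.Agent.Lib.MP_a966e6_co.PNU.Dat.U6
import Pool.Agent.Lib.MP_a966e6_co.PNU.Dat.U8
import Pool.Agent.Lib.MP_a966e6_co.PNU.Dat.U10
import Pool.Agent.Lib.MP_a966e6_co.PNU.Dat.U12
import Pool.Agent.Lib.MP_a966e6_co.PNU.Dat.U14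
import Pool.Agent.Lib.MP_a966e6_co.PNU.Dat.U16
import Pool.Agent.Lib.MP_a966e6_co.PNU.Dat.U18
import Pool.Agent.Lib.MP_a966e6_co.PNU.Dat.U20
import Pool.Agent.Lib.MP_a966e6_co.PNU.Dat.U22
import Pool.Agent.Lib.MP_a966e6_co.PNU.Dat.U24
import Pool.Agent.Lib.MP_a966e6_co.PNU.Dat.U26
import Pool.Agent.Lib.MP_a966e6_co.PNU.Dat.U28
import Pool.Agent.Lib.MP_a966e6_co.PNU.Dat.U30
import Pool.Agent.Lib.MP_a966e6_co.PNU.Dat.U32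
import Pool.Agent.Lib.MP_a966e6_co.PNU.Dat.U34
import Pool.Agent.Lib.MP_a966e6_co.PNU.Dat.U36
import Pool.Agent.Lib.MP_a966e6_co.PNU.Dat.U38
import Pool.Agent.Lib.MP_a966e6_co.PNU.Dat.U40
import Pool.Agent.Lib.MP_a966e6_co.PNU.Dat.U42
import Pool.Agent.Lib.MP_a966e6_co.PNU.Dat.U44
import Pool.Agent.Lib.MP_a966e6_co.PNU.Dat.U46
import Pool.Agent.Lib.MP_a966e6_co.PNU.Dat.U48
import Pool.Agent.Lib.MP_a966e6_co.PNU.Dat.U50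
import Pool.Agent.Lib.MP_a966e6_co.PNU.Dat.U52
import Pool.Agent.Lib.MP_a966e6_co.PNU.Dat.U54
import Pool.Agent.Lib.MP_a966e6_co.PNU.Dat.U56
import Pool.Agent.Lib.MP_a966e6_co.PNU.Dat.U58
import Pool.Agent.Lib.MP_a966e6_co.PNU.Dat.U60
import Pool.Agent.Lib.MP_a966e6_co.PNU.Dat.U62
import Pool.Agent.Lib.MP_a966e6_co.PNU.Dat.U64
import Pool.Agent.Lib.MP_a966e6_co.PNU.Dat.U66
import Pool.Agent.Lib.MP_a966e6_co.PNU.Dat.U68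
import Pool.Agent.Lib.MP_a966e6_co.PNU.Dat.U70
import Pool.Agent.Lib.MP_a966e6_co.PNU.Dat.U72
import Pool.Agent.Lib.MP_a966e6_co.PNU.Dat.U74
import Pool.Agent.Lib.MP_a966e6_co.PNU.Dat.U76
import Pool.Agent.Lib.MP_a966e6_co.PNU.Dat.U78
import Pool.Agent.Lib.MP_a966e6_co.PNU.Dat.U80
import Pool.Agent.Lib.MP_a966e6_co.PNU.Dat.U82
import Pool.Agent.Lib.MP_a966e6_co.PNU.Dat.U86
import Pool.Agent.Lib.MP_a966e6_co.PNU.Dat.U88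

/-! The base of the recursion. -/

set_option autoImplicit false

namespace Pool.Agent.Lib.MP_a966e6_co.PNU

theorem f6 : FrC 2 6 := pFrC2_6

theorem f7 : FrC 2 7 := pFrC2_7

theorem f8 : FrC 2 8 := pFrC2_8

theorem baseU : ∀ k, 6 ≤ k → k ≤ 88 → k % 2 = 0 → k ≠ 84 → U k := by
  intro k h1 h2 h3 h4
  have h : k = 6 ∨ k = 8 ∨ k = 10 ∨ k = 12 ∨ k = 14 ∨ k = 16 ∨ k = 18 ∨ k = 20 ∨ k = 22 ∨ k = 24 ∨ k = 26 ∨ k = 28 ∨ k = 30 ∨ k = 32 ∨ k = 34 ∨ k = 36 ∨ k = 38 ∨ k = 40 ∨ k = 42 ∨ k = 44 ∨ k = 46 ∨ k = 48 ∨ k = 50 ∨ k = 52 ∨ k = 54 ∨ k = 56 ∨ k = 58 ∨ k = 60 ∨ k = 62 ∨ k = 64 ∨ k = 66 ∨ k = 68 ∨ k = 70 ∨ k = 72 ∨ k = 74 ∨ k = 76 ∨ k = 78 ∨ k = 80 ∨ k = 82 ∨ k = 86 ∨ k = 88 := by omega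
  rcases h with rfl | rfl | rfl | rfl | rfl | rfl | rfl | rfl | rfl | rfl | rfl | rfl | rfl | rfl | rfl | rfl | rfl | rfl | rfl | rfl | rfl | rfl | rfl | rfl | rfl | rfl | rfl | rfl | rfl | rfl | rfl | rfl | rfl | rfl | rfl | rfl | rfl | rfl | rfl | rfl | rfl
  · exact U_of_chk 6 3 _ Dat.cU6
  · exact U_of_chk 8 4 _ Dat.cU8
  · exact U_of_chk 10 2 _ Dat.cU10
  · exact U_of_chk 12 3 _ Dat.cU12
  · exact U_of_chk 14 3 _ Dat.cU14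
  · exact U_of_chk 16 3 _ Dat.cU16
  · exact U_of_chk 18 3 _ Dat.cU18
  · exact U_of_chk 20 3 _ Dat.cU20
  · exact U_of_chk 22 2 _ Dat.cU22
  · exact U_of_chk 24 3 _ Dat.cU24
  · exact U_of_chk 26 78 _ Dat.cU26
  · exact U_of_chk 28 1 _ Dat.cU28
  · exact U_of_chk 30 90 _ Dat.cU30
  · exact U_of_chk 32 96 _ Dat.cU32
  · exact U_of_chk 34 2 _ Dat.cU34
  · exact U_of_chk 36 108 _ Dat.cU36
  · exact U_of_chk 38 114 _ Dat.cU38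
  · exact U_of_chk 40 40 _ Dat.cU40
  · exact U_of_chk 42 126 _ Dat.cU42
  · exact U_of_chk 44 132 _ Dat.cU44
  · exact U_of_chk 46 46 _ Dat.cU46
  · exact U_of_chk 48 144 _ Dat.cU48
  · exact U_of_chk 50 150 _ Dat.cU50
  · exact U_of_chk 52 1 _ Dat.cU52
  · exact U_of_chk 54 162 _ Dat.cU54
  · exact U_of_chk 56 168 _ Dat.cU56
  · exact U_of_chk 58 174 _ Dat.cU58
  · exact U_of_chk 60 180 _ Dat.cU60
  · exact U_of_chk 62 186 _ Dat.cU62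
  · exact U_of_chk 64 64 _ Dat.cU64
  · exact U_of_chk 66 198 _ Dat.cU66
  · exact U_of_chk 68 204 _ Dat.cU68
  · exact U_of_chk 70 70 _ Dat.cU70
  · exact U_of_chk 72 216 _ Dat.cU72
  · exact U_of_chk 74 222 _ Dat.cU74
  · exact U_of_chk 76 228 _ Dat.cU76
  · exact U_of_chk 78 234 _ Dat.cU78
  · exact U_of_chk 80 240 _ Dat.cU80
  · exact U_of_chk 82 246 _ Dat.cU82
  · exact U_of_chk 86 258 _ Dat.cU86
  · exact U_of_chk 88 264 _ Dat.cU88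

end Pool.Agent.Lib.MP_a966e6_co.PNU
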