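import Pool.Agent.Lib.MP_a966e6_co.PNU.Frame

/-! Kernel checker for systems of pages. -/

set_option autoImplicit false

namespace Pool.Agent.Lib.MP_a966e6_co.PNU

/-- a piece: its vertices and its chords `(u, v)`, `u < v` (hull edges and diagonals) -/
abbrev Piece : Type := List ℕ × List (ℕ × ℕ)

/-- a base page: the rotations `(s, p)` (page `p` is the base page rotated by `s`) and all its pieces -/
abbrev Base : Type := List (ℕ × ℕ) × List Piece

/-- add the numbers `f x` to the set `m`; fails if one is used already -/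
def addL {α : Type} (f : α → ℕ) : List α → ℕ → Option ℕ
  | [], m => some m
  | v :: vs, m =>
    match Nat.testBit m (f v), (m ||| 1 <<< (f v)) with
    | true, _ => none
    | false, 0 => none
    | false, (m' + 1) => addL f vs (m' + 1)

/-- all the numbers `f x`, `x ∈ g B`, `B ∈ D`, are different -/
def allL {α β : Type} (g : β → List α) (f : α → ℕ) : List β → ℕ → Bool
  | [], _ => true
  | B :: D, m =>
    match addL f (g B) m with
    | none => false
    | some m' => allL g f D m'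

def memb (a : ℕ) : List ℕ → Bool
  | [] => false
  | b :: l => Nat.beq a b || memb a l

def ncr (c : ℕ × ℕ) : List (ℕ × ℕ) → Bool
  | [] => true
  | c' :: cs => !(Nat.blt c.1 c'.1 && (Nat.blt c'.1 c.2 && Nat.blt c.2 c'.2)) && ncr c cs

def pieceOK (n : ℕ) (P : Piece) : Bool :=
  P.1.all (fun v => Nat.blt v n) &&
  P.2.all (fun c => Nat.blt c.1 c.2 && (memb c.1 P.1 && (memb c.2 P.1 && ncr c P.2)))

/-- the rotated vertices are not in the class `h` -/
def shP (n : ℕ) (cl : ℕ → ℕ) (h s : ℕ) (Ps : List Piece) : Bool :=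
  Ps.all (fun P => P.1.all (fun v => !(Nat.beq (cl ((v + s) % n)) h)))

def baseOK (n N : ℕ) (cl hp : ℕ → ℕ) (B : Base) : Bool :=
  B.1.all (fun x => Nat.blt x.1 n && (Nat.blt x.2 N && shP n cl (hp x.2) x.1 B.2)) &&
  (B.2.all (pieceOK n) && allL (fun P : Piece => P.1) (fun v => v) B.2 0)

/-- the set of the codes `a n + b` of the rotated directed chords -/
def mC (n s : ℕ) : List (ℕ × ℕ) → ℕ
  | [] => 0
  | c :: cs => (1 <<< ((c.1 + s) % n * n + (c.2 + s) % n) ||| 1 <<< ((c.2 + s) % n * n + (c.1 + s) % n)) ||| mC n s cs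

def mP (n s : ℕ) : List Piece → ℕ
  | [] => 0
  | P :: Ps => mC n s P.2 ||| mP n s Ps

def mB (n : ℕ) (Ps : List Piece) : List (ℕ × ℕ) → ℕ
  | [] => 0
  | x :: xs => mP n x.1 Ps ||| mB n Ps xs

def mD (n : ℕ) : List Base → ℕ
  | [] => 0
  | B :: D => mB n B.2 B.1 ||| mD n D

def cov (n : ℕ) (cl : ℕ → ℕ) (M : ℕ) : Bool :=
  match M with
  | 0 => false
  | m + 1 => (List.range n).all (fun v => (List.range v).all (fun u => Nat.beq (cl u) (cl v) || Nat.testBit (m + 1) (u * n + v)))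

def check (n N : ℕ) (cl hp : ℕ → ℕ) (D : List Base) : Bool :=
  allL (fun B : Base => B.1) (fun x => x.2) D 0 && (D.all (baseOK n N cl hp) && cov n cl (mD n D))

theorem natbeq (a b : ℕ) : Nat.beq a b = true ↔ a = b :=
  ⟨Nat.eq_of_beq_eq_true, fun h => by subst h; exact Nat.beq_refl a⟩

theorem addL_spec {α : Type} (f : α → ℕ) (vs : List α) (m m' : ℕ) (h : addL f vs m = some m') :
    (∀ i, m.testBit i = true → m'.testBit i = true) ∧ (∀ v ∈ vs, m.testBit (f v) = false) ∧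
    (∀ v ∈ vs, m'.testBit (f v) = true) ∧ (vs.map f).Nodup := by
  induction vs generalizing m with
  | nil =>
    rw [addL, Option.some.injEq] at h
    subst h
    exact ⟨fun _ h => h, by simp, by simp, by simp⟩
  | cons v vs ih =>
    rw [addL] at h
    have hlor : ∀ i, (m ||| 1 <<< (f v)).testBit i = (m.testBit i || decide (f v = i)) := by
      intro i
      rw [Nat.testBit_or, Nat.one_shiftLeft, Nat.testBit_two_pow]
    split at h
    · exact absurd h (by simp)
    · exact absurd h (by simp)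
    · rename_i m1 h1 h2
      rw [Nat.succ_eq_add_one] at h2
      rw [← h2] at h
      obtain ⟨i1, i2, i3, i4⟩ := ih _ h
      have j1 : ∀ i, m.testBit i = true → m'.testBit i = true := fun i hi => i1 i (by rw [hlor, hi, Bool.true_or])
      have j0 : m'.testBit (f v) = true := i1 _ (by rw [hlor]; simp)
      have j2 : ∀ w ∈ vs, m.testBit (f w) = false ∧ f v ≠ f w := by
        intro w hw
        have := i2 w hw
        rw [hlor, Bool.or_eq_false_iff, decide_eq_false_iff_not] at this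
        exact this
      refine ⟨j1, ?_, ?_, ?_⟩
      · intro w hw
        rcases List.mem_cons.1 hw with rfl | hw
        · exact h1
        · exact (j2 w hw).1
      · intro w hw
        rcases List.mem_cons.1 hw with rfl | hw
        · exact j0
        · exact i3 w hw
      · rw [List.map_cons, List.nodup_cons]
        refine ⟨?_, i4⟩
        intro hm
        rw [List.mem_map] at hm
        obtain ⟨w, hw, hwv⟩ := hm
        exact (j2 w hw).2 hwv.symm

theorem allL_spec {α β : Type} (g : β → List α) (f : α → ℕ) (D : List β) (m : ℕ) (h : allL g f D m = true) :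
    (∀ B ∈ D, ∀ v ∈ g B, m.testBit (f v) = false) ∧
    (∀ B ∈ D, ∀ B' ∈ D, ∀ v ∈ g B, ∀ v' ∈ g B', f v = f v' → B = B' ∧ v = v') := by
  induction D generalizing m with
  | nil => simp
  | cons P Ps ih =>
    rw [allL] at h
    split at h
    · exact absurd h (by simp)
    · rename_i m' hm
      obtain ⟨a1, a2, a3, a4⟩ := addL_spec f (g P) m m' hm
      obtain ⟨i2, i3⟩ := ih m' h
      refine ⟨?_, ?_⟩
      · intro Q hQ v hv
        rcases List.mem_cons.1 hQ with rfl | hQ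
        · exact a2 v hv
        · have h3 := i2 Q hQ v hv
          by_contra h4
          rw [Bool.not_eq_false] at h4
          rw [a1 _ h4] at h3
          exact absurd h3 (by simp)
      · intro Q hQ Q' hQ' v hv v' hv' hvv
        rcases List.mem_cons.1 hQ with hQ1 | hQ1
        · rcases List.mem_cons.1 hQ' with hQ2 | hQ2
          · subst hQ1
            subst hQ2
            exact ⟨rfl, List.inj_on_of_nodup_map a4 hv hv' hvv⟩
          · subst hQ1
            have h3 := i2 Q' hQ2 v' hv'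
            rw [← hvv, a3 v hv] at h3
            exact absurd h3 (by simp)
        · rcases List.mem_cons.1 hQ' with hQ2 | hQ2
          · subst hQ2
            have h3 := i2 Q hQ1 v hv
            rw [hvv, a3 v' hv'] at h3
            exact absurd h3 (by simp)
          · exact i3 Q hQ1 Q' hQ2 v hv v' hv' hvv

theorem memb_iff (a : ℕ) (l : List ℕ) : memb a l = true ↔ a ∈ l := by
  induction l with
  | nil => simp [memb]
  | cons b l ih =>
    rw [memb, Bool.or_eq_true, ih, natbeq, List.mem_cons]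

theorem ncr_spec (c : ℕ × ℕ) (cs : List (ℕ × ℕ)) (h : ncr c cs = true) : ∀ c' ∈ cs, ¬ (c.1 < c'.1 ∧ c'.1 < c.2 ∧ c.2 < c'.2) := by
  induction cs with
  | nil => simp
  | cons d cs ih =>
    rw [ncr, Bool.and_eq_true] at h
    intro c' hc'
    rcases List.mem_cons.1 hc' with rfl | hc'
    · have := h.1
      rw [Bool.not_eq_true', ← Bool.not_eq_true, Bool.and_eq_true, Bool.and_eq_true, Nat.blt_eq, Nat.blt_eq, Nat.blt_eq] at this
      exact this
    · exact ih h.2 c' hc'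

theorem pieceOK_spec (n : ℕ) (P : Piece) (h : pieceOK n P = true) :
    (∀ v ∈ P.1, v < n) ∧ (∀ c ∈ P.2, c.1 < c.2 ∧ c.1 ∈ P.1 ∧ c.2 ∈ P.1) ∧
    (∀ c ∈ P.2, ∀ c' ∈ P.2, ¬ (c.1 < c'.1 ∧ c'.1 < c.2 ∧ c.2 < c'.2)) := by
  rw [pieceOK, Bool.and_eq_true, List.all_eq_true, List.all_eq_true] at h
  obtain ⟨h1, h2⟩ := h
  refine ⟨fun v hv => ?_, fun c hc => ?_, fun c hc => ?_⟩
  · have := h1 v hv
    rw [Nat.blt_eq] at this
    exact this
  · have := h2 c hc
    rw [Bool.and_eq_true, Bool.and_eq_true, Bool.and_eq_true, Nat.blt_eq, memb_iff, memb_iff] at this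
    exact ⟨this.1, this.2.1, this.2.2.1⟩
  · have := h2 c hc
    rw [Bool.and_eq_true, Bool.and_eq_true, Bool.and_eq_true] at this
    exact ncr_spec c P.2 this.2.2.2

theorem mC_spec (n s : ℕ) (cs : List (ℕ × ℕ)) (i : ℕ) (h : (mC n s cs).testBit i = true) :
    ∃ c ∈ cs, (i = (c.1 + s) % n * n + (c.2 + s) % n ∨ i = (c.2 + s) % n * n + (c.1 + s) % n) := by
  induction cs with
  | nil => simp [mC] at h
  | cons c cs ih =>
    rw [mC, Nat.testBit_or, Nat.testBit_or, Nat.one_shiftLeft, Nat.one_shiftLeft, Nat.testBit_two_pow, Nat.testBit_two_pow,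
      Bool.or_eq_true, Bool.or_eq_true, decide_eq_true_iff, decide_eq_true_iff] at h
    rcases h with (h | h) | h
    · exact ⟨c, List.mem_cons_self, Or.inl h.symm⟩
    · exact ⟨c, List.mem_cons_self, Or.inr h.symm⟩
    · obtain ⟨c', h1, h2⟩ := ih h
      exact ⟨c', List.mem_cons_of_mem _ h1, h2⟩

theorem mP_spec (n s : ℕ) (p : List Piece) (i : ℕ) (h : (mP n s p).testBit i = true) :
    ∃ P ∈ p, ∃ c ∈ P.2, (i = (c.1 + s) % n * n + (c.2 + s) % n ∨ i = (c.2 + s) % n * n + (c.1 + s) % n) := by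
  induction p with
  | nil => simp [mP] at h
  | cons P p ih =>
    rw [mP, Nat.testBit_or, Bool.or_eq_true] at h
    rcases h with h | h
    · exact ⟨P, List.mem_cons_self, mC_spec n s _ i h⟩
    · obtain ⟨Q, h1, h2⟩ := ih h
      exact ⟨Q, List.mem_cons_of_mem _ h1, h2⟩

theorem mB_spec (n : ℕ) (Ps : List Piece) (xs : List (ℕ × ℕ)) (i : ℕ) (h : (mB n Ps xs).testBit i = true) :
    ∃ x ∈ xs, ∃ P ∈ Ps, ∃ c ∈ P.2, (i = (c.1 + x.1) % n * n + (c.2 + x.1) % n ∨ i = (c.2 + x.1) % n * n + (c.1 + x.1) % n) := by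
  induction xs with
  | nil => simp [mB] at h
  | cons x xs ih =>
    rw [mB, Nat.testBit_or, Bool.or_eq_true] at h
    rcases h with h | h
    · exact ⟨x, List.mem_cons_self, mP_spec n x.1 _ i h⟩
    · obtain ⟨Q, h1, h2⟩ := ih h
      exact ⟨Q, List.mem_cons_of_mem _ h1, h2⟩

theorem mD_spec (n : ℕ) (D : List Base) (i : ℕ) (h : (mD n D).testBit i = true) :
    ∃ B ∈ D, ∃ x ∈ B.1, ∃ P ∈ B.2, ∃ c ∈ P.2,
      (i = (c.1 + x.1) % n * n + (c.2 + x.1) % n ∨ i = (c.2 + x.1) % n * n + (c.1 + x.1) % n) := by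
  induction D with
  | nil => simp [mD] at h
  | cons B D ih =>
    rw [mD, Nat.testBit_or, Bool.or_eq_true] at h
    rcases h with h | h
    · exact ⟨B, List.mem_cons_self, mB_spec n _ _ i h⟩
    · obtain ⟨Q, h1, h2⟩ := ih h
      exact ⟨Q, List.mem_cons_of_mem _ h1, h2⟩

theorem cov_spec (n : ℕ) (cl : ℕ → ℕ) (M : ℕ) (h : cov n cl M = true) (u v : ℕ) (hu : u < v) (hv : v < n) (hc : cl u ≠ cl v) :
    M.testBit (u * n + v) = true := by
  unfold cov at h
  split at h
  · exact absurd h (by simp)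
  · rw [List.all_eq_true] at h
    have h1 := h v (List.mem_range.2 hv)
    rw [List.all_eq_true] at h1
    have h2 := h1 u (List.mem_range.2 hu)
    rw [Bool.or_eq_true, natbeq] at h2
    exact h2.resolve_left hc

theorem rot_cases (n p s : ℕ) (hp : p < n) (hs : s < n) :
    ((p + s) % n = p + s ∧ p + s < n) ∨ ((p + s) % n + n = p + s ∧ n ≤ p + s) := by
  by_cases h : p + s < n
  · exact Or.inl ⟨Nat.mod_eq_of_lt h, h⟩
  · right
    refine ⟨?_, not_lt.1 h⟩
    rw [Nat.mod_eq_sub_mod (not_lt.1 h), Nat.mod_eq_of_lt (by omega)]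
    omega

/-- crossing is invariant under rotation -/
theorem rot_cross (n s : ℕ) (p q p' q' u v u' v' : ℕ) (hs : s < n) (hpq : p < q) (hq : q < n) (hpq' : p' < q') (hq' : q' < n)
    (h : (u = (p + s) % n ∧ v = (q + s) % n) ∨ (u = (q + s) % n ∧ v = (p + s) % n))
    (h' : (u' = (p' + s) % n ∧ v' = (q' + s) % n) ∨ (u' = (q' + s) % n ∧ v' = (p' + s) % n))
    (c1 : u < u') (c2 : u' < v) (c3 : v < v') : (p < p' ∧ p' < q ∧ q < q') ∨ (p' < p ∧ p < q' ∧ q' < q) := by
  rcases rot_cases n p s (by omega) hs with ⟨e1, f1⟩ | ⟨e1, f1⟩ <;>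
  rcases rot_cases n q s hq hs with ⟨e2, f2⟩ | ⟨e2, f2⟩ <;>
  rcases rot_cases n p' s (by omega) hs with ⟨e3, f3⟩ | ⟨e3, f3⟩ <;>
  rcases rot_cases n q' s hq' hs with ⟨e4, f4⟩ | ⟨e4, f4⟩ <;>
  omega

theorem code_inj (n a b a' b' : ℕ) (hb : b < n) (hb' : b' < n) (h : a * n + b = a' * n + b') : a = a' ∧ b = b' := by
  have hn : 0 < n := by omega
  have h1 : (a * n + b) / n = a := by
    rw [mul_comm, Nat.mul_add_div hn, Nat.div_eq_of_lt hb, add_zero]
  have h2 : (a' * n + b') / n = a' := by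
    rw [mul_comm, Nat.mul_add_div hn, Nat.div_eq_of_lt hb', add_zero]
  have h3 : a = a' := by rw [← h1, ← h2, h]
  subst h3
  exact ⟨rfl, by omega⟩

/-- the piece `P` of the base page of page `p` contains the vertex `w` (after the rotation) -/
private def InP (n : ℕ) (D : List Base) (p w : ℕ) (P : Piece) : Prop :=
  ∃ B ∈ D, ∃ s, (s, p) ∈ B.1 ∧ P ∈ B.2 ∧ ∃ v ∈ P.1, (v + s) % n = w

theorem sys_of_check (n N : ℕ) (cl hp : ℕ → ℕ) (D : List Base) (h : check n N cl hp D = true) : Sys n N cl hp := by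
  classical
  rw [check, Bool.and_eq_true, Bool.and_eq_true, List.all_eq_true] at h
  obtain ⟨hpg, hbase, hcov⟩ := h
  have hpg' := (allL_spec (fun B : Base => B.1) (fun x => x.2) D 0 hpg).2
  have hb : ∀ B ∈ D, (∀ x ∈ B.1, x.1 < n ∧ x.2 < N ∧ ∀ P ∈ B.2, ∀ v ∈ P.1, cl ((v + x.1) % n) ≠ hp x.2) ∧
      (∀ P ∈ B.2, pieceOK n P = true) ∧
      (∀ P ∈ B.2, ∀ P' ∈ B.2, ∀ v ∈ P.1, ∀ v' ∈ P'.1, v = v' → P = P' ∧ v = v') := by
    intro B hB
    have h1 := hbase B hB
    rw [baseOK, Bool.and_eq_true, Bool.and_eq_true, List.all_eq_true, List.all_eq_true] at h1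
    refine ⟨fun x hx => ?_, h1.2.1, (allL_spec (fun P : Piece => P.1) (fun v => v) B.2 0 h1.2.2).2⟩
    have h2 := h1.1 x hx
    rw [Bool.and_eq_true, Bool.and_eq_true, Nat.blt_eq, Nat.blt_eq, shP, List.all_eq_true] at h2
    refine ⟨h2.1, h2.2.1, fun P hP v hv => ?_⟩
    have h3 := h2.2.2 P hP
    rw [List.all_eq_true] at h3
    have h4 := h3 v hv
    rw [Bool.not_eq_true', ← Bool.not_eq_true, natbeq] at h4
    exact h4
  have huniq : ∀ p w P P', InP n D p w P → InP n D p w P' → P = P' := by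
    rintro p w P P' ⟨B, hB, s, hs, hP, v, hv, hw⟩ ⟨B', hB', s', hs', hP', v', hv', hw'⟩
    obtain ⟨e1, e2⟩ := hpg' B hB B' hB' (s, p) hs (s', p) hs' rfl
    subst e1
    have e3 : s = s' := congrArg Prod.fst e2
    subst e3
    have hsn : s < n := ((hb B hB).1 _ hs).1
    have hvn : v < n := (pieceOK_spec n P ((hb B hB).2.1 P hP)).1 v hv
    have hvn' : v' < n := (pieceOK_spec n P' ((hb B hB).2.1 P' hP')).1 v' hv'
    have hvv : v = v' := by
      rcases rot_cases n v s hvn hsn with ⟨a1, a2⟩ | ⟨a1, a2⟩ <;> rcases rot_cases n v' s hvn' hsn with ⟨b1, b2⟩ | ⟨b1, b2⟩ <;> omega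
    exact ((hb B hB).2.2 P hP P' hP' v hv v' hv' hvv).1
  let E : ℕ → ℕ → ℕ → Prop := fun p u v => u < v ∧ ∃ B ∈ D, ∃ s, (s, p) ∈ B.1 ∧ ∃ P ∈ B.2, ∃ c ∈ P.2,
    ((u = (c.1 + s) % n ∧ v = (c.2 + s) % n) ∨ (u = (c.2 + s) % n ∧ v = (c.1 + s) % n))
  let lam : ℕ → ℕ → ℕ := fun p w => if hw : ∃ P, InP n D p w P then Encodable.encode hw.choose else 0
  have hlam : ∀ p w P, InP n D p w P → lam p w = Encodable.encode P := by
    intro p w P hP
    have h1 : ∃ P, InP n D p w P := ⟨P, hP⟩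
    change (if hw : ∃ P, InP n D p w P then Encodable.encode hw.choose else 0) = _
    rw [dif_pos h1, huniq p w _ P h1.choose_spec hP]
  refine ⟨E, lam, ?_, ?_, ?_⟩
  · rintro p u v ⟨huv, B, hB, s, hs, P, hP, c, hc, hcuv⟩
    obtain ⟨q1, q2, q3⟩ := pieceOK_spec n P ((hb B hB).2.1 P hP)
    obtain ⟨r1, r2, r3⟩ := q2 c hc
    obtain ⟨t1, t2, t3⟩ := (hb B hB).1 _ hs
    have hn : 0 < n := by omega
    have w1 := t3 P hP c.1 r2
    have w2 := t3 P hP c.2 r3
    have l1 := hlam p ((c.1 + s) % n) P ⟨B, hB, s, hs, hP, c.1, r2, rfl⟩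
    have l2 := hlam p ((c.2 + s) % n) P ⟨B, hB, s, hs, hP, c.2, r3, rfl⟩
    rcases hcuv with ⟨rfl, rfl⟩ | ⟨rfl, rfl⟩
    · exact ⟨t2, huv, Nat.mod_lt _ hn, w1, w2, l1.trans l2.symm⟩
    · exact ⟨t2, huv, Nat.mod_lt _ hn, w2, w1, l2.trans l1.symm⟩
  · rintro p u v u' v' ⟨huv, B, hB, s, hs, P, hP, c, hc, hcuv⟩ ⟨huv', B', hB', s', hs', P', hP', c', hc', hcuv'⟩ hl c1 c2 c3
    obtain ⟨e1, e2⟩ := hpg' B hB B' hB' (s, p) hs (s', p) hs' rfl
    subst e1
    have e3 : s = s' := congrArg Prod.fst e2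
    subst e3
    obtain ⟨q1, q2, q3⟩ := pieceOK_spec n P ((hb B hB).2.1 P hP)
    obtain ⟨r1, r2, r3⟩ := q2 c hc
    obtain ⟨q1', q2', q3'⟩ := pieceOK_spec n P' ((hb B hB).2.1 P' hP')
    obtain ⟨r1', r2', r3'⟩ := q2' c' hc'
    have l1 : lam p u = Encodable.encode P := by
      rcases hcuv with ⟨rfl, _⟩ | ⟨rfl, _⟩
      · exact hlam _ _ P ⟨B, hB, s, hs, hP, c.1, r2, rfl⟩
      · exact hlam _ _ P ⟨B, hB, s, hs, hP, c.2, r3, rfl⟩
    have l2 : lam p u' = Encodable.encode P' := by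
      rcases hcuv' with ⟨rfl, _⟩ | ⟨rfl, _⟩
      · exact hlam _ _ P' ⟨B, hB, s, hs, hP', c'.1, r2', rfl⟩
      · exact hlam _ _ P' ⟨B, hB, s, hs, hP', c'.2, r3', rfl⟩
    have hPP : P = P' := Encodable.encode_injective (l1.symm.trans (hl.trans l2))
    subst hPP
    rcases rot_cross n s c.1 c.2 c'.1 c'.2 u v u' v' ((hb B hB).1 _ hs).1 r1 (q1 _ r3) r1' (q1 _ r3') hcuv hcuv' c1 c2 c3 with hx | hx
    · exact q3 c hc c' hc' hx
    · exact q3 c' hc' c hc hx
  · intro u v huv hv hc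
    obtain ⟨B, hB, x, hx, P, hP, c, hcP, hi⟩ := mD_spec n D _ (cov_spec n cl _ hcov u v huv hv hc)
    have hn : 0 < n := by omega
    refine ⟨x.2, huv, B, hB, x.1, hx, P, hP, c, hcP, ?_⟩
    rcases hi with hi | hi
    · exact Or.inl (code_inj n _ _ _ _ hv (Nat.mod_lt _ hn) hi)
    · exact Or.inr (code_inj n _ _ _ _ hv (Nat.mod_lt _ hn) hi)

end Pool.Agent.Lib.MP_a966e6_co.PNU
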