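import Pool.Agent.Lib.MP_a966e6_co.PNU.TDfill
import Pool.Agent.Lib.MP_a966e6_co.PNU.Arith

/-! All `k ≥ 6` from the coset frames `2^6`, `2^7`, `2^8` and the base list. -/

set_option autoImplicit false

namespace Pool.Agent.Lib.MP_a966e6_co.PNU

theorem TD_ok (N : ℕ) (h : OkN N) : TD 8 N := by
  rcases h with h | ⟨h7, h2, h3, h5⟩
  · rw [h]
    exact TD_nine
  · refine TD_of_coprime N ?_
    have e : (30 : ℕ) = 2 * (3 * 5) := rfl
    rw [e]
    refine Nat.Coprime.mul_right ?_ (Nat.Coprime.mul_right ?_ ?_)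
    · exact (Nat.Coprime.symm ((Nat.Prime.coprime_iff_not_dvd Nat.prime_two).2 (by omega)))
    · exact (Nat.Coprime.symm ((Nat.Prime.coprime_iff_not_dvd Nat.prime_three).2 (by omega)))
    · exact (Nat.Coprime.symm ((Nat.Prime.coprime_iff_not_dvd Nat.prime_five).2 (by omega)))

/-- `U_of_UT`: put the triangle `T_(k-1)` on the page `k - 1`. -/
theorem U_of_UT {k : ℕ} (h : UT k) : U k := by
  rcases Nat.eq_zero_or_pos k with hk | hk
  · rw [hk]
    exact U_zero
  obtain ⟨E, lam, h1, h2, h3⟩ := h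
  let L : ℕ → ℕ → ℕ := fun p u => if p = k - 1 ∧ u % k = k - 1 then 0 else lam p u + 1
  refine ⟨fun p u v => E p u v ∨ (p = k - 1 ∧ u % k = k - 1 ∧ v % k = k - 1 ∧ u < v ∧ v < 3 * k), L, ?_, ?_, ?_⟩
  · rintro p u v (hE | ⟨e1, e2, e3, e4, e5⟩)
    · obtain ⟨a1, a2, a3, a4, a5, a6⟩ := h1 p u v hE
      refine ⟨a1, a2, a3, ?_, ?_, ?_⟩
      · show u ≠ 3 * k
        omega
      · show v ≠ 3 * k
        omega
      · simp only [L]
        simp only at a4 a5
        by_cases hp : p = k - 1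
        · rw [if_pos hp] at a4 a5
          have b1 : u % k ≠ k - 1 := fun h => a4 (if_pos h)
          have b2 : v % k ≠ k - 1 := fun h => a5 (if_pos h)
          rw [if_neg (fun h => b1 h.2), if_neg (fun h => b2 h.2), a6]
        · rw [if_neg (fun h => hp h.1), if_neg (fun h => hp h.1), a6]
    · refine ⟨by omega, e4, e5, ?_, ?_, ?_⟩
      · show u ≠ 3 * k
        omega
      · show v ≠ 3 * k
        omega
      · simp only [L]
        rw [if_pos ⟨e1, e2⟩, if_pos ⟨e1, e3⟩]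
  · have hlab : ∀ p u v, E p u v → L p u = lam p u + 1 := by
      intro p u v hE
      obtain ⟨a1, a2, a3, a4, a5, a6⟩ := h1 p u v hE
      simp only [L]
      simp only at a4
      by_cases hp : p = k - 1
      · rw [if_pos hp] at a4
        have b1 : u % k ≠ k - 1 := fun h => a4 (if_pos h)
        rw [if_neg (fun h => b1 h.2)]
      · rw [if_neg (fun h => hp h.1)]
    rintro p u v u' v' (hE | ⟨e1, e2, e3, e4, e5⟩) (hE' | ⟨f1, f2, f3, f4, f5⟩) hl k1 k2 k3
    · rw [hlab p u v hE, hlab p u' v' hE'] at hl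
      exact h2 p u v u' v' hE hE' (by omega) k1 k2 k3
    · rw [hlab p u v hE] at hl
      simp only [L] at hl
      rw [if_pos ⟨f1, f2⟩] at hl
      omega
    · rw [hlab p u' v' hE'] at hl
      simp only [L] at hl
      rw [if_pos ⟨e1, e2⟩] at hl
      omega
    · -- four different vertices of a triangle
      have d : ∀ w, w < 3 * k → w % k = k - 1 → w = k - 1 ∨ w = 2 * k - 1 ∨ w = 3 * k - 1 := by
        intro w hw hm
        obtain ⟨c1, c2, c3⟩ := div_mod_lt w k 3 hw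
        have c4 := Nat.div_add_mod w k
        rw [hm] at c4
        obtain ⟨q, hq⟩ : ∃ q, w / k = q := ⟨_, rfl⟩
        rw [hq] at c1 c4
        interval_cases q <;> omega
      have g1 := d u (by omega) e2
      have g2 := d v e5 e3
      have g3 := d u' (by omega) f2
      have g4 := d v' f5 f3
      omega
  · intro u v huv hv _
    by_cases h : u % k = k - 1 ∧ v % k = k - 1
    · exact ⟨k - 1, Or.inr ⟨rfl, h.1, h.2, huv, hv⟩⟩
    · obtain ⟨p, hp⟩ := h3 u v huv hv (by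
        show (if u % k = k - 1 then 3 * k else u) ≠ (if v % k = k - 1 then 3 * k else v)
        split_ifs with c1 c2
        · exact absurd ⟨c1, c2⟩ h
        · omega
        · omega
        · omega)
      exact ⟨p, Or.inl hp⟩

/-- All `k ≥ 6`. -/
theorem all_UT (f6 : FrC 2 6) (f7 : FrC 2 7) (f8 : FrC 2 8)
    (baseU : ∀ k, 6 ≤ k → k ≤ 88 → k % 2 = 0 → k ≠ 84 → U k)
    (baseT : ∀ k, 7 ≤ k → k ≤ 89 → k % 2 = 1 → k ≠ 85 → UT k) :
    ∀ s, 3 ≤ s → U (2 * s) ∧ UT (2 * s + 1) := by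
  refine arith_all U UT baseU baseT ?_ ?_
  · intro N t1 t2 hN h1 h2 hU hU1 hU2
    exact tdU f6 f7 f8 (TD_ok N hN) h1 h2 hU hU1 hU2
  · intro N t1 t2 hN h1 h2 hU hU1 hU2
    exact tdT f6 f7 f8 (TD_ok N hN) h1 h2 hU hU1 hU2

theorem all_U (f6 : FrC 2 6) (f7 : FrC 2 7) (f8 : FrC 2 8)
    (baseU : ∀ k, 6 ≤ k → k ≤ 88 → k % 2 = 0 → k ≠ 84 → U k)
    (baseT : ∀ k, 7 ≤ k → k ≤ 89 → k % 2 = 1 → k ≠ 85 → UT k) (k : ℕ) (hk : 6 ≤ k) : U k := by
  obtain ⟨h1, h2⟩ := all_UT f6 f7 f8 baseU baseT (k / 2) (by omega)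
  rcases Nat.mod_two_eq_zero_or_one k with h | h
  · rw [show 2 * (k / 2) = k by omega] at h1
    exact h1
  · rw [show 2 * (k / 2) + 1 = k by omega] at h2
    exact U_of_UT h2

end Pool.Agent.Lib.MP_a966e6_co.PNU
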