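import Pool.Agent.Lib.MP_a966e6_co.PNU.TD

/-! Transversal designs from finite fields and from `ℤ / N`. -/

set_option autoImplicit false

namespace Pool.Agent.Lib.MP_a966e6_co.PNU

theorem TD.mono {K K' N : ℕ} (h : TD K N) (hK : K' ≤ K) : TD K' N := by
  obtain ⟨y, h1, h2, h3⟩ := h
  exact ⟨y, fun i a b hi => h1 i a b (by omega), fun i i' p q hi hi' => h2 i i' p q (by omega) (by omega),
    fun i i' a b a' b' hi hi' => h3 i i' a b a' b' (by omega) (by omega)⟩

/-- `TD(N + 1, N)` from a field with `N` elements. -/
theorem TD_field (N : ℕ) (F : Type) [Field F] (e : Fin N ≃ F) : TD (N + 1) N := by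
  classical
  have hN : 0 < N := by
    have := (e.symm 0).2
    omega
  let f : ℕ → F := fun a => if h : a < N then e ⟨a, h⟩ else 0
  have hf : ∀ a b, a < N → b < N → f a = f b → a = b := by
    intro a b ha hb h
    simp only [f, dif_pos ha, dif_pos hb] at h
    have := e.injective h
    simpa using this
  refine TD.of_inj (fun i a b => if i < N then ((e.symm (f a * f i + f b) : Fin N) : ℕ) else a) ?_ ?_
  · intro i a b _ ha _
    show (if i < N then ((e.symm (f a * f i + f b) : Fin N) : ℕ) else a) < N
    split_ifs
    · exact (e.symm _).2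
    · exact ha
  · intro i i' a b a' b' hi hi' hii ha hb ha' hb' e1 e2
    have k1 : (if i < N then ((e.symm (f a * f i + f b) : Fin N) : ℕ) else a) =
      (if i < N then ((e.symm (f a' * f i + f b') : Fin N) : ℕ) else a') := e1
    have k2 : (if i' < N then ((e.symm (f a * f i' + f b) : Fin N) : ℕ) else a) =
      (if i' < N then ((e.symm (f a' * f i' + f b') : Fin N) : ℕ) else a') := e2
    have un : ∀ u v : F, ((e.symm u : Fin N) : ℕ) = ((e.symm v : Fin N) : ℕ) → u = v := by
      intro u v h
      exact e.symm.injective (Fin.ext h)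
    have fin : ∀ j, a = a' → ((e.symm (f a * f j + f b) : Fin N) : ℕ) = ((e.symm (f a' * f j + f b') : Fin N) : ℕ) →
        b = b' := by
      intro j h h'
      have h'' := un _ _ h'
      rw [h] at h''
      exact hf _ _ hb hb' (add_left_cancel h'')
    by_cases c1 : i < N
    · rw [if_pos c1, if_pos c1] at k1
      by_cases c2 : i' < N
      · rw [if_pos c2, if_pos c2] at k2
        have l1 := un _ _ k1
        have l2 := un _ _ k2
        have l3 : (f a - f a') * (f i - f i') = 0 := by
          linear_combination l1 - l2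
        have hne : f i - f i' ≠ 0 := by
          intro h
          exact hii (hf i i' c1 c2 (sub_eq_zero.1 h))
        have l4 : f a = f a' := by
          rcases mul_eq_zero.1 l3 with h | h
          · exact sub_eq_zero.1 h
          · exact absurd h hne
        have l5 := hf _ _ ha ha' l4
        exact ⟨l5, fin i l5 k1⟩
      · rw [if_neg c2, if_neg c2] at k2
        exact ⟨k2, fin i k2 k1⟩
    · rw [if_neg c1, if_neg c1] at k1
      have c2 : i' < N := by omega
      rw [if_pos c2, if_pos c2] at k2
      exact ⟨k1, fin i' k1 k2⟩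

theorem TD_pow (p n : ℕ) [Fact p.Prime] (hn : n ≠ 0) : TD (p ^ n + 1) (p ^ n) := by
  classical
  haveI : Fintype (GaloisField p n) := Fintype.ofFinite _
  have h : Fintype.card (GaloisField p n) = p ^ n := by
    rw [← Nat.card_eq_fintype_card]
    exact GaloisField.card p n hn
  exact TD_field (p ^ n) (GaloisField p n) ((finCongr h.symm).trans (Fintype.equivFin (GaloisField p n)).symm)

/-- `TD(K, N)` when `N` is coprime to `1, .., K - 2`: the lines `y = a x + b` over `ℤ / N`. -/
theorem TD_spf (K N : ℕ) (hN : ∀ d, 0 < d → d + 1 < K → Nat.Coprime N d) : TD K N := by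
  rcases Nat.eq_zero_or_pos K with hK | hK
  · subst hK
    exact ⟨fun _ _ _ => 0, fun i a b h => absurd h (by omega), fun i i' p q h => absurd h (by omega),
      fun i i' a b a' b' h => absurd h (by omega)⟩
  refine TD.of_inj (fun i a b => if i + 1 < K then (a * i + b) % N else a) ?_ ?_
  · intro i a b _ ha _
    show (if i + 1 < K then (a * i + b) % N else a) < N
    split_ifs
    · exact Nat.mod_lt _ (by omega)
    · exact ha
  · intro i i' a b a' b' hi hi' hii ha hb ha' hb' e e'
    have key : ∀ i, (a * i + b) % N = (a' * i + b') % N →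
        ((N : ℤ) ∣ ((a : ℤ) - a') * i + (b - b')) := by
      intro i h
      have h1 : ((a * i + b : ℕ) : ℤ) % N = ((a' * i + b' : ℕ) : ℤ) % N := by
        exact_mod_cast h
      have h3 := Int.emod_eq_emod_iff_emod_sub_eq_zero.1 h1
      have h4 := Int.dvd_of_emod_eq_zero h3
      push_cast at h4
      have e5 : ((a : ℤ) - a') * i + (b - b') = (a : ℤ) * i + b - ((a' : ℤ) * i + b') := by ring
      rw [e5]
      exact h4
    have small : ∀ x y : ℕ, x < N → y < N → ((N : ℤ) ∣ ((x : ℤ) - y)) → x = y := by
      intro x y hx hy h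
      have h1 := Int.eq_zero_of_abs_lt_dvd h (by rw [abs_lt]; constructor <;> omega)
      omega
    have fin : ∀ i, a = a' → (a * i + b) % N = (a' * i + b') % N → b = b' := by
      intro i h1 h2
      have h3 := key i h2
      subst h1
      refine small b b' hb hb' ?_
      have e6 : ((a : ℤ) - a) * i + ((b : ℤ) - b') = (b : ℤ) - b' := by ring
      rw [e6] at h3
      exact h3
    have e1 : (if i + 1 < K then (a * i + b) % N else a) = (if i + 1 < K then (a' * i + b') % N else a') := e
    have e2 : (if i' + 1 < K then (a * i' + b) % N else a) = (if i' + 1 < K then (a' * i' + b') % N else a') := e'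
    by_cases h7 : i + 1 < K
    · rw [if_pos h7, if_pos h7] at e1
      by_cases h7' : i' + 1 < K
      · rw [if_pos h7', if_pos h7'] at e2
        have k1 := key i e1
        have k2 := key i' e2
        have k3 : (N : ℤ) ∣ ((a : ℤ) - a') * (((i : ℤ)) - i') := by
          have := dvd_sub k1 k2
          have e5 : ((a : ℤ) - a') * i + (b - b') - (((a : ℤ) - a') * i' + (b - b')) = ((a : ℤ) - a') * (((i : ℤ)) - i') := by
            ring
          rw [e5] at this
          exact this
        have hc : IsCoprime (N : ℤ) ((i : ℤ) - i') := by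
          rcases lt_or_gt_of_ne hii with h | h
          · have h1 := hN (i' - i) (by omega) (by omega)
            have h2 : IsCoprime (N : ℤ) ((i' - i : ℕ) : ℤ) := Nat.isCoprime_iff_coprime.2 h1
            have h3 : (i : ℤ) - i' = -((i' - i : ℕ) : ℤ) := by omega
            rw [h3]
            exact h2.neg_right
          · have h1 := hN (i - i') (by omega) (by omega)
            have h2 : IsCoprime (N : ℤ) ((i - i' : ℕ) : ℤ) := Nat.isCoprime_iff_coprime.2 h1
            have h3 : (i : ℤ) - i' = ((i - i' : ℕ) : ℤ) := by omega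
            rw [h3]
            exact h2
        have ha2 := small a a' ha ha' (hc.dvd_of_dvd_mul_right k3)
        exact ⟨ha2, fin i ha2 e1⟩
      · rw [if_neg h7', if_neg h7'] at e2
        exact ⟨e2, fin i e2 e1⟩
    · rw [if_neg h7, if_neg h7] at e1
      have h7' : i' + 1 < K := by omega
      rw [if_pos h7', if_pos h7'] at e2
      exact ⟨e1, fin i' e1 e2⟩

theorem TD_9 : TD 10 9 := by
  haveI : Fact (Nat.Prime 3) := ⟨Nat.prime_three⟩
  exact TD_pow 3 2 (by norm_num)

theorem TD_16 : TD 10 16 := by
  haveI : Fact (Nat.Prime 2) := ⟨Nat.prime_two⟩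
  exact (TD_pow 2 4 (by norm_num)).mono (by norm_num)

theorem TD_25 : TD 10 25 := by
  haveI : Fact (Nat.Prime 5) := ⟨Nat.prime_five⟩
  exact (TD_pow 5 2 (by norm_num)).mono (by norm_num)

theorem TD_27 : TD 10 27 := by
  haveI : Fact (Nat.Prime 3) := ⟨Nat.prime_three⟩
  exact (TD_pow 3 3 (by norm_num)).mono (by norm_num)

end Pool.Agent.Lib.MP_a966e6_co.PNU
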