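import Pool.Agent.Lib.MP_a966e6_co.PNU.TDfill

/-! Transversal designs with `K` truncated groups: the closure theorems `tdUg`, `tdTg`. -/

set_option autoImplicit false

namespace Pool.Agent.Lib.MP_a966e6_co.PNU

theorem count_inj {W : ℕ → Prop} [DecidablePred W] {x y : ℕ} (hx : W x) (hy : W y)
    (h : Nat.count W x = Nat.count W y) : x = y := by
  rcases lt_trichotomy x y with h' | h' | h'
  · have := count_lt_of hx h'
    omega
  · exact h'
  · have := count_lt_of hy h'
    omega

theorem nth_spec {W : ℕ → Prop} [DecidablePred W] {M q : ℕ} (hq : q < Nat.count W M) :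
    Nat.nth W q < M ∧ W (Nat.nth W q) ∧ Nat.count W (Nat.nth W q) = q := by
  obtain ⟨p, h1, h2, h3⟩ := exists_count M q hq
  rw [← h3, Nat.nth_count h2]
  exact ⟨h1, h2, rfl⟩

theorem count_nth' (W R : ℕ → Prop) [DecidablePred W] [DecidablePred R] (M : ℕ) :
    Nat.count (fun q => R (Nat.nth W q)) (Nat.count W M) = Nat.count (fun x => W x ∧ R x) M := by
  induction M with
  | zero => simp
  | succ M ih =>
    rw [Nat.count_succ W, Nat.count_succ (fun x => W x ∧ R x)]
    by_cases h : W M
    · rw [if_pos h, Nat.count_succ, ih, Nat.nth_count h]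
      by_cases h' : R M
      · rw [if_pos h', if_pos ⟨h, h'⟩]
      · rw [if_neg h', if_neg (fun e => h' e.2)]
    · rw [if_neg h, add_zero, ih, if_neg (fun e => h e.1), add_zero]

/-- Wilson's construction, blocks given as sets of points of `W ⊆ [0, M)`. -/
theorem wilsonW (g M : ℕ) (W : ℕ → Prop) [DecidablePred W] (c : ℕ → ℕ) {ι : Type} [Encodable ι]
    (B : ι → ℕ → Prop) [∀ b, DecidablePred (B b)]
    (hBW : ∀ b x, B b x → W x)
    (hF : ∀ b, FrC g (Nat.count (B b) M))
    (hcls : ∀ b x x', x < M → x' < M → B b x → B b x' → x ≠ x' → c x ≠ c x')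
    (huniq : ∀ b b' x x', x < M → x' < M → x ≠ x' → B b x → B b x' → B b' x → B b' x' → b = b')
    (hcov : ∀ x x', x < M → x' < M → W x → W x' → c x ≠ c x' → ∃ b, B b x ∧ B b x') :
    Gr (g * Nat.count W M) (fun x => c (Nat.nth W (x % Nat.count W M))) := by
  have hsp : ∀ b s, s < Nat.count (B b) M → Nat.nth (B b) s < M ∧ B b (Nat.nth (B b) s) ∧
      Nat.count (B b) (Nat.nth (B b) s) = s ∧ Nat.nth W (Nat.count W (Nat.nth (B b) s)) = Nat.nth (B b) s := by
    intro b s hs
    obtain ⟨h1, h2, h3⟩ := nth_spec hs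
    exact ⟨h1, h2, h3, Nat.nth_count (hBW b _ h2)⟩
  refine wilson g (Nat.count W M) (fun q => c (Nat.nth W q)) (fun b => Nat.count (B b) M)
    (fun b s => Nat.count W (Nat.nth (B b) s)) hF ?_ ?_ ?_ ?_ ?_
  · intro b s s' hss hs'
    obtain ⟨h1, h2, h3, h4⟩ := hsp b s (by omega)
    obtain ⟨k1, k2, k3, k4⟩ := hsp b s' hs'
    apply count_lt_of (hBW b _ h2)
    by_contra hcon
    have h5 := Nat.count_monotone (B b) (not_lt.1 hcon)
    omega
  · intro b s hs
    obtain ⟨h1, h2, h3, h4⟩ := hsp b s hs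
    exact count_lt_of (hBW b _ h2) h1
  · intro b s s' hs hs' hne
    obtain ⟨h1, h2, h3, h4⟩ := hsp b s hs
    obtain ⟨k1, k2, k3, k4⟩ := hsp b s' hs'
    rw [h4, k4]
    refine hcls b _ _ h1 k1 h2 k2 ?_
    intro h
    rw [h] at h3
    omega
  · intro b b' s s' r r' hs hs' hne hr hr' e e'
    obtain ⟨h1, h2, h3, h4⟩ := hsp b s hs
    obtain ⟨k1, k2, k3, k4⟩ := hsp b s' hs'
    obtain ⟨i1, i2, i3, i4⟩ := hsp b' r hr
    obtain ⟨j1, j2, j3, j4⟩ := hsp b' r' hr'
    have e1 := count_inj (hBW b _ h2) (hBW b' _ i2) e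
    have e2 := count_inj (hBW b _ k2) (hBW b' _ j2) e'
    refine huniq b b' _ _ h1 k1 ?_ h2 k2 (by rw [e1]; exact i2) (by rw [e2]; exact j2)
    intro h
    rw [h] at h3
    omega
  · intro x y hx hy hc
    obtain ⟨h1, h2, h3⟩ := nth_spec hx
    obtain ⟨k1, k2, k3⟩ := nth_spec hy
    obtain ⟨b, hb1, hb2⟩ := hcov _ _ h1 k1 h2 k2 hc
    refine ⟨b, Nat.count (B b) (Nat.nth W x), Nat.count (B b) (Nat.nth W y), count_lt_of hb1 h1,
      count_lt_of hb2 k1, ?_, ?_⟩
    · show Nat.count W (Nat.nth (B b) (Nat.count (B b) (Nat.nth W x))) = x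
      rw [Nat.nth_count hb1, h3]
    · show Nat.count W (Nat.nth (B b) (Nat.count (B b) (Nat.nth W y))) = y
      rw [Nat.nth_count hb2, k3]

/-! ### Counting in rows -/

theorem count_rows (R : ℕ → Prop) [DecidablePred R] (N K : ℕ) :
    Nat.count R (K * N) = ∑ j ∈ Finset.range K, Nat.count (fun w => R (j * N + w)) N := by
  induction K with
  | zero => simp
  | succ K ih =>
    rw [add_mul, one_mul, Nat.count_add, ih, Finset.sum_range_succ]

theorem row_div {N j w : ℕ} (hw : w < N) : (j * N + w) / N = j ∧ (j * N + w) % N = w := by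
  constructor
  · rw [mul_comm, Nat.mul_add_div (by omega), Nat.div_eq_of_lt hw, add_zero]
  · rw [mul_comm, Nat.mul_add_mod, Nat.mod_eq_of_lt hw]

theorem count_lt_self (t N : ℕ) (h : t ≤ N) : Nat.count (fun w => w < t) N = t := by
  have h1 := count_interval 0 t N (by omega) h
  rw [Nat.sub_zero] at h1
  exact (count_congr' N (fun w _ => by simp)).trans h1

theorem count_false (N : ℕ) (R : ℕ → Prop) [DecidablePred R] (h : ∀ w, w < N → ¬ R w) : Nat.count R N = 0 := by
  have h1 := count_interval 0 0 N (by omega) (by omega)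
  rw [Nat.sub_zero] at h1
  exact (count_congr' N (fun w hw => ⟨fun h' => absurd h' (h w hw), fun h' => by omega⟩)).trans h1

theorem count_one (N w0 : ℕ) (hw : w0 < N) : Nat.count (fun w => w = w0) N = 1 := by
  have h1 := count_interval w0 (w0 + 1) N (by omega) (by omega)
  rw [Nat.add_sub_cancel_left] at h1
  exact (count_congr' N (fun w _ => ⟨fun h => by omega, fun h => by omega⟩)).trans h1

/-- number of points -/
theorem count_W (T : ℕ → ℕ) (N K : ℕ) (hT : ∀ i, i < K → T i ≤ N) :
    Nat.count (fun x => x % N < T (x / N)) (K * N) = ∑ j ∈ Finset.range K, T j := by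
  rw [count_rows]
  refine Finset.sum_congr rfl ?_
  intro j hj
  rw [Finset.mem_range] at hj
  refine (count_congr' (q := fun w => w < T j) N ?_).trans (count_lt_self (T j) N (hT j hj))
  intro w hw
  rw [(row_div hw).1, (row_div hw).2]

/-- size of the hole `i` -/
theorem count_hole (T : ℕ → ℕ) (N K i : ℕ) (hT : ∀ i, i < K → T i ≤ N) :
    Nat.count (fun x => x % N < T (x / N) ∧ x / N = i) (K * N) = if i < K then T i else 0 := by
  rw [count_rows]
  have e : ∀ j ∈ Finset.range K, Nat.count (fun w => (j * N + w) % N < T ((j * N + w) / N) ∧ (j * N + w) / N = i) N =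
      if j = i then T i else 0 := by
    intro j hj
    rw [Finset.mem_range] at hj
    by_cases h : j = i
    · rw [if_pos h]
      subst h
      refine (count_congr' N ?_).trans (count_lt_self (T j) N (hT j hj))
      intro w hw
      rw [(row_div hw).1, (row_div hw).2]
      exact ⟨fun h => h.1, fun h => ⟨h, rfl⟩⟩
    · rw [if_neg h]
      refine count_false N _ ?_
      intro w hw h'
      rw [(row_div hw).1] at h'
      exact h h'.2
  rw [Finset.sum_congr rfl e, Finset.sum_ite_eq']
  simp only [Finset.mem_range]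

/-- size of the block -/
theorem count_block (T f : ℕ → ℕ) (N K : ℕ) (hf : ∀ i, i < K → f i < N) :
    Nat.count (fun x => x % N < T (x / N) ∧ x % N = f (x / N)) (K * N) = Nat.count (fun i => f i < T i) K := by
  induction K with
  | zero => simp
  | succ K ih =>
    rw [add_mul, one_mul, Nat.count_add, ih (fun i hi => hf i (by omega)), Nat.count_succ]
    congr 1
    by_cases h : f K < T K
    · rw [if_pos h]
      refine (count_congr' N ?_).trans (count_one N (f K) (hf K (by omega)))
      intro w hw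
      rw [(row_div hw).1, (row_div hw).2]
      exact ⟨fun h => h.2, fun h' => ⟨by omega, h'⟩⟩
    · rw [if_neg h]
      refine count_false N _ ?_
      intro w hw h'
      rw [(row_div hw).1, (row_div hw).2] at h'
      omega

/-- The weighted frame of a transversal design with `K` groups of sizes `T i ≤ N`, the first `m` of them full. -/
theorem tdFrameG {g m K N : ℕ} (T : ℕ → ℕ) (hF : ∀ s, m ≤ s → s ≤ K → FrC g s) (hTD : TD K N) (hmK : m ≤ K)
    (hT : ∀ i, i < K → T i ≤ N) (hm : ∀ i, i < m → T i = N) :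
    Gr (g * ∑ j ∈ Finset.range K, T j)
      (fun x => Nat.nth (fun x => x % N < T (x / N)) (x % ∑ j ∈ Finset.range K, T j) / N) := by
  obtain ⟨y, hy, hex, hun⟩ := hTD
  have key := wilsonW g (K * N) (fun x => x % N < T (x / N)) (fun x => x / N) (ι := Fin N × Fin N)
    (fun t x => x % N < T (x / N) ∧ x % N = y (x / N) t.1 t.2) (fun _ _ h => h.1) ?_ ?_ ?_ ?_
  · rw [count_W T N K hT] at key
    exact key
  · intro t
    rw [count_block T (fun i => y i t.1 t.2) N K (fun i hi => hy i _ _ hi t.1.2 t.2.2)]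
    refine hF _ ?_ ?_
    · have h1 := Nat.count_monotone (fun i => y i t.1 t.2 < T i) hmK
      have h2 : Nat.count (fun i => y i t.1 t.2 < T i) m = m := by
        refine (count_congr' m ?_).trans (count_lt_self m m le_rfl)
        intro i hi
        rw [hm i hi]
        exact ⟨fun _ => hi, fun _ => hy i _ _ (by omega) t.1.2 t.2.2⟩
      omega
    · have h1 := Nat.count_le (p := fun i => y i t.1 t.2 < T i) (n := K)
      exact h1
  · intro t x x' hx hx' h h' hne hc
    apply hne
    have e1 := Nat.div_add_mod x N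
    have e2 := Nat.div_add_mod x' N
    have h2 := h.2
    have h2' := h'.2
    rw [hc] at h2 e1
    rw [h2] at e1
    rw [h2'] at e2
    omega
  · intro t t' x x' hx hx' hne h1 h2 h3 h4
    obtain ⟨a1, a2, a3⟩ := div_mod_lt x N K hx
    obtain ⟨b1, b2, _⟩ := div_mod_lt x' N K hx'
    have hc : x / N ≠ x' / N := by
      intro hc
      apply hne
      have e1 := Nat.div_add_mod x N
      have e2 := Nat.div_add_mod x' N
      have q := h1.2
      have q' := h2.2
      rw [hc] at q e1
      rw [q] at e1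
      rw [q'] at e2
      omega
    obtain ⟨q1, q2⟩ := hun (x / N) (x' / N) t.1 t.2 t'.1 t'.2 a1 b1 hc t.1.2 t.2.2 t'.1.2 t'.2.2
      (by rw [← h1.2, h3.2]) (by rw [← h2.2, h4.2])
    exact Prod.ext (Fin.ext q1) (Fin.ext q2)
  · intro x x' hx hx' h h' hc
    obtain ⟨a1, a2, a3⟩ := div_mod_lt x N K hx
    obtain ⟨b1, b2, _⟩ := div_mod_lt x' N K hx'
    obtain ⟨a, b, ha, hb, e1, e2⟩ := hex (x / N) (x' / N) (x % N) (x' % N) a1 b1 hc a2 b2
    exact ⟨(⟨a, ha⟩, ⟨b, hb⟩), ⟨h, e1.symm⟩, ⟨h', e2.symm⟩⟩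

theorem count_tdG (g K N i : ℕ) (T : ℕ → ℕ) (hT : ∀ i, i < K → T i ≤ N) :
    Nat.count (fun x => Nat.nth (fun x => x % N < T (x / N)) (x % ∑ j ∈ Finset.range K, T j) / N = i)
      (g * ∑ j ∈ Finset.range K, T j) = g * (if i < K then T i else 0) := by
  rw [count_periodic (fun q => Nat.nth (fun x => x % N < T (x / N)) q / N = i)]
  congr 1
  have := count_nth' (fun x => x % N < T (x / N)) (fun x => x / N = i) (K * N)
  rw [count_W T N K hT, count_hole T N K i hT] at this
  exact this

/-- Closure, no extra point. -/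
theorem tdUg {g m K N : ℕ} (T : ℕ → ℕ) (hF : ∀ s, m ≤ s → s ≤ K → FrC g s) (hTD : TD K N) (hmK : m ≤ K)
    (hT : ∀ i, i < K → T i ≤ N) (hm : ∀ i, i < m → T i = N) (hU : ∀ i, i < K → T i = 0 ∨ U (g * T i)) :
    U (g * ∑ j ∈ Finset.range K, T j) := by
  refine fill0 _ _ (tdFrameG T hF hTD hmK hT hm) ?_
  intro i
  rw [count_tdG g K N i T hT]
  split_ifs with h
  · rcases hU i h with h' | h'
    · rw [h', mul_zero]
      exact U_zero
    · exact h'
  · rw [mul_zero]
    exact U_zero

/-- Closure, one extra point. -/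
theorem tdTg {g m K N : ℕ} (T : ℕ → ℕ) (hF : ∀ s, m ≤ s → s ≤ K → FrC g s) (hTD : TD K N) (hmK : m ≤ K)
    (hT : ∀ i, i < K → T i ≤ N) (hm : ∀ i, i < m → T i = N) (hU : ∀ i, i < K → T i = 0 ∨ UT (g * T i + 1)) :
    UT (g * (∑ j ∈ Finset.range K, T j) + 1) := by
  refine fill1 _ _ (tdFrameG T hF hTD hmK hT hm) ?_
  intro i
  rw [count_tdG g K N i T hT]
  split_ifs with h
  · rcases hU i h with h' | h'
    · rw [h', mul_zero]
      exact UT_one
    · exact h'
  · rw [mul_zero]
    exact UT_one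

end Pool.Agent.Lib.MP_a966e6_co.PNU
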