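import Pool.Agent.Lib.MP_a966e6_co.PNU.Compose
import Pool.Agent.Lib.MP_a966e6_co.PNU.TDgen
import Pool.Agent.Lib.MP_a966e6_co.PNU.TD2

/-! The recursion with up to four truncated groups. -/

set_option autoImplicit false

namespace Pool.Agent.Lib.MP_a966e6_co.PNU

/-- orders with a `TD(10, N)` -/
def Ok10 (N : ℕ) : Prop := N = 9 ∨ (11 ≤ N ∧ N % 2 ≠ 0 ∧ N % 3 ≠ 0 ∧ N % 5 ≠ 0 ∧ N % 7 ≠ 0)

theorem TD_ok10 (N : ℕ) (h : Ok10 N) : TD 10 N := by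
  rcases h with h | ⟨h11, h2, h3, h5, h7⟩
  · rw [h]
    exact TD_9
  · refine TD_spf 10 N ?_
    intro d hd hd'
    have c2 : Nat.Coprime N 2 := Nat.Coprime.symm ((Nat.Prime.coprime_iff_not_dvd Nat.prime_two).2 (by omega))
    have c3 : Nat.Coprime N 3 := Nat.Coprime.symm ((Nat.Prime.coprime_iff_not_dvd Nat.prime_three).2 (by omega))
    have c5 : Nat.Coprime N 5 := Nat.Coprime.symm ((Nat.Prime.coprime_iff_not_dvd Nat.prime_five).2 (by omega))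
    have c7 : Nat.Coprime N 7 := Nat.Coprime.symm ((Nat.Prime.coprime_iff_not_dvd (by norm_num)).2 (by omega))
    have hd9 : d < 9 := by omega
    interval_cases d
    · exact Nat.coprime_one_right N
    · exact c2
    · exact c3
    · exact (c2.pow_right 2 : Nat.Coprime N (2 ^ 2))
    · exact c5
    · exact (c2.mul_right c3 : Nat.Coprime N (2 * 3))
    · exact c7
    · exact (c2.pow_right 3 : Nat.Coprime N (2 ^ 3))

/-- sizes of the groups -/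
def T4 (N t1 t2 t3 t4 i : ℕ) : ℕ :=
  if i < 6 then N else if i = 6 then t1 else if i = 7 then t2 else if i = 8 then t3 else if i = 9 then t4 else 0

theorem sum_T4 (N t1 t2 t3 t4 : ℕ) :
    ∑ j ∈ Finset.range 10, T4 N t1 t2 t3 t4 j = 6 * N + t1 + t2 + t3 + t4 := by
  simp only [Finset.sum_range_succ, Finset.sum_range_zero, T4]
  norm_num
  ring

theorem tdT4 (f6 : FrC 2 6) (f7 : FrC 2 7) (f8 : FrC 2 8) (f9 : FrC 2 9) (f10 : FrC 2 10) {N t1 t2 t3 t4 : ℕ}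
    (h : (OkN N ∧ t3 = 0 ∧ t4 = 0) ∨ Ok10 N) (h1 : t1 ≤ N) (h2 : t2 ≤ N) (h3 : t3 ≤ N) (h4 : t4 ≤ N)
    (hN : UT (2 * N + 1)) (u1 : t1 = 0 ∨ UT (2 * t1 + 1)) (u2 : t2 = 0 ∨ UT (2 * t2 + 1))
    (u3 : t3 = 0 ∨ UT (2 * t3 + 1)) (u4 : t4 = 0 ∨ UT (2 * t4 + 1)) :
    UT (2 * (6 * N + t1 + t2 + t3 + t4) + 1) := by
  rcases h with ⟨hN', h3', h4'⟩ | hN'
  · subst h3' h4'
    rw [add_zero, add_zero]
    exact tdT f6 f7 f8 (TD_ok N hN') h1 h2 hN u1 u2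
  · rw [← sum_T4]
    refine tdTg (T4 N t1 t2 t3 t4) (m := 6) ?_ (TD_ok10 N hN') (by norm_num) ?_ ?_ ?_
    · intro s hs hs'
      interval_cases s
      · exact f6
      · exact f7
      · exact f8
      · exact f9
      · exact f10
    · intro i _
      unfold T4
      split_ifs <;> omega
    · intro i hi
      unfold T4
      rw [if_pos hi]
    · intro i _
      unfold T4
      split_ifs
      · exact Or.inr hN
      · exact u1
      · exact u2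
      · exact u3
      · exact u4
      · exact Or.inl rfl

/-- All `k ≥ 6`, when for `k ∈ M` only `U k` is known. -/
theorem all_U4 (M : List ℕ) (f6 : FrC 2 6) (f7 : FrC 2 7) (f8 : FrC 2 8) (f9 : FrC 2 9) (f10 : FrC 2 10)
    (baseU : ∀ k, 6 ≤ k → k ≤ 88 → k % 2 = 0 → k ≠ 84 → U k)
    (baseT : ∀ k, 7 ≤ k → k ≤ 89 → k % 2 = 1 → k ≠ 85 → k ∉ M → UT k)
    (hM : ∀ k ∈ M, U k)
    (ar : ∀ s, (s = 42 ∨ 45 ≤ s) → ∃ N t1 t2 t3 t4, ((OkN N ∧ t3 = 0 ∧ t4 = 0) ∨ Ok10 N) ∧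
      (t1 ≤ N ∧ t2 ≤ N ∧ t3 ≤ N ∧ t4 ≤ N) ∧ (3 ≤ N ∧ 2 * N + 1 ∉ M) ∧
      (t1 = 0 ∨ (3 ≤ t1 ∧ 2 * t1 + 1 ∉ M)) ∧ (t2 = 0 ∨ (3 ≤ t2 ∧ 2 * t2 + 1 ∉ M)) ∧
      (t3 = 0 ∨ (3 ≤ t3 ∧ 2 * t3 + 1 ∉ M)) ∧ (t4 = 0 ∨ (3 ≤ t4 ∧ 2 * t4 + 1 ∉ M)) ∧
      s = 6 * N + t1 + t2 + t3 + t4) (k : ℕ) (hk : 6 ≤ k) : U k := by
  have hT : ∀ s, 3 ≤ s → 2 * s + 1 ∉ M → UT (2 * s + 1) := by
    intro s
    induction s using Nat.strong_induction_on with
    | _ s ih =>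
      intro hs hsM
      by_cases h : s = 42 ∨ 45 ≤ s
      · obtain ⟨N, t1, t2, t3, t4, hN, ⟨a1, a2, a3, a4⟩, ⟨b1, b2⟩, c1, c2, c3, c4, e⟩ := ar s h
        rw [e]
        have go : ∀ t, t ≤ N → (t = 0 ∨ (3 ≤ t ∧ 2 * t + 1 ∉ M)) → (t = 0 ∨ UT (2 * t + 1)) := by
          rintro t ht (h | ⟨h, h'⟩)
          · exact Or.inl h
          · exact Or.inr (ih t (by omega) h h')
        exact tdT4 f6 f7 f8 f9 f10 hN a1 a2 a3 a4 (ih N (by omega) b1 b2) (go t1 a1 c1) (go t2 a2 c2)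
          (go t3 a3 c3) (go t4 a4 c4)
      · exact baseT _ (by omega) (by omega) (by omega) (by omega) hsM
  have hE : ∀ s, 3 ≤ s → U (2 * s) := by
    intro s hs
    refine (arith_all U (fun _ => True) baseU (fun _ _ _ _ _ => trivial) ?_ (fun _ _ _ _ _ _ _ _ _ => trivial) s hs).1
    intro N t1 t2 hN h1 h2 hU hU1 hU2
    exact tdU f6 f7 f8 (TD_ok N hN) h1 h2 hU hU1 hU2
  rcases Nat.mod_two_eq_zero_or_one k with h | h
  · have := hE (k / 2) (by omega)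
    rw [show 2 * (k / 2) = k by omega] at this
    exact this
  · by_cases hkM : k ∈ M
    · exact hM k hkM
    · have := hT (k / 2) (by omega) (by rw [show 2 * (k / 2) + 1 = k by omega]; exact hkM)
      rw [show 2 * (k / 2) + 1 = k by omega] at this
      exact U_of_UT this

end Pool.Agent.Lib.MP_a966e6_co.PNU
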