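import Mathlib

/-! Book embeddings, local and union page numbers. -/

set_option autoImplicit false

namespace Pool.Agent.Lib.MP_a966e6_co.PNU

/-- Two edges `e`, `f` cross with respect to the spine order in which the vertex `v` has
position `r v`. -/
def Crosses {V : Type} (r : V → ℕ) (e f : Sym2 V) : Prop :=
  ∃ u v x y : V, e = s(u, v) ∧ f = s(x, y) ∧
    ((r u < r x ∧ r x < r v ∧ r v < r y) ∨ (r x < r u ∧ r u < r y ∧ r y < r v))

/-- `(r, c)` is a book embedding of `G`: the spine order is given by the distinct positions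
`r v`, the edge `e` lies on the page `c e`, and no two edges on one page cross. -/
def IsBookEmbedding {V : Type} (G : SimpleGraph V) (r : V → ℕ) (c : Sym2 V → ℕ) : Prop :=
  Function.Injective r ∧
    ∀ e ∈ G.edgeSet, ∀ f ∈ G.edgeSet, c e = c f → ¬ Crosses r e f

/-- Every vertex is incident to edges of at most `k` pages. -/
def IsLocal {V : Type} (G : SimpleGraph V) (c : Sym2 V → ℕ) (k : ℕ) : Prop :=
  ∀ v : V, {p : ℕ | ∃ w, G.Adj v w ∧ c s(v, w) = p}.encard ≤ k

/-- The local page number. -/
noncomputable def localPageNumber {V : Type} (G : SimpleGraph V) : ℕ :=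
  sInf {k : ℕ | ∃ (r : V → ℕ) (c : Sym2 V → ℕ), IsBookEmbedding G r c ∧ IsLocal G c k}

/-- The graph formed by the edges of `G` on page `p`. -/
def pageGraph {V : Type} (G : SimpleGraph V) (c : Sym2 V → ℕ) (p : ℕ) : SimpleGraph V :=
  SimpleGraph.fromEdgeSet {e | e ∈ G.edgeSet ∧ c e = p}

/-- `(r, c)` is a union embedding of `G`: no two edges in the same connected component of
a page cross. -/
def IsUnionEmbedding {V : Type} (G : SimpleGraph V) (r : V → ℕ) (c : Sym2 V → ℕ) : Prop :=
  Function.Injective r ∧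
    ∀ (p : ℕ) (u v x y : V), (pageGraph G c p).Adj u v → (pageGraph G c p).Adj x y →
      (pageGraph G c p).Reachable u x → ¬ Crosses r s(u, v) s(x, y)

/-- The union page number. -/
noncomputable def unionPageNumber {V : Type} (G : SimpleGraph V) : ℕ :=
  sInf {k : ℕ | ∃ (r : V → ℕ) (c : Sym2 V → ℕ), IsUnionEmbedding G r c ∧
    ∀ e ∈ G.edgeSet, c e < k}

end Pool.Agent.Lib.MP_a966e6_co.PNU
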