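import Pool.Agent.Lib.MP_a966e6_co.PNU.Wilson

/-! Filling the holes of a frame (any hole pattern, any set of extra points). -/

set_option autoImplicit false

namespace Pool.Agent.Lib.MP_a966e6_co.PNU

/-- `k` pages for `K_{3k}` except the chords inside `A × 3`; the pages `p ∈ A` avoid `A × 3`. -/
def PU (k : ℕ) (A : ℕ → Prop) [DecidablePred A] : Prop :=
  Sys (3 * k) k (fun v => if A (v % k) then 3 * k else v) (fun p => if A p then 3 * k else 3 * k + 1)

/-- `U k` with a component `T_(k-1)` on the page `k - 1`: page `k - 1` avoids `T_(k-1)` -/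
def UT (k : ℕ) : Prop := Sys (3 * k) k (fun v => if v % k = k - 1 then 3 * k else v) (fun p => if p = k - 1 then 3 * k else 3 * k + 1)

/-- A system on the points `x < K` with `S x`, inside `[0, K)`. -/
def On (K : ℕ) (S : ℕ → Prop) (cl hp : ℕ → ℕ) : Prop := ∃ (E : ℕ → ℕ → ℕ → Prop) (lam : ℕ → ℕ → ℕ),
  (∀ p u v, E p u v → p < K ∧ S p ∧ u < v ∧ v < 3 * K ∧ S (u % K) ∧ S (v % K) ∧ cl u ≠ hp p ∧ cl v ≠ hp p ∧
    lam p u = lam p v) ∧
  (∀ p u v u' v', E p u v → E p u' v' → lam p u = lam p u' → u < u' → u' < v → v < v' → False) ∧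
  (∀ u v, u < v → v < 3 * K → S (u % K) → S (v % K) → cl u ≠ cl v → ∃ p, E p u v)

/-- number of the vertex `u` in the subsystem on `S` -/
def nu (K : ℕ) (S : ℕ → Prop) [DecidablePred S] (u : ℕ) : ℕ := (u / K) * Nat.count S K + Nat.count S (u % K)

theorem count_lt_of {S : ℕ → Prop} [DecidablePred S] {x y : ℕ} (hx : S x) (h : x < y) :
    Nat.count S x < Nat.count S y := Nat.count_strict_mono hx h

theorem exists_count {S : ℕ → Prop} [DecidablePred S] (K q : ℕ) (hq : q < Nat.count S K) :
    ∃ p, p < K ∧ S p ∧ Nat.count S p = q := by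
  induction K with
  | zero => simp at hq
  | succ K ih =>
    rw [Nat.count_succ] at hq
    by_cases hK : S K
    · rw [if_pos hK] at hq
      rcases Nat.lt_or_eq_of_le (Nat.le_of_lt_succ hq) with h | h
      · obtain ⟨p, h1, h2, h3⟩ := ih h
        exact ⟨p, by omega, h2, h3⟩
      · exact ⟨K, by omega, hK, h.symm⟩
    · rw [if_neg hK, add_zero] at hq
      obtain ⟨p, h1, h2, h3⟩ := ih hq
      exact ⟨p, by omega, h2, h3⟩

theorem nu_lt {K : ℕ} {S : ℕ → Prop} [DecidablePred S] {u v : ℕ} (hK : 0 < K) (hu : S (u % K)) (h : u < v) :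
    nu K S u < nu K S v := by
  unfold nu
  have hd : u / K ≤ v / K := Nat.div_le_div_right h.le
  have hu' := Nat.mod_lt u hK
  rcases Nat.lt_or_eq_of_le hd with hd' | hd'
  · have h1 := count_lt_of hu hu'
    have h5 : (u / K + 1) * Nat.count S K ≤ (v / K) * Nat.count S K := Nat.mul_le_mul_right _ hd'
    rw [add_mul, one_mul] at h5
    omega
  · rw [hd']
    have e1 := Nat.div_add_mod u K
    have e2 := Nat.div_add_mod v K
    rw [hd'] at e1
    have := count_lt_of hu (show u % K < v % K by omega)
    omega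

theorem nu_lt3 {K : ℕ} {S : ℕ → Prop} [DecidablePred S] {u : ℕ} (hu : S (u % K)) (h : u < 3 * K) :
    nu K S u < 3 * Nat.count S K := by
  obtain ⟨h1, h2, h3⟩ := div_mod_lt u K 3 h
  unfold nu
  have := count_lt_of hu h2
  have h5 : (u / K + 1) * Nat.count S K ≤ 3 * Nat.count S K := Nat.mul_le_mul_right _ h1
  rw [add_mul, one_mul] at h5
  omega

/-- Transfer of a system to the points of `S`. -/
theorem on_of_sys {K : ℕ} (S : ℕ → Prop) [DecidablePred S] {cl hp clb hpb : ℕ → ℕ}
    (h : Sys (3 * Nat.count S K) (Nat.count S K) clb hpb)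
    (h1 : ∀ u p, u < 3 * K → p < K → S (u % K) → S p → clb (nu K S u) ≠ hpb (Nat.count S p) → cl u ≠ hp p)
    (h2 : ∀ u v, u < v → v < 3 * K → S (u % K) → S (v % K) → cl u ≠ cl v → clb (nu K S u) ≠ clb (nu K S v)) :
    On K S cl hp := by
  obtain ⟨E, lam, a, b, c⟩ := h
  refine ⟨fun p u v => p < K ∧ S p ∧ S (u % K) ∧ S (v % K) ∧ u < v ∧ v < 3 * K ∧ E (Nat.count S p) (nu K S u) (nu K S v),
    fun p u => lam (Nat.count S p) (nu K S u), ?_, ?_, ?_⟩
  · rintro p u v ⟨e1, e2, e3, e4, e5, e6, e7⟩
    obtain ⟨a1, a2, a3, a4, a5, a6⟩ := a _ _ _ e7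
    exact ⟨e1, e2, e5, e6, e3, e4, h1 u p (by omega) e1 e3 e2 a4, h1 v p e6 e1 e4 e2 a5, a6⟩
  · rintro p u v u' v' ⟨e1, e2, e3, e4, e5, e6, e7⟩ ⟨f1, f2, f3, f4, f5, f6, f7⟩ hl k1 k2 k3
    have hK : 0 < K := by omega
    exact b _ _ _ _ _ e7 f7 hl (nu_lt hK e3 k1) (nu_lt hK f3 k2) (nu_lt hK e4 k3)
  · intro u v huv hv hu hv' hc
    have hK : 0 < K := by omega
    obtain ⟨q, hq⟩ := c _ _ (nu_lt hK hu huv) (nu_lt3 hv' hv) (h2 u v huv hv hu hv' hc)
    obtain ⟨p, p1, p2, p3⟩ := exists_count K q (a _ _ _ hq).1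
    exact ⟨p, p1, p2, hu, hv', huv, hv, by rw [p3]; exact hq⟩

/-- Glueing of systems inside `[0, K)`. -/
theorem glueOn (K : ℕ) (cl hp : ℕ → ℕ) {ι : Type} [Encodable ι] (S : ι → ℕ → Prop) (clb hpb : ι → ℕ → ℕ)
    (hS : ∀ b, On K (S b) (clb b) (hpb b))
    (hav : ∀ b p u, p < K → u < 3 * K → S b p → S b (u % K) → clb b u ≠ hpb b p → cl u ≠ hp p)
    (hdis : ∀ b b' p u, p < K → u < 3 * K → S b p → S b (u % K) → clb b u ≠ hpb b p → S b' p → S b' (u % K) →
      clb b' u ≠ hpb b' p → b = b')
    (hcov : ∀ u v, u < v → v < 3 * K → cl u ≠ cl v → ∃ b, S b (u % K) ∧ S b (v % K) ∧ clb b u ≠ clb b v) :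
    Sys (3 * K) K cl hp := by
  classical
  choose E lam h1 h2 h3 using hS
  let Q : ℕ → ℕ → ι → Prop := fun p u b => p < K ∧ u < 3 * K ∧ S b p ∧ S b (u % K) ∧ clb b u ≠ hpb b p
  have hQ : ∀ p u b b', Q p u b → Q p u b' → b = b' := by
    rintro p u b b' ⟨a1, a2, a3, a4, a5⟩ ⟨b1, b2, b3, b4, b5⟩
    exact hdis b b' p u a1 a2 a3 a4 a5 b3 b4 b5
  let L : ℕ → ℕ → ℕ := fun p u => if h : ∃ b, Q p u b then
    Encodable.encode ((h.choose, lam h.choose p u) : ι × ℕ) else 0
  have hL : ∀ p u b, Q p u b → L p u = Encodable.encode ((b, lam b p u) : ι × ℕ) := by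
    intro p u b hb
    have h : ∃ b, Q p u b := ⟨b, hb⟩
    have e : h.choose = b := hQ p u _ _ h.choose_spec hb
    show (if h : ∃ b, Q p u b then Encodable.encode ((h.choose, lam h.choose p u) : ι × ℕ) else 0) = _
    rw [dif_pos h, e]
  refine ⟨fun p u v => ∃ b, E b p u v, L, ?_, ?_, ?_⟩
  · rintro p u v ⟨b, hE⟩
    obtain ⟨a1, a2, a3, a4, a5, a6, a7, a8, a9⟩ := h1 b p u v hE
    refine ⟨a1, a3, a4, hav b p u a1 (by omega) a2 a5 a7, hav b p v a1 a4 a2 a6 a8, ?_⟩
    rw [hL p u b ⟨a1, by omega, a2, a5, a7⟩, hL p v b ⟨a1, a4, a2, a6, a8⟩, a9]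
  · rintro p u v u' v' ⟨b, hE⟩ ⟨b', hE'⟩ hl k1 k2 k3
    obtain ⟨a1, a2, a3, a4, a5, a6, a7, a8, a9⟩ := h1 b p u v hE
    obtain ⟨c1, c2, c3, c4, c5, c6, c7, c8, c9⟩ := h1 b' p u' v' hE'
    rw [hL p u b ⟨a1, by omega, a2, a5, a7⟩, hL p u' b' ⟨c1, by omega, c2, c5, c7⟩] at hl
    have hl' := Encodable.encode_injective hl
    simp only [Prod.mk.injEq] at hl'
    obtain ⟨l1, l2⟩ := hl'
    subst l1
    exact h2 b p u v u' v' hE hE' l2 k1 k2 k3
  · intro u v huv hv hc
    obtain ⟨b, b1, b2, b3⟩ := hcov u v huv hv hc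
    obtain ⟨p, hp'⟩ := h3 b u v huv hv b1 b2 b3
    exact ⟨p, b, hp'⟩

/-- Filling the holes.  Points `[0, K)`, `c x = 0` for the extra points, `c x = i ≥ 1` for the hole `i`; `A` is the set of
points whose chords stay uncovered: `A` contains only points of the hole `i0` and extra points.  Hypotheses: a frame on the
points with `c x ≠ 0`; for `i ≠ i0` a system on hole `i` + extra points without the chords between the extra points; for
`i0` a system on hole `i0` + extra points without the chords of `A`. -/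
theorem fillA (K : ℕ) (c : ℕ → ℕ) (A : ℕ → Prop) [DecidablePred A] (i0 : ℕ) (hi0 : i0 ≠ 0)
    (hA : ∀ x, x < K → A x → c x = 0 ∨ c x = i0)
    (c' : ℕ → ℕ) (hF : Gr (Nat.count (fun x => c x ≠ 0) K) c')
    (hc' : ∀ x, x < K → c x ≠ 0 → c' (Nat.count (fun x => c x ≠ 0) x) = c x)
    (A' : ℕ → ℕ → Prop) [∀ i, DecidablePred (A' i)]
    (hU : ∀ i, i ≠ 0 → PU (Nat.count (fun x => c x = 0 ∨ c x = i) K) (A' i))
    (hA1 : ∀ i x, i ≠ 0 → i ≠ i0 → x < K → (c x = 0 ∨ c x = i) →
      (A' i (Nat.count (fun x => c x = 0 ∨ c x = i) x) ↔ c x = 0))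
    (hA2 : ∀ x, x < K → (c x = 0 ∨ c x = i0) →
      (A' i0 (Nat.count (fun x => c x = 0 ∨ c x = i0) x) ↔ A x)) :
    PU K A := by
  classical
  -- blocks: `none` = frame, `some j` = hole `j + 1`
  let S : Option ℕ → ℕ → Prop := fun b x => match b with
    | none => c x ≠ 0
    | some j => c x = 0 ∨ c x = j + 1
  let H : ℕ → ℕ → Prop := fun j x => if j + 1 = i0 then A x else c x = 0
  let clb : Option ℕ → ℕ → ℕ := fun b v => match b with
    | none => c (v % K)
    | some j => if H j (v % K) then 3 * K else v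
  let hpb : Option ℕ → ℕ → ℕ := fun b p => match b with
    | none => c p
    | some j => if H j p then 3 * K else 3 * K + 1
  have hH : ∀ j x, x < K → (c x = 0 ∨ c x = j + 1) →
      (A' (j + 1) (Nat.count (fun x => c x = 0 ∨ c x = j + 1) x) ↔ H j x) := by
    intro j x hx hc
    by_cases hj : j + 1 = i0
    · subst hj
      simp only [H, if_true]
      exact hA2 x hx hc
    · simp only [H, if_neg hj]
      exact hA1 (j + 1) x (by omega) hj hx hc
  unfold PU
  refine glueOn K _ _ S clb hpb ?_ ?_ ?_ ?_
  · intro b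
    cases b with
    | none =>
      refine on_of_sys (fun x => c x ≠ 0) hF ?_ ?_
      · intro u p hu hp hSu hSp h
        have hK : 0 < K := by omega
        have hu' := Nat.mod_lt u hK
        have h3 := count_lt_of (S := fun x => c x ≠ 0) hSu hu'
        have e : nu K (fun x => c x ≠ 0) u % Nat.count (fun x => c x ≠ 0) K = Nat.count (fun x => c x ≠ 0) (u % K) := by
          unfold nu
          rw [Nat.add_comm, Nat.add_mul_mod_self_right, Nat.mod_eq_of_lt h3]
        simp only [e] at h
        rw [hc' _ hu' hSu, hc' _ hp hSp] at h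
        exact h
      · intro u v huv hv hSu hSv h
        have hK : 0 < K := by omega
        have hu' := Nat.mod_lt u hK
        have hv' := Nat.mod_lt v hK
        have e : ∀ w, c (w % K) ≠ 0 →
            nu K (fun x => c x ≠ 0) w % Nat.count (fun x => c x ≠ 0) K = Nat.count (fun x => c x ≠ 0) (w % K) := by
          intro w hw
          have h3 := count_lt_of (S := fun x => c x ≠ 0) hw (Nat.mod_lt w hK)
          unfold nu
          rw [Nat.add_comm, Nat.add_mul_mod_self_right, Nat.mod_eq_of_lt h3]
        simp only [e u hSu, e v hSv]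
        rw [hc' _ hu' hSu, hc' _ hv' hSv]
        exact h
    | some j =>
      refine on_of_sys (fun x => c x = 0 ∨ c x = j + 1) (hU (j + 1) (by omega)) ?_ ?_
      · intro u p hu hp hSu hSp h
        have hK : 0 < K := by omega
        have hu' := Nat.mod_lt u hK
        have h3 := count_lt_of (S := fun x => c x = 0 ∨ c x = j + 1) hSu hu'
        have e : nu K (fun x => c x = 0 ∨ c x = j + 1) u % Nat.count (fun x => c x = 0 ∨ c x = j + 1) K =
            Nat.count (fun x => c x = 0 ∨ c x = j + 1) (u % K) := by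
          unfold nu
          rw [Nat.add_comm, Nat.add_mul_mod_self_right, Nat.mod_eq_of_lt h3]
        have h6 := nu_lt3 (S := fun x => c x = 0 ∨ c x = j + 1) hSu hu
        simp only [e] at h
        rw [if_congr (hH j _ hu' hSu) rfl rfl, if_congr (hH j _ hp hSp) rfl rfl] at h
        show (if H j (u % K) then 3 * K else u) ≠ (if H j p then 3 * K else 3 * K + 1)
        split_ifs at h ⊢ <;> omega
      · intro u v huv hv hSu hSv h
        have hK : 0 < K := by omega
        have hu' := Nat.mod_lt u hK
        have hv' := Nat.mod_lt v hK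
        have e : ∀ w, (c (w % K) = 0 ∨ c (w % K) = j + 1) →
            nu K (fun x => c x = 0 ∨ c x = j + 1) w % Nat.count (fun x => c x = 0 ∨ c x = j + 1) K =
            Nat.count (fun x => c x = 0 ∨ c x = j + 1) (w % K) := by
          intro w hw
          have h3 := count_lt_of (S := fun x => c x = 0 ∨ c x = j + 1) hw (Nat.mod_lt w hK)
          unfold nu
          rw [Nat.add_comm, Nat.add_mul_mod_self_right, Nat.mod_eq_of_lt h3]
        have h6 := nu_lt3 (S := fun x => c x = 0 ∨ c x = j + 1) hSv hv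
        have h7 := nu_lt (S := fun x => c x = 0 ∨ c x = j + 1) hK hSu huv
        change (if H j (u % K) then 3 * K else u) ≠ (if H j (v % K) then 3 * K else v) at h
        simp only [e u hSu, e v hSv]
        rw [if_congr (hH j _ hu' hSu) rfl rfl, if_congr (hH j _ hv' hSv) rfl rfl]
        split_ifs at h ⊢ <;> omega
  · intro b p u hp hu hSp hSu h
    cases b with
    | none =>
      change c p ≠ 0 at hSp
      change c (u % K) ≠ 0 at hSu
      change c (u % K) ≠ c p at h
      have hK : 0 < K := by omega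
      have hu' := Nat.mod_lt u hK
      show (if A (u % K) then 3 * K else u) ≠ (if A p then 3 * K else 3 * K + 1)
      have f1 := hA (u % K) hu'
      have f2 := hA p hp
      split_ifs with g1 g2
      · have := f1 g1
        have := f2 g2
        omega
      · omega
      · omega
      · omega
    | some j =>
      change c p = 0 ∨ c p = j + 1 at hSp
      change c (u % K) = 0 ∨ c (u % K) = j + 1 at hSu
      change (if H j (u % K) then 3 * K else u) ≠ (if H j p then 3 * K else 3 * K + 1) at h
      have hK : 0 < K := by omega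
      have hu' := Nat.mod_lt u hK
      show (if A (u % K) then 3 * K else u) ≠ (if A p then 3 * K else 3 * K + 1)
      have f1 := hA (u % K) hu'
      have f2 := hA p hp
      by_cases hj : j + 1 = i0
      · simp only [H, if_pos hj] at h
        exact h
      · simp only [H, if_neg hj] at h
        split_ifs with g1 g2
        · have y1 := f1 g1
          have y2 := f2 g2
          have z1 : c (u % K) = 0 := by omega
          have z2 : c p = 0 := by omega
          rw [if_pos z1, if_pos z2] at h
          exact absurd rfl h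
        · omega
        · omega
        · omega
  · intro b b' p u hp hu hSp hSu h hSp' hSu' h'
    have hK : 0 < K := by omega
    have hu' := Nat.mod_lt u hK
    have f1 := hA (u % K) hu'
    have f2 := hA p hp
    cases b with
    | none =>
      cases b' with
      | none => rfl
      | some j =>
        exfalso
        change c p ≠ 0 at hSp
        change c (u % K) ≠ 0 at hSu
        change c (u % K) ≠ c p at h
        change c p = 0 ∨ c p = j + 1 at hSp'
        change c (u % K) = 0 ∨ c (u % K) = j + 1 at hSu'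
        omega
    | some j =>
      cases b' with
      | none =>
        exfalso
        change c p ≠ 0 at hSp'
        change c (u % K) ≠ 0 at hSu'
        change c (u % K) ≠ c p at h'
        change c p = 0 ∨ c p = j + 1 at hSp
        change c (u % K) = 0 ∨ c (u % K) = j + 1 at hSu
        omega
      | some j' =>
        change c p = 0 ∨ c p = j + 1 at hSp
        change c (u % K) = 0 ∨ c (u % K) = j + 1 at hSu
        change (if H j (u % K) then 3 * K else u) ≠ (if H j p then 3 * K else 3 * K + 1) at h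
        change c p = 0 ∨ c p = j' + 1 at hSp'
        change c (u % K) = 0 ∨ c (u % K) = j' + 1 at hSu'
        change (if H j' (u % K) then 3 * K else u) ≠ (if H j' p then 3 * K else 3 * K + 1) at h'
        by_contra hne
        have hne' : j ≠ j' := fun h => hne (by rw [h])
        have z1 : c p = 0 := by omega
        have z2 : c (u % K) = 0 := by omega
        by_cases hj : j + 1 = i0
        · have hj' : ¬ (j' + 1 = i0) := by omega
          simp only [H, if_neg hj'] at h'
          rw [if_pos z2, if_pos z1] at h'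
          exact h' rfl
        · simp only [H, if_neg hj] at h
          rw [if_pos z2, if_pos z1] at h
          exact h rfl
  · intro u v huv hv h
    have hK : 0 < K := by omega
    have hu' := Nat.mod_lt u hK
    have hv' := Nat.mod_lt v hK
    have f1 := hA (u % K) hu'
    have f2 := hA (v % K) hv'
    change (if A (u % K) then 3 * K else u) ≠ (if A (v % K) then 3 * K else v) at h
    by_cases h0 : c (u % K) = 0
    · by_cases h1 : c (v % K) = 0
      · -- both extra: block `i0`
        obtain ⟨j, hj⟩ : ∃ j, i0 = j + 1 := ⟨i0 - 1, by omega⟩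
        refine ⟨some j, Or.inl h0, Or.inl h1, ?_⟩
        show (if H j (u % K) then 3 * K else u) ≠ (if H j (v % K) then 3 * K else v)
        simp only [H, if_pos hj.symm]
        exact h
      · obtain ⟨j, hj⟩ : ∃ j, c (v % K) = j + 1 := ⟨c (v % K) - 1, by omega⟩
        refine ⟨some j, Or.inl h0, Or.inr hj, ?_⟩
        show (if H j (u % K) then 3 * K else u) ≠ (if H j (v % K) then 3 * K else v)
        by_cases hj' : j + 1 = i0
        · simp only [H, if_pos hj']
          exact h
        · simp only [H, if_neg hj']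
          rw [if_pos h0, if_neg h1]
          omega
    · by_cases h1 : c (v % K) = 0
      · obtain ⟨j, hj⟩ : ∃ j, c (u % K) = j + 1 := ⟨c (u % K) - 1, by omega⟩
        refine ⟨some j, Or.inr hj, Or.inl h1, ?_⟩
        show (if H j (u % K) then 3 * K else u) ≠ (if H j (v % K) then 3 * K else v)
        by_cases hj' : j + 1 = i0
        · simp only [H, if_pos hj']
          exact h
        · simp only [H, if_neg hj']
          rw [if_pos h1, if_neg h0]
          omega
      · by_cases h2 : c (u % K) = c (v % K)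
        · obtain ⟨j, hj⟩ : ∃ j, c (u % K) = j + 1 := ⟨c (u % K) - 1, by omega⟩
          refine ⟨some j, Or.inr hj, Or.inr (h2 ▸ hj), ?_⟩
          show (if H j (u % K) then 3 * K else u) ≠ (if H j (v % K) then 3 * K else v)
          by_cases hj' : j + 1 = i0
          · simp only [H, if_pos hj']
            exact h
          · simp only [H, if_neg hj']
            rw [if_neg h1, if_neg h0]
            omega
        · exact ⟨none, h0, h1, h2⟩

end Pool.Agent.Lib.MP_a966e6_co.PNU
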