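import Pool.Agent.Lib.MP_a966e6_co.PNU.Fill

/-! Filling the holes without an extra point (`fill0`) and with one extra point (`fill1`). -/

set_option autoImplicit false

namespace Pool.Agent.Lib.MP_a966e6_co.PNU

theorem count_congr' {p q : ℕ → Prop} [DecidablePred p] [DecidablePred q] (n : ℕ) (h : ∀ x, x < n → (p x ↔ q x)) :
    Nat.count p n = Nat.count q n := by
  induction n with
  | zero => simp
  | succ n ih =>
    rw [Nat.count_succ, Nat.count_succ, ih (fun x hx => h x (by omega))]
    have := h n (by omega)
    by_cases hp : p n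
    · rw [if_pos hp, if_pos (this.1 hp)]
    · rw [if_neg hp, if_neg (fun hq => hp (this.2 hq))]

theorem U_zero : U 0 := by
  refine ⟨fun _ _ _ => False, fun _ _ => 0, ?_, ?_, ?_⟩
  · intro p u v h
    exact h.elim
  · intro p u v u' v' h
    exact h.elim
  · intro u v _ hv
    omega

theorem UT_one : UT 1 := by
  refine ⟨fun _ _ _ => False, fun _ _ => 0, ?_, ?_, ?_⟩
  · intro p u v h
    exact h.elim
  · intro p u v u' v' h
    exact h.elim
  · intro u v _ hv h
    simp [Nat.mod_one] at h

theorem U_one : U 1 := by
  refine ⟨fun p u v => p = 0 ∧ u < v ∧ v < 3, fun _ _ => 0, ?_, ?_, ?_⟩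
  · rintro p u v ⟨rfl, h1, h2⟩
    refine ⟨by omega, h1, by omega, ?_, ?_, rfl⟩
    · show u ≠ 3 * 1
      omega
    · show v ≠ 3 * 1
      omega
  · rintro p u v u' v' ⟨_, h1, h2⟩ ⟨_, h3, h4⟩ _ h5 h6 h7
    omega
  · intro u v huv hv _
    exact ⟨0, rfl, huv, by omega⟩

theorem PU_of_U {k : ℕ} (A : ℕ → Prop) [DecidablePred A] (hA : ∀ x, x < k → ¬ A x) (h : U k) : PU k A := by
  refine Sys.congr h ?_ ?_
  · intro u p hu hp _
    have hk : 0 < k := by omega
    have h1 := hA (u % k) (Nat.mod_lt u hk)
    have h2 := hA p hp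
    show (if A (u % k) then 3 * k else u) ≠ (if A p then 3 * k else 3 * k + 1)
    rw [if_neg h1, if_neg h2]
    omega
  · intro u v huv hv _
    show u ≠ v
    omega

theorem U_of_PU {k : ℕ} (A : ℕ → Prop) [DecidablePred A] (hA : ∀ x, x < k → ¬ A x) (h : PU k A) : U k := by
  refine Sys.congr h ?_ ?_
  · intro u p hu hp _
    show u ≠ 3 * k
    omega
  · intro u v huv hv _
    have hk : 0 < k := by omega
    have h1 := hA (u % k) (Nat.mod_lt u hk)
    have h2 := hA (v % k) (Nat.mod_lt v hk)
    show (if A (u % k) then 3 * k else u) ≠ (if A (v % k) then 3 * k else v)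
    rw [if_neg h1, if_neg h2]
    omega

/-- Filling the holes, no extra point. -/
theorem fill0 (k : ℕ) (c : ℕ → ℕ) (hF : Gr k c) (hU : ∀ i, U (Nat.count (fun x => c x = i) k)) : U k := by
  have e0 : ∀ n, Nat.count (fun x => c x + 1 ≠ 0) n = n := by
    intro n
    rw [Nat.count_iff_forall]
    intro x _
    omega
  have e1 : ∀ i n, Nat.count (fun x => c x + 1 = 0 ∨ c x + 1 = i + 1) n = Nat.count (fun x => c x = i) n := by
    intro i n
    apply count_congr'
    intro x _
    omega
  refine U_of_PU (fun _ => False) (fun _ _ => id) ?_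
  refine fillA k (fun x => c x + 1) (fun _ => False) 1 (by omega) (fun x _ h => h.elim) (fun x => c x + 1) ?_ ?_
    (fun _ _ => False) ?_ ?_ ?_
  · rw [e0]
    refine Sys.congr hF ?_ ?_
    · intro u p _ _ h
      show c (u % k) + 1 ≠ c p + 1
      omega
    · intro u v _ _ h
      change c (u % k) + 1 ≠ c (v % k) + 1 at h
      show c (u % k) ≠ c (v % k)
      omega
  · intro x _ _
    rw [e0]
  · intro i hi
    obtain ⟨j, rfl⟩ : ∃ j, i = j + 1 := ⟨i - 1, by omega⟩
    rw [e1]
    exact PU_of_U _ (fun _ _ => id) (hU j)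
  · intro i x _ _ _ _
    have h1 : c x + 1 ≠ 0 := by omega
    exact ⟨fun h => h.elim, fun h => h1 h⟩
  · intro x _ _
    exact Iff.rfl

/-- Filling the holes, one extra point (the last one). -/
theorem fill1 (k : ℕ) (c : ℕ → ℕ) (hF : Gr k c) (hU : ∀ i, UT (Nat.count (fun x => c x = i) k + 1)) : UT (k + 1) := by
  let d : ℕ → ℕ := fun x => if x < k then c x + 1 else 0
  have d1 : ∀ x, x < k → d x = c x + 1 := fun x hx => if_pos hx
  have d2 : ∀ x, ¬ x < k → d x = 0 := fun x hx => if_neg hx
  have e0 : ∀ n, n ≤ k → Nat.count (fun x => d x ≠ 0) n = n := by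
    intro n hn
    rw [Nat.count_iff_forall]
    intro x hx
    rw [d1 x (by omega)]
    omega
  have e0' : Nat.count (fun x => d x ≠ 0) (k + 1) = k := by
    rw [Nat.count_succ, e0 k le_rfl, d2 k (by omega)]
    simp
  have e1 : ∀ i n, n ≤ k → Nat.count (fun x => d x = 0 ∨ d x = i + 1) n = Nat.count (fun x => c x = i) n := by
    intro i n hn
    apply count_congr'
    intro x hx
    rw [d1 x (by omega)]
    omega
  have e1' : ∀ i, Nat.count (fun x => d x = 0 ∨ d x = i + 1) (k + 1) = Nat.count (fun x => c x = i) k + 1 := by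
    intro i
    rw [Nat.count_succ, e1 i k le_rfl, d2 k (by omega)]
    simp
  have key : PU (k + 1) (fun x => x = k) := by
    refine fillA (k + 1) d (fun x => x = k) 1 (by omega) ?_ (fun x => c x + 1) ?_ ?_
      (fun i w => w + 1 = Nat.count (fun x => c x + 1 = i) k + 1) ?_ ?_ ?_
    · intro x _ hx
      left
      exact d2 x (by omega)
    · rw [e0']
      refine Sys.congr hF ?_ ?_
      · intro u p _ _ h
        show c (u % k) + 1 ≠ c p + 1
        omega
      · intro u v _ _ h
        change c (u % k) + 1 ≠ c (v % k) + 1 at h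
        show c (u % k) ≠ c (v % k)
        omega
    · intro x hx hd
      have hx' : x < k := by
        by_contra hcon
        exact hd (d2 x hcon)
      show c (Nat.count (fun x => d x ≠ 0) x) + 1 = d x
      rw [e0 x (by omega), d1 x hx']
    · intro i hi
      obtain ⟨j, rfl⟩ : ∃ j, i = j + 1 := ⟨i - 1, by omega⟩
      rw [e1' j]
      have e2 : Nat.count (fun x => c x + 1 = j + 1) k = Nat.count (fun x => c x = j) k := by
        apply count_congr'
        intro x _
        omega
      have h := hU j
      unfold UT at h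
      unfold PU
      refine Sys.congr h ?_ ?_
      · intro u p hu hp hh
        simp only [Nat.add_sub_cancel] at hh
        simp only [Nat.add_right_cancel_iff]
        exact hh
      · intro u v huv hv hh
        simp only [Nat.add_right_cancel_iff] at hh
        simp only [Nat.add_sub_cancel]
        exact hh
    · intro i x hi hi' hx hc
      obtain ⟨j, rfl⟩ : ∃ j, i = j + 1 := ⟨i - 1, by omega⟩
      have e2 : Nat.count (fun x => c x + 1 = j + 1) k = Nat.count (fun x => c x = j) k := by
        apply count_congr'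
        intro x _
        omega
      show Nat.count (fun x => d x = 0 ∨ d x = j + 1) x + 1 = Nat.count (fun x => c x + 1 = j + 1) k + 1 ↔ d x = 0
      rw [e2]
      by_cases hxk : x < k
      · have h3 := count_lt_of (S := fun x => d x = 0 ∨ d x = j + 1) hc hxk
        rw [e1 j k le_rfl] at h3
        rw [d1 x hxk]
        omega
      · have hxk' : x = k := by omega
        subst hxk'
        rw [e1 j _ le_rfl, d2 _ (by omega)]
        simp
    · intro x hx hc
      have e2 : Nat.count (fun x => c x + 1 = 1) k = Nat.count (fun x => c x = 0) k := by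
        apply count_congr'
        intro x _
        omega
      show Nat.count (fun x => d x = 0 ∨ d x = 1) x + 1 = Nat.count (fun x => c x + 1 = 1) k + 1 ↔ x = k
      rw [e2]
      by_cases hxk : x < k
      · have h3 := count_lt_of (S := fun x => d x = 0 ∨ d x = 1) hc hxk
        rw [e1 0 k le_rfl] at h3
        omega
      · have hxk' : x = k := by omega
        subst hxk'
        rw [e1 0 _ le_rfl]
        simp
  unfold UT
  refine Sys.congr key ?_ ?_
  · intro u p hu hp hh
    simp only [Nat.add_sub_cancel]
    exact hh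
  · intro u v huv hv hh
    simp only [Nat.add_sub_cancel] at hh
    exact hh

end Pool.Agent.Lib.MP_a966e6_co.PNU
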