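import Pool.Agent.Lib.MP_a966e6_co.PNU.NegC

/-! Explicit union embeddings of `K_n` for some small `n`, and monotonicity in `n`. -/

set_option autoImplicit false

namespace Pool.Agent.Lib.MP_a966e6_co.PNU.Small

open Pool.Agent.Lib.MP_a966e6_co.PNU

/-- entry of a table -/
def tb (t : List (List ℕ)) (i j : ℕ) : ℕ := (t.getD i []).getD j 0

/-- `c u v` = page of the chord, `l p u` = label of the component -/
def chk (n N : ℕ) (c l : ℕ → ℕ → ℕ) : Bool :=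
  (List.range n).all fun v => (List.range v).all fun u =>
    decide (c u v < N) && (l (c u v) u == l (c u v) v) &&
    (List.range v).all fun a => !(decide (u < a)) ||
      ((List.range n).all fun w => !(decide (v < w)) || !(c u v == c a w) || !(l (c u v) u == l (c u v) a))

theorem chk_sound {n N : ℕ} {c l : ℕ → ℕ → ℕ} (h : chk n N c l = true) :
    Sys n N (fun v => v) (fun _ => n) := by
  simp only [chk, List.all_eq_true, List.mem_range, Bool.and_eq_true, Bool.or_eq_true,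
    decide_eq_true_eq, Bool.not_eq_true', decide_eq_false_iff_not, beq_iff_eq, beq_eq_false_iff_ne,
    ne_eq] at h
  refine ⟨fun p u v => u < v ∧ v < n ∧ c u v = p, l, ?_, ?_, ?_⟩
  · rintro p u v ⟨h1, h2, rfl⟩
    obtain ⟨⟨h3, h4⟩, h5⟩ := h v h2 u h1
    exact ⟨h3, h1, h2, by show u ≠ n; omega, by show v ≠ n; omega, h4⟩
  · rintro p u v u' v' ⟨h1, h2, rfl⟩ ⟨g1, g2, g3⟩ hl h3 h4 h5
    obtain ⟨⟨h6, h7⟩, h8⟩ := h v h2 u h1
    have h9 := h8 u' h4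
    rcases h9 with h9 | h9
    · exact h9 h3
    · rcases h9 v' g2 with (h10 | h10) | h10
      · exact h10 h5
      · exact h10 g3.symm
      · exact h10 hl
  · intro u v h1 h2 _
    exact ⟨c u v, h1, h2, rfl⟩

def col3 : List (List ℕ) := [[0, 0, 0], [0, 0, 0], [0, 0, 0]]

def lab3 : List (List ℕ) := [[0, 0, 0]]

theorem chk3 : chk 3 1 (tb col3) (tb lab3) = true := by decide +kernel

def col4 : List (List ℕ) := [[0, 0, 0, 0], [0, 0, 0, 1], [0, 0, 0, 0], [0, 1, 0, 0]]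

def lab4 : List (List ℕ) := [[0, 0, 0, 0], [0, 0, 0, 0]]

theorem chk4 : chk 4 2 (tb col4) (tb lab4) = true := by decide +kernel

def col6 : List (List ℕ) := [[0, 0, 0, 0, 1, 0], [0, 0, 0, 1, 1, 2], [0, 0, 0, 0, 2, 2], [0, 1, 0, 0, 0, 0], [1, 1, 2, 0, 0, 0], [0, 2, 2, 0, 0, 0]]

def lab6 : List (List ℕ) := [[0, 0, 0, 0, 0, 0], [0, 0, 0, 0, 0, 0], [0, 0, 0, 0, 0, 0]]

theorem chk6 : chk 6 3 (tb col6) (tb lab6) = true := by decide +kernel

def col8 : List (List ℕ) := [[0, 0, 1, 2, 2, 0, 1, 2], [0, 0, 2, 1, 0, 1, 2, 1], [1, 2, 0, 0, 1, 2, 2, 0], [2, 1, 0, 0, 2, 1, 0, 0], [2, 0, 1, 2, 0, 0, 1, 2], [0, 1, 2, 1, 0, 0, 2, 1], [1, 2, 2, 0, 1, 2, 0, 0], [2, 1, 0, 0, 2, 1, 0, 0]]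

def lab8 : List (List ℕ) := [[0, 0, 2, 2, 0, 0, 2, 2], [0, 1, 0, 1, 0, 1, 0, 1], [0, 1, 1, 0, 0, 1, 1, 0]]

theorem chk8 : chk 8 3 (tb col8) (tb lab8) = true := by decide +kernel

def col11 : List (List ℕ) := [[0, 0, 3, 1, 1, 3, 2, 2, 1, 0, 2], [0, 0, 0, 3, 2, 1, 2, 1, 0, 0, 3], [3, 0, 0, 0, 2, 3, 1, 0, 0, 1, 1], [1, 3, 0, 0, 1, 2, 3, 0, 3, 2, 3], [1, 2, 2, 1, 0, 0, 2, 3, 1, 3, 0], [3, 1, 3, 2, 0, 0, 0, 1, 2, 2, 0], [2, 2, 1, 3, 2, 0, 0, 2, 3, 1, 0], [2, 1, 0, 0, 3, 1, 2, 0, 0, 3, 2], [1, 0, 0, 3, 1, 2, 3, 0, 0, 0, 3], [0, 0, 1, 2, 3, 2, 1, 3, 0, 0, 1], [2, 3, 1, 3, 0, 0, 0, 2, 3, 1, 0]]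

def lab11 : List (List ℕ) := [[0, 0, 0, 0, 4, 4, 4, 0, 0, 0, 4], [0, 1, 2, 0, 0, 1, 2, 1, 0, 2, 2], [0, 0, 0, 3, 0, 3, 0, 0, 3, 3, 0], [0, 1, 0, 1, 4, 0, 1, 4, 1, 4, 1]]

theorem chk11 : chk 11 4 (tb col11) (tb lab11) = true := by decide +kernel

def col14 : List (List ℕ) := [[0, 4, 1, 0, 3, 2, 3, 2, 4, 0, 3, 0, 2, 3], [4, 0, 4, 2, 0, 0, 2, 3, 4, 3, 1, 2, 3, 0], [1, 4, 0, 3, 2, 1, 4, 4, 4, 2, 0, 3, 1, 2], [0, 2, 3, 0, 4, 3, 2, 0, 1, 0, 1, 3, 4, 4], [3, 0, 2, 4, 0, 0, 3, 1, 2, 2, 4, 4, 4, 1], [2, 0, 1, 3, 0, 0, 0, 2, 3, 4, 4, 3, 1, 0], [3, 2, 4, 2, 3, 0, 0, 4, 0, 1, 3, 2, 1, 0], [2, 3, 4, 0, 1, 2, 4, 0, 4, 3, 2, 1, 2, 1], [4, 4, 4, 1, 2, 3, 0, 4, 0, 2, 1, 3, 0, 0], [0, 3, 2, 0, 2, 4, 1, 3, 2, 0, 4, 0, 1, 2], [3, 1, 0, 1, 4, 4, 3, 2, 1, 4, 0, 4, 2, 3], [0, 2, 3, 3, 4, 3, 2, 1, 3, 0, 4, 0, 4, 1], [2, 3, 1, 4, 4, 1, 1, 2, 0, 1, 2, 4, 0, 0], [3, 0, 2, 4, 1, 0, 0, 1, 0, 2, 3, 1, 0, 0]]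

def lab14 : List (List ℕ) := [[0, 1, 2, 0, 1, 1, 1, 0, 1, 0, 2, 0, 1, 1], [0, 1, 0, 1, 4, 0, 0, 4, 1, 0, 1, 4, 0, 4], [0, 1, 2, 1, 2, 0, 1, 0, 2, 2, 0, 1, 0, 2], [0, 1, 2, 2, 0, 2, 0, 1, 2, 1, 0, 2, 1, 0], [0, 0, 0, 3, 3, 3, 0, 0, 0, 3, 3, 3, 3, 3]]

theorem chk14 : chk 14 5 (tb col14) (tb lab14) = true := by decide +kernel


/-- a system of `N` pages on `M ≥ n` vertices gives a union embedding of `K_n` with `N` pages -/
theorem unionPN_le_of_sys (n M N : ℕ) (hn : n ≤ M) (h : Sys M N (fun v => v) (fun _ => M)) :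
    unionPageNumber (⊤ : SimpleGraph (Fin n)) ≤ N := by
  classical
  refine Nat.sInf_le ?_
  obtain ⟨E, lam, h1, h2, h3⟩ := h
  have h3' : ∀ e : Sym2 (Fin n), e ∈ (⊤ : SimpleGraph (Fin n)).edgeSet →
      ∃ i, i < N ∧ ∀ u v : Fin n, e = s(u, v) → u < v → E i u v := by
    intro e he
    induction e using Sym2.ind with
    | _ a b =>
      rw [SimpleGraph.mem_edgeSet, SimpleGraph.top_adj] at he
      rcases lt_or_gt_of_ne he with hab | hab
      · obtain ⟨i, hi⟩ := h3 a b hab (by have := b.2; omega) (by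
          have := Fin.lt_def.1 hab
          exact Nat.ne_of_lt this)
        refine ⟨i, (h1 _ _ _ hi).1, ?_⟩
        intro u v huv hlt
        rw [Sym2.eq_iff] at huv
        rcases huv with ⟨rfl, rfl⟩ | ⟨rfl, rfl⟩
        · exact hi
        · exact absurd hlt (not_lt.2 hab.le)
      · obtain ⟨i, hi⟩ := h3 b a hab (by have := a.2; omega) (by
          have := Fin.lt_def.1 hab
          exact Nat.ne_of_lt this)
        refine ⟨i, (h1 _ _ _ hi).1, ?_⟩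
        intro u v huv hlt
        rw [Sym2.eq_iff] at huv
        rcases huv with ⟨rfl, rfl⟩ | ⟨rfl, rfl⟩
        · exact absurd hlt (not_lt.2 hab.le)
        · exact hi
  choose! pg hpk hpg using h3'
  refine ⟨fun v => v, pg, ⟨Fin.val_injective, ?_⟩, hpk⟩
  intro p u v x y huv hxy hreach hcr
  have hpage : ∀ a b : Fin n, (pageGraph (⊤ : SimpleGraph (Fin n)) pg p).Adj a b →
      a < b → E p a b := by
    intro a b hab hlt
    rw [pageGraph_adj] at hab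
    have h4 := hpg s(a, b) ((SimpleGraph.mem_edgeSet _).2 hab.1) a b rfl hlt
    rw [hab.2] at h4
    exact h4
  have hadj : ∀ a b : Fin n, (pageGraph (⊤ : SimpleGraph (Fin n)) pg p).Adj a b →
      lam p a = lam p b := by
    intro a b hab
    rcases lt_or_gt_of_ne hab.ne with hlt | hlt
    · exact (h1 _ _ _ (hpage a b hab hlt)).2.2.2.2.2
    · exact (h1 _ _ _ (hpage b a hab.symm hlt)).2.2.2.2.2.symm
  have hre : ∀ a b : Fin n, (pageGraph (⊤ : SimpleGraph (Fin n)) pg p).Reachable a b →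
      lam p a = lam p b := by
    intro a b hab
    obtain ⟨W⟩ := hab
    induction W with
    | nil => rfl
    | cons h _ ih => exact (hadj _ _ h).trans ih
  have hux := hre u x hreach
  have huv' := hadj u v huv
  have hxy' := hadj x y hxy
  obtain ⟨u', v', x', y', e1, e2, hcr⟩ := hcr
  have hlu : lam p u' = lam p u ∧ (pageGraph (⊤ : SimpleGraph (Fin n)) pg p).Adj u' v' := by
    rw [Sym2.eq_iff] at e1
    rcases e1 with ⟨rfl, rfl⟩ | ⟨rfl, rfl⟩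
    · exact ⟨rfl, huv⟩
    · exact ⟨huv'.symm, huv.symm⟩
  have hlx : lam p x' = lam p x ∧ (pageGraph (⊤ : SimpleGraph (Fin n)) pg p).Adj x' y' := by
    rw [Sym2.eq_iff] at e2
    rcases e2 with ⟨rfl, rfl⟩ | ⟨rfl, rfl⟩
    · exact ⟨rfl, hxy⟩
    · exact ⟨hxy'.symm, hxy.symm⟩
  rcases hcr with ⟨c1, c2, c3⟩ | ⟨c1, c2, c3⟩
  · refine h2 p u' v' x' y' (hpage _ _ hlu.2 ?_) (hpage _ _ hlx.2 ?_) ?_ c1 c2 c3
    · exact Fin.lt_def.2 (c1.trans c2)
    · exact Fin.lt_def.2 (c2.trans c3)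
    · rw [hlu.1, hlx.1, hux]
  · refine h2 p x' y' u' v' (hpage _ _ hlx.2 ?_) (hpage _ _ hlu.2 ?_) ?_ c1 c2 c3
    · exact Fin.lt_def.2 (c1.trans c2)
    · exact Fin.lt_def.2 (c2.trans c3)
    · rw [hlu.1, hlx.1, hux]

/-- the values for `2 ≤ n ≤ 15` from the three colouring theorems and `U 6` -/
theorem small (h3 : ¬ ∃ c, TCol 3 c) (h4 : ¬ ∃ c, TCol 4 c) (h5 : ¬ ∃ c, TCol 5 c) (h6 : U 6)
    (n : ℕ) (hn : 2 ≤ n) (hn' : n ≤ 15) :
    unionPageNumber (⊤ : SimpleGraph (Fin n)) =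
      (n + 2) / 3 + (if n = 5 ∨ n = 6 ∨ n = 9 ∨ n = 12 ∨ n = 15 then 1 else 0) := by
  have hlow := le_unionPN n hn
  have s3 := unionPN_le_of_sys n 3 1
  have s4 := unionPN_le_of_sys n 4 2
  have s8 := unionPN_le_of_sys n 8 3
  have s11 := unionPN_le_of_sys n 11 4
  have s14 := unionPN_le_of_sys n 14 5
  have s18 := unionPN_le_of_sys n 18 6
  have a3 := fun hh => s3 hh (chk_sound chk3)
  have a4 := fun hh => s4 hh (chk_sound chk4)
  have a8 := fun hh => s8 hh (chk_sound chk8)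
  have a11 := fun hh => s11 hh (chk_sound chk11)
  have a14 := fun hh => s14 hh (chk_sound chk14)
  have a18 := fun hh => s18 hh h6
  rcases Nat.lt_or_ge n 4 with h | h
  · have := a3 (by omega)
    rw [if_neg (by omega)]
    omega
  rcases Nat.lt_or_ge n 5 with h' | h'
  · have := a4 (by omega)
    rw [if_neg (by omega)]
    omega
  by_cases e5 : n = 5
  · subst e5
    have := Neg.five
    have := a8 (by omega)
    rw [if_pos (by omega)]
    omega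
  by_cases e6 : n = 6
  · subst e6
    have := Neg.six
    have := a8 (by omega)
    rw [if_pos (by omega)]
    omega
  rcases Nat.lt_or_ge n 9 with h7 | h7
  · have := a8 (by omega)
    rw [if_neg (by omega)]
    omega
  by_cases e9 : n = 9
  · subst e9
    have := Neg.lt_unionPN 3 (by norm_num) h3
    have := a11 (by omega)
    rw [if_pos (by omega)]
    omega
  rcases Nat.lt_or_ge n 12 with h8 | h8
  · have := a11 (by omega)
    rw [if_neg (by omega)]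
    omega
  by_cases e12 : n = 12
  · subst e12
    have := Neg.lt_unionPN 4 (by norm_num) h4
    have := a14 (by omega)
    rw [if_pos (by omega)]
    omega
  rcases Nat.lt_or_ge n 15 with h9 | h9
  · have := a14 (by omega)
    rw [if_neg (by omega)]
    omega
  have e15 : n = 15 := by omega
  subst e15
  have := Neg.lt_unionPN 5 (by norm_num) h5
  have := a18 (by omega)
  rw [if_pos (by omega)]
  omega

end Pool.Agent.Lib.MP_a966e6_co.PNU.Small
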