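import Pool.Agent.Lib.MP_a966e6_co.PNU.Compose
import Pool.Agent.Lib.MP_a966e6_co.PNU.Small

/-! The local and the union page number of `K_n` from the base list and the three negative cases. -/

set_option autoImplicit false

namespace Pool.Agent.Lib.MP_a966e6_co.PNU

theorem union_all (f6 : FrC 2 6) (f7 : FrC 2 7) (f8 : FrC 2 8)
    (baseU : ∀ k, 6 ≤ k → k ≤ 88 → k % 2 = 0 → k ≠ 84 → U k)
    (baseT : ∀ k, 7 ≤ k → k ≤ 89 → k % 2 = 1 → k ≠ 85 → UT k)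
    (h3 : ¬ ∃ c, TCol 3 c) (h4 : ¬ ∃ c, TCol 4 c) (h5 : ¬ ∃ c, TCol 5 c) (n : ℕ) (hn : 2 ≤ n) :
    unionPageNumber (⊤ : SimpleGraph (Fin n)) =
      (n + 2) / 3 + (if n = 5 ∨ n = 6 ∨ n = 9 ∨ n = 12 ∨ n = 15 then 1 else 0) := by
  have hU := all_U f6 f7 f8 baseU baseT
  by_cases h : n ≤ 15
  · exact Small.small h3 h4 h5 (hU 6 le_rfl) n hn h
  · rw [if_neg (by omega), add_zero]
    exact unionPN_eq n hn (hU ((n + 2) / 3) (by omega))

end Pool.Agent.Lib.MP_a966e6_co.PNU
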