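import Pool.Agent.Lib.MP_a966e6_co.PNU.Compose4
import Pool.Agent.Lib.MP_a966e6_co.PNU.Arith4
import Pool.Agent.Lib.MP_a966e6_co.PNU.BaseT4
import Pool.Agent.Lib.MP_a966e6_co.PNU.BaseU
import Pool.Agent.Lib.MP_a966e6_co.PNU.BaseF
import Pool.Agent.Lib.MP_a966e6_co.PNU.Small
import Pool.Agent.Lib.MP_a966e6_co.PNU.Neg.Small34
import Pool.Agent.Lib.MP_a966e6_co.PNU.Neg5.Five

/-! The union page number of `K_n`, when for `k ∈ baseM` only `U k` is known. -/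

set_option autoImplicit false

namespace Pool.Agent.Lib.MP_a966e6_co.PNU

/-- All odd `2 s + 1 ≥ 7` which are not in `M`. -/
theorem odd_T4 (M : List ℕ) (f6 : FrC 2 6) (f7 : FrC 2 7) (f8 : FrC 2 8) (f9 : FrC 2 9) (f10 : FrC 2 10)
    (baseT : ∀ k, 7 ≤ k → k ≤ 89 → k % 2 = 1 → k ≠ 85 → k ∉ M → UT k)
    (ar : ∀ s, (s = 42 ∨ 45 ≤ s) → ∃ N t1 t2 t3 t4, ((OkN N ∧ t3 = 0 ∧ t4 = 0) ∨ Ok10 N) ∧
      (t1 ≤ N ∧ t2 ≤ N ∧ t3 ≤ N ∧ t4 ≤ N) ∧ (3 ≤ N ∧ 2 * N + 1 ∉ M) ∧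
      (t1 = 0 ∨ (3 ≤ t1 ∧ 2 * t1 + 1 ∉ M)) ∧ (t2 = 0 ∨ (3 ≤ t2 ∧ 2 * t2 + 1 ∉ M)) ∧
      (t3 = 0 ∨ (3 ≤ t3 ∧ 2 * t3 + 1 ∉ M)) ∧ (t4 = 0 ∨ (3 ≤ t4 ∧ 2 * t4 + 1 ∉ M)) ∧
      s = 6 * N + t1 + t2 + t3 + t4) (s : ℕ) (hs : 3 ≤ s) (hsM : 2 * s + 1 ∉ M) : UT (2 * s + 1) := by
  induction s using Nat.strong_induction_on with
  | _ s ih =>
    by_cases h : s = 42 ∨ 45 ≤ s
    · obtain ⟨N, t1, t2, t3, t4, hN, ⟨a1, a2, a3, a4⟩, ⟨b1, b2⟩, c1, c2, c3, c4, e⟩ := ar s h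
      rw [e]
      have go : ∀ t, t ≤ N → (t = 0 ∨ (3 ≤ t ∧ 2 * t + 1 ∉ M)) → (t = 0 ∨ UT (2 * t + 1)) := by
        rintro t ht (h | ⟨h, h'⟩)
        · exact Or.inl h
        · exact Or.inr (ih t (by omega) h h')
      exact tdT4 f6 f7 f8 f9 f10 hN a1 a2 a3 a4 (ih N (by omega) b1 b2) (go t1 a1 c1) (go t2 a2 c2)
        (go t3 a3 c3) (go t4 a4 c4)
    · exact baseT _ (by omega) (by omega) (by omega) (by omega) hsM

/-- All `k ≥ 6` which are not in `B`, when for `k ∈ baseM` only `U k` is known. -/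
theorem all_U4B (B : List ℕ) (hB : ∀ k ∈ baseM, k ∉ B → U k) (k : ℕ) (hk : 6 ≤ k) (hkB : k ∉ B) : U k := by
  have hE : ∀ s, 3 ≤ s → U (2 * s) := by
    intro s hs
    refine (arith_all U (fun _ => True) baseU (fun _ _ _ _ _ => trivial) ?_ (fun _ _ _ _ _ _ _ _ _ => trivial) s hs).1
    intro N t1 t2 hN h1 h2 hU hU1 hU2
    exact tdU f6 f7 f8 (TD_ok N hN) h1 h2 hU hU1 hU2
  rcases Nat.mod_two_eq_zero_or_one k with h | h
  · have := hE (k / 2) (by omega)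
    rw [show 2 * (k / 2) = k by omega] at this
    exact this
  · by_cases hkM : k ∈ baseM
    · exact hB k hkM hkB
    · have := odd_T4 baseM f6 f7 f8 f9 f10 baseT4
        (fun s hs => arith4 baseM (by simp [baseM, arM]) s hs) (k / 2) (by omega)
        (by rw [show 2 * (k / 2) + 1 = k by omega]; exact hkM)
      rw [show 2 * (k / 2) + 1 = k by omega] at this
      exact U_of_UT this

/-- The union page number of `K_n` for `⌈n / 3⌉ ∉ B`, when for `k ∈ baseM` only `U k` is known. -/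
theorem union_all4 (B : List ℕ) (hB : ∀ k ∈ baseM, k ∉ B → U k) (h6 : 6 ∉ B) (n : ℕ) (hn : 2 ≤ n)
    (hnB : (n + 2) / 3 ∉ B) :
    unionPageNumber (⊤ : SimpleGraph (Fin n)) =
      (n + 2) / 3 + (if n = 5 ∨ n = 6 ∨ n = 9 ∨ n = 12 ∨ n = 15 then 1 else 0) := by
  have hU := all_U4B B hB
  by_cases h : n ≤ 15
  · exact Small.small Neg.no_tcol3 Neg.no_tcol4 Neg5.no_tcol5 (hU 6 le_rfl h6) n hn h
  · rw [if_neg (by omega), add_zero]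
    exact unionPN_eq n hn (hU ((n + 2) / 3) (by omega) hnB)

end Pool.Agent.Lib.MP_a966e6_co.PNU
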