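import Mathlib

/-! Systems of pages for union embeddings of complete graphs (project PNU). -/

set_option autoImplicit false

namespace Pool.Agent.Lib.MP_a966e6_co.PNU

/-- `N` pages on the vertices `0, .., n-1` (in this circular order): `E p u v` = the chord `u < v` may be put on page `p`,
`lam p` = label of the component on page `p`, `cl u` = class of the vertex `u` (chords inside a class need not be covered),
`hp p` = the class avoided by page `p`. -/
def Sys (n N : ℕ) (cl hp : ℕ → ℕ) : Prop := ∃ (E : ℕ → ℕ → ℕ → Prop) (lam : ℕ → ℕ → ℕ),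
  (∀ p u v, E p u v → p < N ∧ u < v ∧ v < n ∧ cl u ≠ hp p ∧ cl v ≠ hp p ∧ lam p u = lam p v) ∧
  (∀ p u v u' v', E p u v → E p u' v' → lam p u = lam p u' → u < u' → u' < v → v < v' → False) ∧
  (∀ u v, u < v → v < n → cl u ≠ cl v → ∃ p, E p u v)

/-- all chords of `K_{3k}` on `k` pages -/
def U (k : ℕ) : Prop := Sys (3 * k) k (fun v => v) (fun _ => 3 * k)

/-- frame: the vertex `(x, i)` is `x + k i`; page `x` avoids `T_x = {x, x + k, x + 2k}`; chords inside the `T_x` are not covered -/
def F (k : ℕ) : Prop := Sys (3 * k) k (fun v => v % k) (fun p => p)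

/-- frame with `m` holes of `g` points, coset form: the class of `v` is `v % m` -/
def FrC (g m : ℕ) : Prop := Sys (3 * g * m) (g * m) (fun v => v % m) (fun p => p % m)

/-- frame with `m` holes of `g` points, contiguous form: the class of `v` is `v % (g m) / g` -/
def FrI (g m : ℕ) : Prop := Sys (3 * g * m) (g * m) (fun v => v % (g * m) / g) (fun p => p / g)

end Pool.Agent.Lib.MP_a966e6_co.PNU
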