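import Pool.Agent.Lib.MP_a966e6_co.PNU.Frame

/-! Glueing of systems of pages along blocks. -/

set_option autoImplicit false

namespace Pool.Agent.Lib.MP_a966e6_co.PNU

/-- Glueing: block `b` is a system on the vertices `φ b u` with the pages `ψ b q`; the blocks which share a page use
disjoint sets of vertices on it. -/
theorem glue (n N : ℕ) (cl hp : ℕ → ℕ) {ι : Type} [Encodable ι] (nb Nb : ι → ℕ) (clb hpb : ι → ℕ → ℕ)
    (hS : ∀ b, Sys (nb b) (Nb b) (clb b) (hpb b)) (φ ψ : ι → ℕ → ℕ)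
    (hφ : ∀ b u v, u < v → v < nb b → φ b u < φ b v)
    (hφn : ∀ b u, u < nb b → φ b u < n)
    (hψ : ∀ b q, q < Nb b → ψ b q < N)
    (hav : ∀ b q u, q < Nb b → u < nb b → clb b u ≠ hpb b q → cl (φ b u) ≠ hp (ψ b q))
    (hdis : ∀ b q b' q' u u', q < Nb b → q' < Nb b' → u < nb b → u' < nb b' → clb b u ≠ hpb b q →
      clb b' u' ≠ hpb b' q' → ψ b q = ψ b' q' → φ b u = φ b' u' → b = b' ∧ q = q')
    (hcov : ∀ u v, u < v → v < n → cl u ≠ cl v → ∃ b u' v', u' < v' ∧ v' < nb b ∧ φ b u' = u ∧ φ b v' = v ∧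
      clb b u' ≠ clb b v') : Sys n N cl hp := by
  classical
  choose E lam h1 h2 h3 using hS
  have hinj : ∀ b u v, u < nb b → v < nb b → φ b u = φ b v → u = v := by
    intro b u v hu hv h
    rcases lt_trichotomy u v with h' | h' | h'
    · have := hφ b u v h' hv
      omega
    · exact h'
    · have := hφ b v u h' hu
      omega
  -- the label of `w` on page `p`
  let Q : ℕ → ℕ → ι × ℕ × ℕ → Prop := fun p w t => t.2.1 < Nb t.1 ∧ t.2.2 < nb t.1 ∧ clb t.1 t.2.2 ≠ hpb t.1 t.2.1 ∧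
    ψ t.1 t.2.1 = p ∧ φ t.1 t.2.2 = w
  have hQ : ∀ p w t t', Q p w t → Q p w t' → t = t' := by
    intro p w t t' ⟨a1, a2, a3, a4, a5⟩ ⟨b1, b2, b3, b4, b5⟩
    obtain ⟨e1, e2⟩ := hdis t.1 t.2.1 t'.1 t'.2.1 t.2.2 t'.2.2 a1 b1 a2 b2 a3 b3 (by rw [a4, b4]) (by rw [a5, b5])
    obtain ⟨b, q, u⟩ := t
    obtain ⟨b', q', u'⟩ := t'
    simp only at e1 e2 a2 a5 b2 b5
    subst e1
    subst e2
    have := hinj b u u' a2 b2 (by rw [a5, b5])
    rw [this]
  let L : ℕ → ℕ → ℕ := fun p w => if h : ∃ t, Q p w t then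
    Encodable.encode ((h.choose.1, h.choose.2.1, lam h.choose.1 h.choose.2.1 h.choose.2.2) : ι × ℕ × ℕ) else 0
  have hL : ∀ p w t, Q p w t → L p w = Encodable.encode ((t.1, t.2.1, lam t.1 t.2.1 t.2.2) : ι × ℕ × ℕ) := by
    intro p w t ht
    have h : ∃ t, Q p w t := ⟨t, ht⟩
    have e : h.choose = t := hQ p w _ _ h.choose_spec ht
    show (if h : ∃ t, Q p w t then
      Encodable.encode ((h.choose.1, h.choose.2.1, lam h.choose.1 h.choose.2.1 h.choose.2.2) : ι × ℕ × ℕ) else 0) = _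
    rw [dif_pos h, e]
  refine ⟨fun p u v => ∃ b q u' v', ψ b q = p ∧ φ b u' = u ∧ φ b v' = v ∧ E b q u' v', L, ?_, ?_, ?_⟩
  · rintro p u v ⟨b, q, u', v', rfl, rfl, rfl, hE⟩
    obtain ⟨a1, a2, a3, a4, a5, a6⟩ := h1 b q u' v' hE
    refine ⟨hψ b q a1, hφ b _ _ a2 a3, hφn b _ a3, hav b q u' a1 (by omega) a4, hav b q v' a1 a3 a5, ?_⟩
    rw [hL _ _ (b, q, u') ⟨a1, by simp only; omega, a4, rfl, rfl⟩, hL _ _ (b, q, v') ⟨a1, a3, a5, rfl, rfl⟩]
    simp only [a6]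
  · rintro p u v w z ⟨b, q, u', v', e1, e2, e3, hE⟩ ⟨b', q', w', z', g1, g2, g3, hG⟩ hl k1 k2 k3
    obtain ⟨a1, a2, a3, a4, a5, a6⟩ := h1 b q u' v' hE
    obtain ⟨c1, c2, c3, c4, c5, c6⟩ := h1 b' q' w' z' hG
    rw [hL _ _ (b, q, u') ⟨a1, by simp only; omega, a4, e1, e2⟩,
      hL _ _ (b', q', w') ⟨c1, by simp only; omega, c4, g1, g2⟩] at hl
    have hl' := Encodable.encode_injective hl
    simp only [Prod.mk.injEq] at hl'
    obtain ⟨l1, l2, l3⟩ := hl'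
    subst l1
    subst l2
    have mono : ∀ a c, a < nb b → c < nb b → φ b a < φ b c → a < c := by
      intro a c ha hc hac
      by_contra hn
      rcases Nat.lt_or_eq_of_le (not_lt.mp hn) with h' | h'
      · have := hφ b c a h' ha
        omega
      · subst h'
        omega
    subst e2 e3 g2 g3
    exact h2 b q u' v' w' z' hE hG l3 (mono _ _ (by omega) (by omega) k1) (mono _ _ (by omega) a3 k2)
      (mono _ _ a3 c3 k3)
  · intro u v huv hv hc
    obtain ⟨b, u', v', a1, a2, a3, a4, a5⟩ := hcov u v huv hv hc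
    obtain ⟨q, hq⟩ := h3 b u' v' a1 a2 a5
    exact ⟨ψ b q, b, q, u', v', rfl, a3, a4, hq⟩

end Pool.Agent.Lib.MP_a966e6_co.PNU
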