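import Pool.Agent.Lib.MP_a966e6_co.PNU.Defs

/-! The local page number of `K_n` is `⌈n / 3⌉`. -/

set_option autoImplicit false

namespace Pool.Agent.Lib.MP_a966e6_co.PNU.Loc

open Pool.Agent.Lib.MP_a966e6_co.PNU

/-! ## Lower bound -/

theorem card_le_of_inj {α : Type} [DecidableEq α] (E : Finset α) (g : α → ℕ) (L : ℕ)
    (hg : ∀ e ∈ E, 1 ≤ g e ∧ g e ≤ L) (hinj : ∀ e ∈ E, ∀ e' ∈ E, g e = g e' → e = e') :
    E.card ≤ L := by
  have : E.card ≤ (Finset.Icc 1 L).card := by
    apply Finset.card_le_card_of_injOn g
    · intro e he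
      have := hg e he
      simp only [Finset.coe_Icc, Set.mem_Icc]
      exact this
    · intro e he e' he' h
      exact hinj e he e' he' h
  simpa using this

theorem page_bound {V : Type} [DecidableEq V] (E : Finset (V × V)) (f t : V → ℕ) (m : ℕ)
    (hlt : ∀ e ∈ E, f e.1 < f e.2 ∧ f e.2 < m)
    (ht : ∀ e ∈ E, t e.1 < t e.2 ∧ t e.2 ≤ 2)
    (hmono : ∀ e ∈ E, ∀ e' ∈ E, (t e.1 < t e'.1 → f e.1 < f e'.1) ∧
      (t e.1 < t e'.2 → f e.1 < f e'.2) ∧ (t e.2 < t e'.1 → f e.2 < f e'.1) ∧
      (t e.2 < t e'.2 → f e.2 < f e'.2))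
    (hnc : ∀ e ∈ E, ∀ e' ∈ E, ¬ (f e.1 < f e'.1 ∧ f e'.1 < f e.2 ∧ f e.2 < f e'.2))
    (hinj : ∀ e ∈ E, ∀ e' ∈ E, f e.1 = f e'.1 → f e.2 = f e'.2 → e = e') :
    E.card ≤ m := by
  classical
  set E01 := E.filter (fun e => t e.1 = 0 ∧ t e.2 = 1) with hE01
  set E02 := E.filter (fun e => t e.1 = 0 ∧ t e.2 = 2) with hE02
  set E12 := E.filter (fun e => t e.1 = 1 ∧ t e.2 = 2) with hE12
  have hsub : E ⊆ E01 ∪ (E02 ∪ E12) := by
    intro e he
    have := ht e he
    simp only [hE01, hE02, hE12, Finset.mem_union, Finset.mem_filter, he, true_and]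
    omega
  have hcard : E.card ≤ E01.card + (E02.card + E12.card) := by
    refine (Finset.card_le_card hsub).trans ?_
    refine (Finset.card_union_le _ _).trans ?_
    have := Finset.card_union_le E02 E12
    omega
  have c01 : E01.card ≤ E01.sup (fun e => f e.2 - f e.1) := by
    apply card_le_of_inj E01 (fun e => f e.2 - f e.1)
    · intro e he
      refine ⟨?_, Finset.le_sup (f := fun e : V × V => f e.2 - f e.1) he⟩
      have := hlt e (Finset.mem_filter.1 he).1
      omega
    · intro e he e' he' h
      have h1 := Finset.mem_filter.1 he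
      have h2 := Finset.mem_filter.1 he'
      have a1 := hlt e h1.1
      have a2 := hlt e' h2.1
      have b1 := hmono e h1.1 e' h2.1
      have b2 := hmono e' h2.1 e h1.1
      have c1 := hnc e h1.1 e' h2.1
      have c2 := hnc e' h2.1 e h1.1
      apply hinj e h1.1 e' h2.1 <;> omega
  have c12 : E12.card ≤ E12.sup (fun e => f e.2 - f e.1) := by
    apply card_le_of_inj E12 (fun e => f e.2 - f e.1)
    · intro e he
      refine ⟨?_, Finset.le_sup (f := fun e : V × V => f e.2 - f e.1) he⟩
      have := hlt e (Finset.mem_filter.1 he).1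
      omega
    · intro e he e' he' h
      have h1 := Finset.mem_filter.1 he
      have h2 := Finset.mem_filter.1 he'
      have a1 := hlt e h1.1
      have a2 := hlt e' h2.1
      have b1 := hmono e h1.1 e' h2.1
      have b2 := hmono e' h2.1 e h1.1
      have c1 := hnc e h1.1 e' h2.1
      have c2 := hnc e' h2.1 e h1.1
      apply hinj e h1.1 e' h2.1 <;> omega
  have c02 : E02.card ≤ E02.sup (fun e => m - (f e.2 - f e.1)) := by
    apply card_le_of_inj E02 (fun e => m - (f e.2 - f e.1))
    · intro e he
      refine ⟨?_, Finset.le_sup (f := fun e : V × V => m - (f e.2 - f e.1)) he⟩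
      have := hlt e (Finset.mem_filter.1 he).1
      omega
    · intro e he e' he' h
      have h1 := Finset.mem_filter.1 he
      have h2 := Finset.mem_filter.1 he'
      have a1 := hlt e h1.1
      have a2 := hlt e' h2.1
      have b1 := hmono e h1.1 e' h2.1
      have b2 := hmono e' h2.1 e h1.1
      have c1 := hnc e h1.1 e' h2.1
      have c2 := hnc e' h2.1 e h1.1
      apply hinj e h1.1 e' h2.1 <;> omega
  have key : ∀ (A : Finset (V × V)) (g : V × V → ℕ), A.sup g = 0 ∨ ∃ e ∈ A, A.sup g = g e := by
    intro A g
    rcases A.eq_empty_or_nonempty with h | h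
    · left; subst h; simp
    · right
      obtain ⟨e, he, h'⟩ := Finset.exists_mem_eq_sup A h g
      exact ⟨e, he, h'⟩
  have e01 := key E01 (fun e => f e.2 - f e.1)
  have e12 := key E12 (fun e => f e.2 - f e.1)
  have e02 := key E02 (fun e => m - (f e.2 - f e.1))
  rcases e01 with e01 | ⟨x, hx, e01⟩ <;> rcases e12 with e12 | ⟨y, hy, e12⟩ <;>
    rcases e02 with e02 | ⟨z, hz, e02⟩ <;> rw [e01] at c01 <;> rw [e12] at c12 <;>
    rw [e02] at c02
  · omega
  · have := hlt z (Finset.mem_filter.1 hz).1
    omega
  · have := hlt y (Finset.mem_filter.1 hy).1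
    omega
  · have h1 := Finset.mem_filter.1 hy
    have h2 := Finset.mem_filter.1 hz
    have a1 := hlt y h1.1
    have a2 := hlt z h2.1
    have b1 := hmono y h1.1 z h2.1
    have b2 := hmono z h2.1 y h1.1
    have c1 := hnc y h1.1 z h2.1
    have c2 := hnc z h2.1 y h1.1
    omega
  · have := hlt x (Finset.mem_filter.1 hx).1
    omega
  · have h1 := Finset.mem_filter.1 hx
    have h2 := Finset.mem_filter.1 hz
    have a1 := hlt x h1.1
    have a2 := hlt z h2.1
    have b1 := hmono x h1.1 z h2.1
    have b2 := hmono z h2.1 x h1.1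
    have c1 := hnc x h1.1 z h2.1
    have c2 := hnc z h2.1 x h1.1
    omega
  · have h1 := Finset.mem_filter.1 hx
    have h2 := Finset.mem_filter.1 hy
    have a1 := hlt x h1.1
    have a2 := hlt y h2.1
    have b1 := hmono x h1.1 y h2.1
    have b2 := hmono y h2.1 x h1.1
    have c1 := hnc x h1.1 y h2.1
    have c2 := hnc y h2.1 x h1.1
    omega
  · have h1 := Finset.mem_filter.1 hx
    have h2 := Finset.mem_filter.1 hy
    have h3 := Finset.mem_filter.1 hz
    have a1 := hlt x h1.1
    have a2 := hlt y h2.1
    have a3 := hlt z h3.1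
    have b1 := hmono x h1.1 y h2.1
    have b2 := hmono z h3.1 x h1.1
    have b2' := hmono x h1.1 z h3.1
    have b3 := hmono y h2.1 z h3.1
    have b3' := hmono z h3.1 y h2.1
    have d1 := hnc x h1.1 y h2.1
    have d2 := hnc x h1.1 z h3.1
    have d3 := hnc z h3.1 x h1.1
    have d4 := hnc y h2.1 z h3.1
    have d5 := hnc z h3.1 y h2.1
    omega

/-- The rank of `v` in the spine order. -/
def rk {n : ℕ} (r : Fin n → ℕ) (v : Fin n) : ℕ :=
  (Finset.univ.filter (fun w => r w < r v)).card

theorem rk_lt {n : ℕ} (r : Fin n → ℕ) (v : Fin n) : rk r v < n := by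
  have h : (Finset.univ.filter (fun w => r w < r v)) ⊂ (Finset.univ : Finset (Fin n)) := by
    refine Finset.ssubset_univ_iff.2 ?_
    intro h
    have := Finset.mem_univ v
    rw [← h] at this
    simp at this
  have := Finset.card_lt_card h
  simpa [rk] using this

theorem rk_mono {n : ℕ} (r : Fin n → ℕ) {v w : Fin n} (h : r v < r w) : rk r v < rk r w := by
  apply Finset.card_lt_card
  rw [Finset.ssubset_iff_of_subset]
  · exact ⟨v, by simpa using h, by simp⟩
  · intro x hx
    simp only [Finset.mem_filter, Finset.mem_univ, true_and] at hx ⊢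
    omega

theorem rk_lt_iff {n : ℕ} (r : Fin n → ℕ) (hr : Function.Injective r) {v w : Fin n} :
    rk r v < rk r w ↔ r v < r w := by
  constructor
  · intro h
    by_contra h'
    rcases lt_or_eq_of_le (not_lt.1 h') with h1 | h1
    · have := rk_mono r h1
      omega
    · have := hr h1
      subst this
      omega
  · exact rk_mono r

theorem rk_surj {n : ℕ} (r : Fin n → ℕ) (hr : Function.Injective r) (i : ℕ) (hi : i < n) :
    ∃ v, rk r v = i := by
  let σ : Fin n → Fin n := fun v => ⟨rk r v, rk_lt r v⟩
  have hσ : Function.Injective σ := by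
    intro v w h
    have h' : rk r v = rk r w := by
      have := congrArg Fin.val h
      simpa [σ] using this
    by_contra hne
    have h3 : r v ≠ r w := fun h => hne (hr h)
    rcases lt_or_gt_of_ne h3 with h1 | h1
    · have := rk_mono r h1
      omega
    · have := rk_mono r h1
      omega
  have hs := Finite.surjective_of_injective hσ
  obtain ⟨v, hv⟩ := hs ⟨i, hi⟩
  refine ⟨v, ?_⟩
  have := congrArg Fin.val hv
  simpa [σ] using this

/-- The class of the vertex `v`: the spine is cut into three intervals. -/
def cls {n : ℕ} (r : Fin n → ℕ) (v : Fin n) : ℕ :=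
  if rk r v < n / 3 then 0 else if rk r v < 2 * n / 3 then 1 else 2

theorem count_pairs {n : ℕ} (r : Fin n → ℕ) (hr : Function.Injective r) :
    n * n ≤ 3 * (Finset.univ.filter
      (fun e : Fin n × Fin n => cls r e.1 < cls r e.2)).card + 1 := by
  classical
  set A := (Finset.univ.filter (fun e : Fin n × Fin n => cls r e.1 < cls r e.2)) with hA
  set P1 : Finset (ℕ × ℕ) := Finset.range (n / 3) ×ˢ Finset.Ico (n / 3) n with hP1
  set P2 : Finset (ℕ × ℕ) := Finset.Ico (n / 3) (2 * n / 3) ×ˢ Finset.Ico (2 * n / 3) n with hP2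
  have hdisj : Disjoint P1 P2 := by
    rw [Finset.disjoint_left]
    intro p h1 h2
    simp only [hP1, hP2, Finset.mem_product, Finset.mem_range, Finset.mem_Ico] at h1 h2
    omega
  have hsub : P1 ∪ P2 ⊆ A.image (fun e => (rk r e.1, rk r e.2)) := by
    intro p hp
    have hlt : p.1 < n ∧ p.2 < n := by
      simp only [hP1, hP2, Finset.mem_union, Finset.mem_product, Finset.mem_range,
        Finset.mem_Ico] at hp
      omega
    obtain ⟨v, hv⟩ := rk_surj r hr p.1 hlt.1
    obtain ⟨w, hw⟩ := rk_surj r hr p.2 hlt.2
    rw [Finset.mem_image]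
    refine ⟨(v, w), ?_, by simp [hv, hw]⟩
    rw [hA, Finset.mem_filter]
    refine ⟨Finset.mem_univ _, ?_⟩
    simp only [cls, hv, hw]
    simp only [hP1, hP2, Finset.mem_union, Finset.mem_product, Finset.mem_range,
      Finset.mem_Ico] at hp
    split_ifs <;> omega
  have h1 : (P1 ∪ P2).card ≤ A.card := (Finset.card_le_card hsub).trans Finset.card_image_le
  rw [Finset.card_union_of_disjoint hdisj, hP1, hP2, Finset.card_product, Finset.card_product]
    at h1
  simp only [Finset.card_range, Nat.card_Ico] at h1
  obtain ⟨q, s, hs, hn⟩ : ∃ q s, s < 3 ∧ n = 3 * q + s := ⟨n / 3, n % 3, by omega, by omega⟩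
  have ha : n / 3 = q := by omega
  interval_cases s
  · have hb : 2 * n / 3 = 2 * q := by omega
    rw [ha, hb] at h1
    have e1 : n - q = 2 * q := by omega
    have e2 : 2 * q - q = q := by omega
    have e3 : n - 2 * q = q := by omega
    rw [e1, e2, e3] at h1
    have e4 : n * n = 3 * (q * (2 * q) + q * q) := by rw [hn]; ring
    omega
  · have hb : 2 * n / 3 = 2 * q := by omega
    rw [ha, hb] at h1
    have e1 : n - q = 2 * q + 1 := by omega
    have e2 : 2 * q - q = q := by omega
    have e3 : n - 2 * q = q + 1 := by omega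
    rw [e1, e2, e3] at h1
    have e4 : n * n = 3 * (q * (2 * q + 1) + q * (q + 1)) + 1 := by rw [hn]; ring
    omega
  · have hb : 2 * n / 3 = 2 * q + 1 := by omega
    rw [ha, hb] at h1
    have e1 : n - q = 2 * q + 2 := by omega
    have e2 : 2 * q + 1 - q = q + 1 := by omega
    have e3 : n - (2 * q + 1) = q + 1 := by omega
    rw [e1, e2, e3] at h1
    have e4 : n * n = 3 * (q * (2 * q + 2) + (q + 1) * (q + 1)) + 1 := by rw [hn]; ring
    omega

theorem lower_aux {n : ℕ} (r : Fin n → ℕ) (c : Sym2 (Fin n) → ℕ) (k : ℕ)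
    (hb : IsBookEmbedding (⊤ : SimpleGraph (Fin n)) r c)
    (hk : IsLocal (⊤ : SimpleGraph (Fin n)) c k) : n * n ≤ 3 * (n * k) + 1 := by
  classical
  obtain ⟨hr, hnc⟩ := hb
  set A := (Finset.univ.filter (fun e : Fin n × Fin n => cls r e.1 < cls r e.2)) with hA
  have hcount := count_pairs r hr
  rw [← hA] at hcount
  set W : ℕ → Finset (Fin n) := fun p => Finset.univ.filter (fun v => ∃ w, v ≠ w ∧ c s(v, w) = p)
    with hW
  have hcl : ∀ v w : Fin n, cls r v < cls r w → r v < r w := by
    intro v w h
    rw [← rk_lt_iff r hr]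
    simp only [cls] at h
    split_ifs at h <;> omega
  have hpage : ∀ p, (A.filter (fun e => c s(e.1, e.2) = p)).card ≤ (W p).card := by
    intro p
    set f : Fin n → ℕ := fun v => ((W p).filter (fun w => r w < r v)).card with hf
    have hfm : ∀ v ∈ W p, ∀ w, r v < r w → f v < f w := by
      intro v hv w h
      apply Finset.card_lt_card
      rw [Finset.ssubset_iff_of_subset]
      · exact ⟨v, by simp only [Finset.mem_filter]; exact ⟨hv, h⟩, by simp⟩
      · intro x hx
        simp only [Finset.mem_filter] at hx ⊢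
        exact ⟨hx.1, by omega⟩
    have hfi : ∀ v ∈ W p, ∀ w ∈ W p, f v < f w → r v < r w := by
      intro v hv w hw h
      by_contra h'
      rcases lt_or_eq_of_le (not_lt.1 h') with h1 | h1
      · have := hfm w hw v h1
        omega
      · have := hr h1
        subst this
        omega
    have hfe : ∀ v ∈ W p, ∀ w ∈ W p, f v = f w → v = w := by
      intro v hv w hw h
      by_contra hne
      have h3 : r v ≠ r w := fun h => hne (hr h)
      rcases lt_or_gt_of_ne h3 with h1 | h1
      · have := hfm v hv w h1
        omega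
      · have := hfm w hw v h1
        omega
    have hmem : ∀ e ∈ A.filter (fun e => c s(e.1, e.2) = p), e.1 ∈ W p ∧ e.2 ∈ W p ∧
        cls r e.1 < cls r e.2 ∧ r e.1 < r e.2 ∧ c s(e.1, e.2) = p := by
      intro e he
      simp only [hA, Finset.mem_filter, Finset.mem_univ, true_and] at he
      have h1 := hcl _ _ he.1
      have hne : e.1 ≠ e.2 := by
        intro h
        rw [h] at h1
        omega
      refine ⟨?_, ?_, he.1, h1, he.2⟩
      · simp only [hW, Finset.mem_filter, Finset.mem_univ, true_and]
        exact ⟨e.2, hne, he.2⟩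
      · simp only [hW, Finset.mem_filter, Finset.mem_univ, true_and]
        exact ⟨e.1, hne.symm, by rw [Sym2.eq_swap]; exact he.2⟩
    apply page_bound _ f (cls r) (W p).card
    · intro e he
      obtain ⟨m1, m2, m3, m4, m5⟩ := hmem e he
      refine ⟨hfm _ m1 _ m4, ?_⟩
      apply Finset.card_lt_card
      rw [Finset.ssubset_iff_of_subset (Finset.filter_subset _ _)]
      exact ⟨e.2, m2, by simp⟩
    · intro e he
      obtain ⟨m1, m2, m3, m4, m5⟩ := hmem e he
      refine ⟨m3, ?_⟩
      simp only [cls]
      split_ifs <;> omega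
    · intro e he e' he'
      obtain ⟨m1, m2, m3, m4, m5⟩ := hmem e he
      obtain ⟨m1', m2', m3', m4', m5'⟩ := hmem e' he'
      exact ⟨fun h => hfm _ m1 _ (hcl _ _ h), fun h => hfm _ m1 _ (hcl _ _ h),
        fun h => hfm _ m2 _ (hcl _ _ h), fun h => hfm _ m2 _ (hcl _ _ h)⟩
    · intro e he e' he' h
      obtain ⟨m1, m2, m3, m4, m5⟩ := hmem e he
      obtain ⟨m1', m2', m3', m4', m5'⟩ := hmem e' he'
      have n1 := hfi _ m1 _ m1' h.1
      have n2 := hfi _ m1' _ m2 h.2.1
      have n3 := hfi _ m2 _ m2' h.2.2
      apply hnc s(e.1, e.2) _ s(e'.1, e'.2) _ (by rw [m5, m5'])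
      · exact ⟨e.1, e.2, e'.1, e'.2, rfl, rfl, Or.inl ⟨n1, n2, n3⟩⟩
      · rw [SimpleGraph.mem_edgeSet, SimpleGraph.top_adj]
        intro h
        rw [h] at m4
        omega
      · rw [SimpleGraph.mem_edgeSet, SimpleGraph.top_adj]
        intro h
        rw [h] at m4'
        omega
    · intro e he e' he' h1 h2
      obtain ⟨m1, m2, m3, m4, m5⟩ := hmem e he
      obtain ⟨m1', m2', m3', m4', m5'⟩ := hmem e' he'
      exact Prod.ext (hfe _ m1 _ m1' h1) (hfe _ m2 _ m2' h2)
  set P := A.image (fun e => c s(e.1, e.2)) with hP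
  have h1 : A.card ≤ ∑ p ∈ P, (W p).card := by
    rw [Finset.card_eq_sum_card_image (fun e => c s(e.1, e.2)) A]
    exact Finset.sum_le_sum (fun p _ => hpage p)
  have h2 : ∑ p ∈ P, (W p).card = ∑ v : Fin n, (P.filter (fun p => v ∈ W p)).card := by
    have e1 : ∀ p, (W p).card = ∑ v : Fin n, if v ∈ W p then 1 else 0 := by
      intro p
      rw [← Finset.card_filter]
      congr 1
      ext v
      simp
    have e2 : ∀ v : Fin n, (P.filter (fun p => v ∈ W p)).card
        = ∑ p ∈ P, if v ∈ W p then 1 else 0 := by
      intro v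
      rw [← Finset.card_filter]
    simp only [e1, e2]
    exact Finset.sum_comm
  have h3 : ∀ v : Fin n, (P.filter (fun p => v ∈ W p)).card ≤ k := by
    intro v
    have hv := hk v
    have hs : ((P.filter (fun p => v ∈ W p) : Finset ℕ) : Set ℕ) ⊆
        {p : ℕ | ∃ w, (⊤ : SimpleGraph (Fin n)).Adj v w ∧ c s(v, w) = p} := by
      intro p hp
      simp only [Finset.coe_filter, Set.mem_ofPred_eq, hW, Finset.mem_filter, Finset.mem_univ,
        true_and] at hp
      obtain ⟨_, w, hw, hc⟩ := hp
      exact ⟨w, hw, hc⟩
    have h4 := (Set.encard_le_encard hs).trans hv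
    rw [Set.encard_coe_eq_coe_finsetCard] at h4
    exact_mod_cast h4
  have h4 : ∑ v : Fin n, (P.filter (fun p => v ∈ W p)).card ≤ n * k := by
    refine (Finset.sum_le_sum (fun v _ => h3 v)).trans ?_
    simp
  rw [h2] at h1
  omega

theorem lower {n : ℕ} (hn : 2 ≤ n) (r : Fin n → ℕ) (c : Sym2 (Fin n) → ℕ) (k : ℕ)
    (hb : IsBookEmbedding (⊤ : SimpleGraph (Fin n)) r c)
    (hk : IsLocal (⊤ : SimpleGraph (Fin n)) c k) : n ≤ 3 * k := by
  have h := lower_aux r c k hb hk
  by_contra h'
  have h1 : 3 * k + 1 ≤ n := by omega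
  have h2 : n * (3 * k + 1) ≤ n * n := Nat.mul_le_mul_left n h1
  have h3 : n * (3 * k + 1) = 3 * (n * k) + n := by ring
  omega

/-! ## Upper bound -/


/-- The page of the edge `uv`, `u < v < 3k`. -/
def pg (k u v : ℕ) : ℕ × ℕ × ℕ :=
  if v < k then (u % (v - u), k - (v - u), (v - u) - 1 - u % (v - u))
  else if v < 2 * k then
    if u < k then (u % (k - (v - k)), v - k, k - 1 - (v - k) - u % (k - (v - k)))
    else ((v - u) - 1 - (u - k) % (v - u), (u - k) % (v - u), k - (v - u))
  else if u < k then (u, k - 1 - u - (v - 2 * k) % (k - u), (v - 2 * k) % (k - u))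
  else if u < 2 * k then
    (k - 1 - (u - k) % (k - (v - 2 * k)) - (v - 2 * k), (u - k) % (k - (v - 2 * k)), v - 2 * k)
  else (k - (v - u), (v - u) - 1 - (u - 2 * k) % (v - u), (u - 2 * k) % (v - u))

theorem mod_ne {u x d : ℕ} (h1 : u < x) (h2 : x < u + d) : u % d ≠ x % d := by
  intro h
  have h3 : (x - u) % d = 0 := by
    have := (Nat.modEq_iff_dvd' h1.le).1 h
    exact Nat.mod_eq_zero_of_dvd this
  rw [Nat.mod_eq_of_lt (by omega)] at h3
  omega

theorem pg_ne (k u x v y : ℕ) (h1 : u < x) (h2 : x < v) (h3 : v < y) (h4 : y < 3 * k) :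
    pg k u v ≠ pg k x y := by
  intro h
  rcases lt_or_ge y k with hy | hy
  · -- AAAA
    rw [pg, pg, if_pos (by omega), if_pos hy] at h
    simp only [Prod.mk.injEq] at h
    obtain ⟨e1, e2, e3⟩ := h
    have : y - x = v - u := by omega
    rw [this] at e1
    exact mod_ne h1 (by omega) e1
  rcases lt_or_ge y (2 * k) with hy2 | hy2
  · rcases lt_or_ge v k with hv | hv
    · -- AAAB
      rw [pg, pg, if_pos hv, if_neg (by omega), if_pos hy2, if_pos (by omega)] at h
      simp only [Prod.mk.injEq] at h
      obtain ⟨e1, e2, e3⟩ := h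
      have : k - (y - k) = v - u := by omega
      rw [this] at e1
      exact mod_ne h1 (by omega) e1
    rcases lt_or_ge x k with hx | hx
    · -- AABB
      rw [pg, pg, if_neg (by omega), if_pos (by omega), if_pos (by omega), if_neg (by omega),
        if_pos hy2, if_pos (by omega)] at h
      simp only [Prod.mk.injEq] at h
      omega
    rcases lt_or_ge u k with hu | hu
    · -- ABBB
      rw [pg, pg, if_neg (by omega), if_pos (by omega), if_pos (by omega), if_neg (by omega),
        if_pos hy2, if_neg (by omega)] at h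
      simp only [Prod.mk.injEq] at h
      have := Nat.mod_le (x - k) (y - x)
      omega
    · -- BBBB
      rw [pg, pg, if_neg (by omega), if_pos (by omega), if_neg (by omega), if_neg (by omega),
        if_pos hy2, if_neg (by omega)] at h
      simp only [Prod.mk.injEq] at h
      obtain ⟨e1, e2, e3⟩ := h
      have : y - x = v - u := by omega
      rw [this] at e2
      exact mod_ne (u := u - k) (x := x - k) (by omega) (by omega) e2
  · rcases lt_or_ge v k with hv | hv
    · -- AAAC
      rw [pg, pg, if_pos hv, if_neg (by omega), if_neg (by omega), if_pos (by omega)] at h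
      simp only [Prod.mk.injEq] at h
      have := Nat.mod_le u (v - u)
      omega
    rcases lt_or_ge v (2 * k) with hv2 | hv2
    · rcases lt_or_ge x k with hx | hx
      · -- AABC
        rw [pg, pg, if_neg (by omega), if_pos (by omega), if_pos (by omega), if_neg (by omega),
          if_neg (by omega), if_pos (by omega)] at h
        simp only [Prod.mk.injEq] at h
        have := Nat.mod_le u (k - (v - k))
        omega
      rcases lt_or_ge u k with hu | hu
      · -- ABBC
        rw [pg, pg, if_neg (by omega), if_pos (by omega), if_pos (by omega), if_neg (by omega),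
          if_neg (by omega), if_neg (by omega), if_pos (by omega)] at h
        simp only [Prod.mk.injEq] at h
        have := Nat.mod_le (x - k) (k - (y - 2 * k))
        omega
      · -- BBBC
        rw [pg, pg, if_neg (by omega), if_pos (by omega), if_neg (by omega), if_neg (by omega),
          if_neg (by omega), if_neg (by omega), if_pos (by omega)] at h
        simp only [Prod.mk.injEq] at h
        obtain ⟨e1, e2, e3⟩ := h
        have : k - (y - 2 * k) = v - u := by omega
        rw [this] at e2
        exact mod_ne (u := u - k) (x := x - k) (by omega) (by omega) e2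
    · rcases lt_or_ge x k with hx | hx
      · -- AACC
        rw [pg, pg, if_neg (by omega), if_neg (by omega), if_pos (by omega), if_neg (by omega),
          if_neg (by omega), if_pos (by omega)] at h
        simp only [Prod.mk.injEq] at h
        omega
      rcases lt_or_ge x (2 * k) with hx2 | hx2
      · rcases lt_or_ge u k with hu | hu
        · -- ABCC
          rw [pg, pg, if_neg (by omega), if_neg (by omega), if_pos (by omega), if_neg (by omega),
            if_neg (by omega), if_neg (by omega), if_pos (by omega)] at h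
          simp only [Prod.mk.injEq] at h
          have := Nat.mod_le (v - 2 * k) (k - u)
          omega
        · -- BBCC
          rw [pg, pg, if_neg (by omega), if_neg (by omega), if_neg (by omega), if_pos (by omega),
            if_neg (by omega), if_neg (by omega), if_neg (by omega), if_pos (by omega)] at h
          simp only [Prod.mk.injEq] at h
          omega
      · rcases lt_or_ge u k with hu | hu
        · -- ACCC
          rw [pg, pg, if_neg (by omega), if_neg (by omega), if_pos (by omega), if_neg (by omega),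
            if_neg (by omega), if_neg (by omega), if_neg (by omega)] at h
          simp only [Prod.mk.injEq] at h
          obtain ⟨e1, e2, e3⟩ := h
          have : k - u = y - x := by omega
          rw [this] at e3
          exact mod_ne (u := x - 2 * k) (x := v - 2 * k) (by omega) (by omega) e3.symm
        rcases lt_or_ge u (2 * k) with hu2 | hu2
        · -- BCCC
          rw [pg, pg, if_neg (by omega), if_neg (by omega), if_neg (by omega), if_pos (by omega),
            if_neg (by omega), if_neg (by omega), if_neg (by omega), if_neg (by omega)] at h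
          simp only [Prod.mk.injEq] at h
          have := Nat.mod_le (x - 2 * k) (y - x)
          omega
        · -- CCCC
          rw [pg, pg, if_neg (by omega), if_neg (by omega), if_neg (by omega), if_neg (by omega),
            if_neg (by omega), if_neg (by omega), if_neg (by omega), if_neg (by omega)] at h
          simp only [Prod.mk.injEq] at h
          obtain ⟨e1, e2, e3⟩ := h
          have : y - x = v - u := by omega
          rw [this] at e3
          exact mod_ne (u := u - 2 * k) (x := x - 2 * k) (by omega) (by omega) e3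

/-- The pages at the vertex `v` (`y < k` is a parameter). -/
def at' (k v y : ℕ) : ℕ × ℕ × ℕ :=
  if v < k then (v % (k - y), y, k - 1 - y - v % (k - y))
  else if v < 2 * k then (k - 1 - y - (v - k) % (k - y), (v - k) % (k - y), y)
  else (y, k - 1 - y - (v - 2 * k) % (k - y), (v - 2 * k) % (k - y))


theorem at_left (k u v : ℕ) (h1 : u < v) (h2 : v < 3 * k) : ∃ y < k, at' k u y = pg k u v := by
  rcases lt_or_ge v k with hv | hv
  · -- AA
    refine ⟨k - (v - u), by omega, ?_⟩
    rw [at', pg, if_pos (by omega), if_pos hv]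
    have : k - (k - (v - u)) = v - u := by omega
    rw [this]
    simp only [Prod.mk.injEq, true_and]
    omega
  rcases lt_or_ge v (2 * k) with hv2 | hv2
  · rcases lt_or_ge u k with hu | hu
    · -- AB
      refine ⟨v - k, by omega, ?_⟩
      rw [at', pg, if_pos hu, if_neg (by omega), if_pos hv2, if_pos hu]
    · -- BB
      refine ⟨k - (v - u), by omega, ?_⟩
      rw [at', pg, if_neg (by omega), if_pos (by omega), if_neg (by omega), if_pos (by omega),
        if_neg (by omega)]
      have : k - (k - (v - u)) = v - u := by omega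
      rw [this]
      simp only [Prod.mk.injEq, and_true]
      omega
  · rcases lt_or_ge u k with hu | hu
    · -- AC
      have hm := Nat.mod_lt (v - 2 * k) (y := k - u) (by omega)
      refine ⟨k - 1 - u - (v - 2 * k) % (k - u), by omega, ?_⟩
      rw [at', pg, if_pos hu, if_neg (by omega), if_neg (by omega), if_pos hu]
      have : u % (k - (k - 1 - u - (v - 2 * k) % (k - u))) = u := Nat.mod_eq_of_lt (by omega)
      rw [this]
      simp only [Prod.mk.injEq, true_and]
      omega
    rcases lt_or_ge u (2 * k) with hu2 | hu2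
    · -- BC
      refine ⟨v - 2 * k, by omega, ?_⟩
      rw [at', pg, if_neg (by omega), if_pos hu2, if_neg (by omega), if_neg (by omega),
        if_neg (by omega), if_pos hu2]
      simp only [Prod.mk.injEq, and_true]
      omega
    · -- CC
      refine ⟨k - (v - u), by omega, ?_⟩
      rw [at', pg, if_neg (by omega), if_neg (by omega), if_neg (by omega), if_neg (by omega),
        if_neg (by omega), if_neg (by omega)]
      have : k - (k - (v - u)) = v - u := by omega
      rw [this]
      simp only [Prod.mk.injEq, and_true, true_and]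
      omega

theorem at_right (k u v : ℕ) (h1 : u < v) (h2 : v < 3 * k) : ∃ y < k, at' k v y = pg k u v := by
  rcases lt_or_ge v k with hv | hv
  · -- AA
    refine ⟨k - (v - u), by omega, ?_⟩
    rw [at', pg, if_pos (by omega), if_pos hv]
    have : k - (k - (v - u)) = v - u := by omega
    rw [this]
    have h5 : v % (v - u) = u % (v - u) := by
      conv_lhs => rw [show v = u + (v - u) by omega]
      rw [show u + (v - u) - u = v - u by omega, Nat.add_mod_right]
    rw [h5]
    simp only [Prod.mk.injEq, true_and]
    omega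
  rcases lt_or_ge v (2 * k) with hv2 | hv2
  · rcases lt_or_ge u k with hu | hu
    · -- AB
      have hm := Nat.mod_lt u (y := k - (v - k)) (by omega)
      refine ⟨k - 1 - (v - k) - u % (k - (v - k)), by omega, ?_⟩
      rw [at', pg, if_neg (by omega), if_pos hv2, if_neg (by omega), if_pos hv2, if_pos hu]
      have : (v - k) % (k - (k - 1 - (v - k) - u % (k - (v - k)))) = v - k :=
        Nat.mod_eq_of_lt (by omega)
      rw [this]
      simp only [Prod.mk.injEq, and_true]
      omega
    · -- BB
      refine ⟨k - (v - u), by omega, ?_⟩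
      rw [at', pg, if_neg (by omega), if_pos (by omega), if_neg (by omega), if_pos (by omega),
        if_neg (by omega)]
      have : k - (k - (v - u)) = v - u := by omega
      rw [this]
      have h5 : (v - k) % (v - u) = (u - k) % (v - u) := by
        have h6 : v - k = (u - k) + (v - u) := by omega
        rw [h6, Nat.add_mod_right]
      rw [h5]
      simp only [Prod.mk.injEq, and_true]
      omega
  · rcases lt_or_ge u k with hu | hu
    · -- AC
      refine ⟨u, hu, ?_⟩
      rw [at', pg, if_neg (by omega), if_neg (by omega), if_neg (by omega), if_neg (by omega),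
        if_pos hu]
    rcases lt_or_ge u (2 * k) with hu2 | hu2
    · -- BC
      have hm := Nat.mod_lt (u - k) (y := k - (v - 2 * k)) (by omega)
      refine ⟨k - 1 - (u - k) % (k - (v - 2 * k)) - (v - 2 * k), by omega, ?_⟩
      rw [at', pg, if_neg (by omega), if_neg (by omega), if_neg (by omega), if_neg (by omega),
        if_neg (by omega), if_pos hu2]
      have : (v - 2 * k) % (k - (k - 1 - (u - k) % (k - (v - 2 * k)) - (v - 2 * k))) =
        v - 2 * k := Nat.mod_eq_of_lt (by omega)
      rw [this]
      simp only [Prod.mk.injEq, and_true, true_and]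
      omega
    · -- CC
      refine ⟨k - (v - u), by omega, ?_⟩
      rw [at', pg, if_neg (by omega), if_neg (by omega), if_neg (by omega), if_neg (by omega),
        if_neg (by omega), if_neg (by omega)]
      have : k - (k - (v - u)) = v - u := by omega
      rw [this]
      have h5 : (v - 2 * k) % (v - u) = (u - 2 * k) % (v - u) := by
        have h6 : v - 2 * k = (u - 2 * k) + (v - u) := by omega
        rw [h6, Nat.add_mod_right]
      rw [h5]
      simp only [Prod.mk.injEq, and_true, true_and]
      omega


/-- The number of a triple. -/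
def enc (p : ℕ × ℕ × ℕ) : ℕ := Nat.pair p.1 (Nat.pair p.2.1 p.2.2)

theorem enc_inj {p q : ℕ × ℕ × ℕ} (h : enc p = enc q) : p = q := by
  simp only [enc, Nat.pair_eq_pair] at h
  obtain ⟨h1, h2, h3⟩ := h
  exact Prod.ext h1 (Prod.ext h2 h3)

/-- The page of the edge `e` of the complete graph. -/
def col (n k : ℕ) : Sym2 (Fin n) → ℕ :=
  Sym2.lift ⟨fun u v => enc (pg k (min u.val v.val) (max u.val v.val)), fun u v => by
    change enc (pg k (min u.val v.val) (max u.val v.val)) =
      enc (pg k (min v.val u.val) (max v.val u.val))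
    rw [min_comm v.val u.val, max_comm v.val u.val]⟩

theorem col_mk (n k : ℕ) (u v : Fin n) :
    col n k s(u, v) = enc (pg k (min u.val v.val) (max u.val v.val)) := rfl

theorem col_lt (n k : ℕ) (u v : Fin n) (h : u.val < v.val) :
    col n k s(u, v) = enc (pg k u.val v.val) := by
  rw [col_mk, min_eq_left h.le, max_eq_right h.le]

theorem col_gt (n k : ℕ) (u v : Fin n) (h : v.val < u.val) :
    col n k s(u, v) = enc (pg k v.val u.val) := by
  rw [col_mk, min_eq_right h.le, max_eq_left h.le]

theorem upper (n k : ℕ) (hn : n ≤ 3 * k) :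
    IsBookEmbedding (⊤ : SimpleGraph (Fin n)) Fin.val (col n k) ∧
    IsLocal (⊤ : SimpleGraph (Fin n)) (col n k) k := by
  refine ⟨⟨Fin.val_injective, ?_⟩, ?_⟩
  · intro e _ f _ hef hcr
    obtain ⟨u, v, x, y, rfl, rfl, h⟩ := hcr
    rcases h with ⟨h1, h2, h3⟩ | ⟨h1, h2, h3⟩
    · rw [col_lt n k u v (by omega), col_lt n k x y (by omega)] at hef
      exact pg_ne k u x v y h1 h2 h3 (by omega) (enc_inj hef)
    · rw [col_lt n k u v (by omega), col_lt n k x y (by omega)] at hef
      exact pg_ne k x u y v h1 h2 h3 (by omega) (enc_inj hef.symm)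
  · intro v
    have hs : {p : ℕ | ∃ w, (⊤ : SimpleGraph (Fin n)).Adj v w ∧ col n k s(v, w) = p} ⊆
        (((Finset.range k).image (fun y => enc (at' k v y)) : Finset ℕ) : Set ℕ) := by
      intro p hp
      obtain ⟨w, hw, hp⟩ := hp
      rw [SimpleGraph.top_adj] at hw
      have hne : v.val ≠ w.val := fun h => hw (Fin.ext h)
      rw [Finset.mem_coe, Finset.mem_image]
      rcases lt_or_gt_of_ne hne with h | h
      · obtain ⟨y, hy, hy'⟩ := at_left k v w h (by omega)
        exact ⟨y, Finset.mem_range.2 hy, by rw [← hp, col_lt n k v w h, hy']⟩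
      · obtain ⟨y, hy, hy'⟩ := at_right k w v h (by omega)
        exact ⟨y, Finset.mem_range.2 hy, by rw [← hp, col_gt n k v w h, hy']⟩
    refine (Set.encard_le_encard hs).trans ?_
    rw [Set.encard_coe_eq_coe_finsetCard]
    have h1 := Finset.card_image_le (s := Finset.range k) (f := fun y => enc (at' k v y))
    rw [Finset.card_range] at h1
    exact_mod_cast h1

/-- For every `n ≥ 2`, the local page number of `K_n` is `⌈n / 3⌉`. -/
theorem localPN (n : ℕ) (hn : 2 ≤ n) :
    localPageNumber (⊤ : SimpleGraph (Fin n)) = (n + 2) / 3 := by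
  have hmem : (n + 2) / 3 ∈ {k : ℕ | ∃ (r : Fin n → ℕ) (c : Sym2 (Fin n) → ℕ),
      IsBookEmbedding (⊤ : SimpleGraph (Fin n)) r c ∧
      IsLocal (⊤ : SimpleGraph (Fin n)) c k} :=
    ⟨Fin.val, col n ((n + 2) / 3), upper n ((n + 2) / 3) (by omega)⟩
  apply le_antisymm (Nat.sInf_le hmem)
  obtain ⟨r, c, h1, h2⟩ := Nat.sInf_mem ⟨_, hmem⟩
  have h3 := lower hn r c _ h1 h2
  change (n + 2) / 3 ≤ sInf _
  omega


end Pool.Agent.Lib.MP_a966e6_co.PNU.Loc
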