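import Pool.Agent.Lib.MP_a966e6_co.PNU.Red

/-! The structure of a union embedding of `K_{3k}` with `k` pages, part 1: cyclic form, counting. -/

set_option autoImplicit false

namespace Pool.Agent.Lib.MP_a966e6_co.PNU.Neg

open Finset Pool.Agent.Lib.MP_a966e6_co.PNU

/-- a union embedding of `K_n` with `k` pages in cyclic form: the position `i` of the circle is the class of `i` modulo `n`,
`c i j` is the page of the chord `i j`, `lam p i` the label of the component of `i` on page `p` -/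
structure Emb (n k : ℕ) (c lam : ℕ → ℕ → ℕ) : Prop where
  symm : ∀ i j, c i j = c j i
  per : ∀ i j, c (i + n) j = c i j
  perl : ∀ p i, lam p (i + n) = lam p i
  lt : ∀ i j, i < j → j < i + n → c i j < k
  same : ∀ i j, i < j → j < i + n → lam (c i j) i = lam (c i j) j
  nc : ∀ i x j y, i < x → x < j → j < y → y < i + n → c i j = c x y → lam (c i j) i = lam (c i j) x → False

theorem exists_emb {n k : ℕ} (hn : 0 < n) (r : Fin n → ℕ) (c : Sym2 (Fin n) → ℕ)
    (h : IsUnionEmbedding (⊤ : SimpleGraph (Fin n)) r c)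
    (hk : ∀ e ∈ (⊤ : SimpleGraph (Fin n)).edgeSet, c e < k) : ∃ c' lam, Emb n k c' lam := by
  classical
  obtain ⟨hr, hnc⟩ := h
  have hsur : ∀ i : ℕ, ∃ v : Fin n, Loc.rk r v = i % n := fun i =>
    Loc.rk_surj r hr (i % n) (Nat.mod_lt _ hn)
  choose σ hσ using hsur
  have hper : ∀ i, σ (i + n) = σ i := by
    intro i
    have h1 := hσ (i + n)
    have h2 := hσ i
    rw [Nat.add_mod_right] at h1
    have h3 : Loc.rk r (σ (i + n)) = Loc.rk r (σ i) := h1.trans h2.symm
    by_contra hne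
    have h4 : r (σ (i + n)) ≠ r (σ i) := fun h => hne (hr h)
    rcases lt_or_gt_of_ne h4 with h5 | h5
    · have := Loc.rk_mono r h5
      omega
    · have := Loc.rk_mono r h5
      omega
  have hlt : ∀ i j, i < j → j < n → r (σ i) < r (σ j) := by
    intro i j h1 h2
    rw [← Loc.rk_lt_iff r hr, hσ, hσ, Nat.mod_eq_of_lt (by omega), Nat.mod_eq_of_lt h2]
    exact h1
  -- labels
  have hlab : ∀ p : ℕ, ∃ f : Fin n → ℕ, ∀ u v : Fin n, f u = f v ↔
      (pageGraph (⊤ : SimpleGraph (Fin n)) c p).Reachable u v := by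
    intro p
    obtain ⟨g, hg⟩ := Countable.exists_injective_nat
      (pageGraph (⊤ : SimpleGraph (Fin n)) c p).ConnectedComponent
    refine ⟨fun v => g ((pageGraph (⊤ : SimpleGraph (Fin n)) c p).connectedComponentMk v), ?_⟩
    intro u v
    rw [hg.eq_iff]
    exact SimpleGraph.ConnectedComponent.eq
  choose f hf using hlab
  have hne : ∀ i j, i < j → j < i + n → σ i ≠ σ j := by
    intro i j h1 h2 h3
    have h4 := hσ i
    rw [h3, hσ j] at h4
    have h5 : (j - i) % n = 0 := Nat.sub_mod_eq_zero_of_mod_eq h4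
    rw [Nat.mod_eq_of_lt (by omega)] at h5
    omega
  have hadj : ∀ i j, i < j → j < i + n →
      (pageGraph (⊤ : SimpleGraph (Fin n)) c (c s(σ i, σ j))).Adj (σ i) (σ j) := by
    intro i j h1 h2
    rw [pageGraph_adj]
    exact ⟨by rw [SimpleGraph.top_adj]; exact hne i j h1 h2, rfl⟩
  -- no crossing in linear form
  have hlin : ∀ (p : ℕ) (a b d e : Fin n), r a < r b → r b < r d → r d < r e →
      c s(a, d) = p → c s(b, e) = p → f p a = f p b → False := by
    intro p a b d e h1 h2 h3 h4 h5 h6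
    refine hnc p a d b e ?_ ?_ ((hf p a b).1 h6) ⟨a, d, b, e, rfl, rfl, Or.inl ⟨h1, h2, h3⟩⟩
    · rw [pageGraph_adj, SimpleGraph.top_adj]
      refine ⟨?_, h4⟩
      rintro rfl
      omega
    · rw [pageGraph_adj, SimpleGraph.top_adj]
      refine ⟨?_, h5⟩
      rintro rfl
      omega
  have hsame : ∀ i j, i < j → j < i + n → f (c s(σ i, σ j)) (σ i) = f (c s(σ i, σ j)) (σ j) := by
    intro i j h1 h2
    rw [hf]
    exact (hadj i j h1 h2).reachable
  refine ⟨fun i j => c s(σ i, σ j), fun p i => f p (σ i), ?_, ?_, ?_, ?_, ?_, ?_⟩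
  · intro i j
    rw [Sym2.eq_swap]
  · intro i j
    rw [hper]
  · intro p i
    rw [hper]
  · intro i j h1 h2
    exact hk _ ((SimpleGraph.mem_edgeSet _).2 (by rw [SimpleGraph.top_adj]; exact hne i j h1 h2))
  · exact hsame
  · -- crossing in cyclic form, first with i < n
    have key : ∀ i x j y, i < n → i < x → x < j → j < y → y < i + n →
        c s(σ i, σ j) = c s(σ x, σ y) →
        f (c s(σ i, σ j)) (σ i) = f (c s(σ i, σ j)) (σ x) → False := by
      intro i x j y hi h1 h2 h3 h4 h5 h6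
      have e1 := hsame i j (by omega) (by omega)
      have e2 := hsame x y (by omega) (by omega)
      rw [← h5] at e2
      have hsub : ∀ z, n ≤ z → σ z = σ (z - n) := by
        intro z hz
        conv_lhs => rw [show z = (z - n) + n by omega]
        exact hper _
      rcases lt_or_ge y n with hy | hy
      · exact hlin _ (σ i) (σ x) (σ j) (σ y) (hlt _ _ h1 (by omega)) (hlt _ _ h2 (by omega))
          (hlt _ _ h3 hy) rfl h5.symm h6
      · rw [hsub y hy] at h5 e2
        rcases lt_or_ge j n with hj | hj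
        · -- y' < i < x < j
          refine hlin (c s(σ i, σ j)) (σ (y - n)) (σ i) (σ x) (σ j) (hlt _ _ (by omega) (by omega))
            (hlt _ _ h1 (by omega)) (hlt _ _ h2 hj) ?_ rfl ?_
          · rw [Sym2.eq_swap]; exact h5.symm
          · rw [← e2, ← h6]
        · rw [hsub j hj] at h5 e1 h6 e2
          rcases lt_or_ge x n with hx | hx
          · -- j' < y' < i < x
            refine hlin (c s(σ i, σ (j - n))) (σ (j - n)) (σ (y - n)) (σ i) (σ x)
              (hlt _ _ (by omega) (by omega)) (hlt _ _ (by omega) (by omega))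
              (hlt _ _ h1 hx) ?_ ?_ ?_
            · rw [Sym2.eq_swap]
            · rw [Sym2.eq_swap]; exact h5.symm
            · rw [← e1, ← e2, h6]
          · rw [hsub x hx] at h5 h6 e2
            -- x' < j' < y' < i
            refine hlin (c s(σ i, σ (j - n))) (σ (x - n)) (σ (j - n)) (σ (y - n)) (σ i)
              (hlt _ _ (by omega) (by omega)) (hlt _ _ (by omega) (by omega))
              (hlt _ _ (by omega) hi) ?_ ?_ ?_
            · exact h5.symm
            · rw [Sym2.eq_swap]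
            · rw [← e1, ← h6]
    intro i x j y h1 h2 h3 h4 h5 h6
    have hmul : ∀ z q, σ (z + n * q) = σ z := by
      intro z q
      induction q with
      | zero => simp
      | succ q ih =>
        rw [Nat.mul_succ, ← add_assoc, hper, ih]
    have hi : i = i % n + n * (i / n) := (Nat.mod_add_div i n).symm
    have hi' := Nat.mod_lt i hn
    obtain ⟨q, hq⟩ : ∃ q, q = n * (i / n) := ⟨_, rfl⟩
    have s1 : σ i = σ (i % n) := by
      conv_lhs => rw [hi]
      exact hmul _ _
    have s2 : ∀ z, q ≤ z → σ z = σ (z - q) := by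
      intro z hz
      conv_lhs => rw [show z = (z - q) + n * (i / n) by omega]
      exact hmul _ _
    rw [s1, s2 x (by omega), s2 j (by omega), s2 y (by omega)] at h5
    rw [s1, s2 x (by omega), s2 j (by omega)] at h6
    exact key (i % n) (x - q) (j - q) (y - q) hi' (by omega) (by omega) (by omega) (by omega) h5 h6

theorem Emb.shift {n k : ℕ} {c lam : ℕ → ℕ → ℕ} (h : Emb n k c lam) (a : ℕ) :
    Emb n k (fun i j => c (i + a) (j + a)) (fun p i => lam p (i + a)) where
  symm := fun i j => h.symm _ _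
  per := fun i j => by
    rw [show i + n + a = i + a + n by ring, h.per]
  perl := fun p i => by
    rw [show i + n + a = i + a + n by ring, h.perl]
  lt := fun i j h1 h2 => h.lt _ _ (by omega) (by omega)
  same := fun i j h1 h2 => h.same _ _ (by omega) (by omega)
  nc := fun i x j y h1 h2 h3 h4 h5 h6 => h.nc (i + a) (x + a) (j + a) (y + a) (by omega) (by omega)
    (by omega) (by omega) h5 h6

/-- a non-crossing set of pairs between different intervals `[0,k)`, `[k,2k)`, `[2k,3k)` -/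
theorem nc_bound (k : ℕ) (W : Finset ℕ) (E : Finset (ℕ × ℕ))
    (hE : ∀ e ∈ E, e.1 ∈ W ∧ e.2 ∈ W ∧ e.1 < e.2 ∧ e.2 < 3 * k ∧ e.1 / k < e.2 / k)
    (hnc : ∀ e ∈ E, ∀ e' ∈ E, ¬ (e.1 < e'.1 ∧ e'.1 < e.2 ∧ e.2 < e'.2)) : E.card ≤ W.card := by
  classical
  set f : ℕ → ℕ := fun v => (W.filter (fun w => w < v)).card with hf
  have hfm : ∀ v ∈ W, ∀ w, v < w → f v < f w := by
    intro v hv w h
    apply Finset.card_lt_card
    rw [Finset.ssubset_iff_of_subset]
    · exact ⟨v, by simp only [Finset.mem_filter]; exact ⟨hv, h⟩, by simp⟩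
    · intro x hx
      simp only [Finset.mem_filter] at hx ⊢
      exact ⟨hx.1, by omega⟩
  have hfi : ∀ v ∈ W, ∀ w ∈ W, f v < f w → v < w := by
    intro v _ w hw h
    by_contra h'
    rcases lt_or_eq_of_le (not_lt.1 h') with h1 | h1
    · have := hfm w hw v h1
      omega
    · subst h1
      omega
  have hfe : ∀ v ∈ W, ∀ w ∈ W, f v = f w → v = w := by
    intro v hv w hw h
    by_contra hne
    rcases lt_or_gt_of_ne hne with h1 | h1
    · have := hfm v hv w h1
      omega
    · have := hfm w hw v h1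
      omega
  have hfW : ∀ v ∈ W, f v < W.card := by
    intro v hv
    apply Finset.card_lt_card
    rw [Finset.ssubset_iff_of_subset (Finset.filter_subset _ _)]
    exact ⟨v, hv, by simp⟩
  have hdiv : ∀ a b : ℕ, a / k < b / k → a < b := by
    intro a b h
    by_contra h'
    have := Nat.div_le_div_right (c := k) (not_lt.1 h')
    omega
  refine Loc.page_bound E f (fun v => v / k) W.card ?_ ?_ ?_ ?_ ?_
  · intro e he
    obtain ⟨h1, h2, h3, h4, h5⟩ := hE e he
    exact ⟨hfm _ h1 _ h3, hfW _ h2⟩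
  · intro e he
    obtain ⟨h1, h2, h3, h4, h5⟩ := hE e he
    refine ⟨h5, ?_⟩
    have : e.2 / k < 3 := Nat.div_lt_of_lt_mul (by rw [mul_comm]; exact h4)
    omega
  · intro e he e' he'
    obtain ⟨h1, h2, h3, h4, h5⟩ := hE e he
    obtain ⟨g1, g2, g3, g4, g5⟩ := hE e' he'
    exact ⟨fun h => hfm _ h1 _ (hdiv _ _ h), fun h => hfm _ h1 _ (hdiv _ _ h),
      fun h => hfm _ h2 _ (hdiv _ _ h), fun h => hfm _ h2 _ (hdiv _ _ h)⟩
  · intro e he e' he' h
    obtain ⟨h1, h2, h3, h4, h5⟩ := hE e he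
    obtain ⟨g1, g2, g3, g4, g5⟩ := hE e' he'
    exact hnc e he e' he' ⟨hfi _ h1 _ g1 h.1, hfi _ g1 _ h2 h.2.1, hfi _ h2 _ g2 h.2.2⟩
  · intro e he e' he' h1' h2'
    obtain ⟨h1, h2, h3, h4, h5⟩ := hE e he
    obtain ⟨g1, g2, g3, g4, g5⟩ := hE e' he'
    exact Prod.ext (hfe _ h1 _ g1 h1') (hfe _ h2 _ g2 h2')

/-- the component with label `l` on page `p` -/
def KK (n : ℕ) (lam : ℕ → ℕ → ℕ) (p l : ℕ) : Finset ℕ := (range n).filter fun i => lam p i = l

/-- the chords between different intervals -/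
def XX (k : ℕ) : Finset (ℕ × ℕ) :=
  ((range (3 * k)) ×ˢ (range (3 * k))).filter fun e => e.1 < e.2 ∧ e.1 / k < e.2 / k

/-- those of page `p` -/
def XP (k : ℕ) (c : ℕ → ℕ → ℕ) (p : ℕ) : Finset (ℕ × ℕ) := (XX k).filter fun e => c e.1 e.2 = p

/-- those in the component with label `l` -/
def XL (k : ℕ) (c lam : ℕ → ℕ → ℕ) (p l : ℕ) : Finset (ℕ × ℕ) := (XP k c p).filter fun e => lam p e.1 = l

theorem XX_card (k : ℕ) (hk : 0 < k) : 3 * k * k ≤ (XX k).card := by
  classical
  have hsub : (range k ×ˢ Ico k (3 * k)) ∪ (Ico k (2 * k) ×ˢ Ico (2 * k) (3 * k)) ⊆ XX k := by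
    intro e he
    simp only [mem_union, mem_product, mem_range, mem_Ico] at he
    simp only [XX, mem_filter, mem_product, mem_range]
    rcases he with ⟨h1, h2, h3⟩ | ⟨⟨h1, h2⟩, h3, h4⟩
    · refine ⟨⟨by omega, h3⟩, by omega, ?_⟩
      have e1 : e.1 / k = 0 := Nat.div_eq_of_lt h1
      have e2 : 1 ≤ e.2 / k := (Nat.one_le_div_iff hk).2 h2
      omega
    · refine ⟨⟨by omega, h4⟩, by omega, ?_⟩
      have e1 : e.1 / k < 2 := Nat.div_lt_of_lt_mul (by rw [mul_comm]; exact h2)
      have e2 : 2 ≤ e.2 / k := (Nat.le_div_iff_mul_le hk).2 h3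
      omega
  have hdisj : Disjoint (range k ×ˢ Ico k (3 * k)) (Ico k (2 * k) ×ˢ Ico (2 * k) (3 * k)) := by
    rw [Finset.disjoint_left]
    intro e h1 h2
    simp only [mem_product, mem_range, mem_Ico] at h1 h2
    omega
  have h1 := Finset.card_le_card hsub
  rw [Finset.card_union_of_disjoint hdisj, Finset.card_product, Finset.card_product,
    Finset.card_range, Nat.card_Ico, Nat.card_Ico, Nat.card_Ico] at h1
  have e1 : 3 * k - k = 2 * k := by omega
  have e2 : 2 * k - k = k := by omega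
  have e3 : 3 * k - 2 * k = k := by omega
  rw [e1, e2, e3] at h1
  nlinarith

theorem XL_nc {k : ℕ} {c lam : ℕ → ℕ → ℕ} (h : Emb (3 * k) k c lam) (p l : ℕ) :
    ∀ e ∈ XL k c lam p l, ∀ e' ∈ XL k c lam p l, ¬ (e.1 < e'.1 ∧ e'.1 < e.2 ∧ e.2 < e'.2) := by
  intro e he e' he' h3
  simp only [XL, XP, XX, mem_filter, mem_product, mem_range] at he he'
  obtain ⟨⟨⟨⟨a1, a2⟩, a3, a4⟩, a5⟩, a6⟩ := he
  obtain ⟨⟨⟨⟨b1, b2⟩, b3, b4⟩, b5⟩, b6⟩ := he'
  exact h.nc e.1 e'.1 e.2 e'.2 h3.1 h3.2.1 h3.2.2 (by omega) (by rw [a5, b5]) (by rw [a5, a6, b6])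

theorem XL_mem {k : ℕ} {c lam : ℕ → ℕ → ℕ} (h : Emb (3 * k) k c lam) (p l : ℕ) :
    ∀ e ∈ XL k c lam p l, e.1 ∈ KK (3 * k) lam p l ∧ e.2 ∈ KK (3 * k) lam p l ∧ e.1 < e.2 ∧
      e.2 < 3 * k ∧ e.1 / k < e.2 / k := by
  intro e he
  simp only [XL, XP, XX, KK, mem_filter, mem_product, mem_range] at he ⊢
  obtain ⟨⟨⟨⟨a1, a2⟩, a3, a4⟩, a5⟩, a6⟩ := he
  refine ⟨⟨a1, a6⟩, ⟨a2, ?_⟩, a3, a2, a4⟩
  have := h.same e.1 e.2 a3 (by omega)
  rw [a5] at this
  rw [← this, a6]

theorem XL_le {k : ℕ} {c lam : ℕ → ℕ → ℕ} (h : Emb (3 * k) k c lam) (p l : ℕ) :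
    (XL k c lam p l).card ≤ (KK (3 * k) lam p l).card :=
  nc_bound k _ _ (XL_mem h p l) (XL_nc h p l)

/-- equality in the count of the chords between the three intervals, in every component -/
theorem XL_eq {k : ℕ} (hk : 0 < k) {c lam : ℕ → ℕ → ℕ} (h : Emb (3 * k) k c lam) (p : ℕ) (hp : p < k)
    (l : ℕ) : (XL k c lam p l).card = (KK (3 * k) lam p l).card := by
  classical
  -- the labels on page q
  set L : ℕ → Finset ℕ := fun q => (range (3 * k)).image (lam q) with hL
  have h1 : ∀ q, ∑ l ∈ L q, (KK (3 * k) lam q l).card = 3 * k := by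
    intro q
    have := Finset.card_eq_sum_card_image (lam q) (range (3 * k))
    rw [Finset.card_range] at this
    exact this.symm
  have h2 : ∀ q, ∑ l ∈ L q, (XL k c lam q l).card = (XP k c q).card := by
    intro q
    symm
    refine Finset.card_eq_sum_card_fiberwise (f := fun e : ℕ × ℕ => lam q e.1) (t := L q) ?_
    intro e he
    simp only [XP, XX, coe_filter, Set.mem_ofPred_eq, mem_filter, mem_product, mem_range] at he
    simp only [hL, coe_image, Set.mem_image, coe_range, Set.mem_Iio]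
    exact ⟨e.1, he.1.1.1, rfl⟩
  have h3 : ∀ q, (XP k c q).card ≤ 3 * k := by
    intro q
    rw [← h1 q, ← h2 q]
    exact Finset.sum_le_sum fun l _ => XL_le h q l
  have h4 : ∑ q ∈ range k, (XP k c q).card = (XX k).card := by
    symm
    refine Finset.card_eq_sum_card_fiberwise (f := fun e : ℕ × ℕ => c e.1 e.2) (t := range k) ?_
    intro e he
    simp only [XX, coe_filter, Set.mem_ofPred_eq, mem_product, mem_range] at he
    simp only [coe_range, Set.mem_Iio]
    exact h.lt _ _ he.2.1 (by omega)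
  have h5 := XX_card k hk
  have h6 : ∀ q ∈ range k, (XP k c q).card = 3 * k := by
    have h7 : ∑ q ∈ range k, (XP k c q).card ≤ ∑ _q ∈ range k, 3 * k :=
      Finset.sum_le_sum fun q _ => h3 q
    have h8 : ∑ _q ∈ range k, 3 * k = 3 * k * k := by
      rw [Finset.sum_const, Finset.card_range, smul_eq_mul]
      ring
    have h9 : ∑ q ∈ range k, (XP k c q).card = ∑ _q ∈ range k, 3 * k := by omega
    exact (Finset.sum_eq_sum_iff_of_le fun q _ => h3 q).1 h9
  have h7 : ∑ l ∈ L p, (XL k c lam p l).card = ∑ l ∈ L p, (KK (3 * k) lam p l).card := by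
    rw [h1, h2, h6 p (mem_range.2 hp)]
  by_cases hl : l ∈ L p
  · exact (Finset.sum_eq_sum_iff_of_le fun q _ => XL_le h p q).1 h7 l hl
  · have e1 : KK (3 * k) lam p l = ∅ := by
      rw [Finset.eq_empty_iff_forall_notMem]
      intro i hi
      simp only [KK, mem_filter, mem_range] at hi
      exact hl (Finset.mem_image.2 ⟨i, mem_range.2 hi.1, hi.2⟩)
    have e2 := XL_le h p l
    rw [e1, Finset.card_empty] at e2 ⊢
    omega

end Pool.Agent.Lib.MP_a966e6_co.PNU.Neg
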