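import Pool.Agent.Lib.MP_a966e6_co.PNU.NegA
import Pool.Agent.Lib.MP_a966e6_co.PNU.Neg.Def

/-! The structure of a union embedding of `K_{3k}` with `k` pages, part 2: hull chords, triangulated components. -/

set_option autoImplicit false

namespace Pool.Agent.Lib.MP_a966e6_co.PNU.Neg

open Finset Pool.Agent.Lib.MP_a966e6_co.PNU

variable {k : ℕ} {c lam : ℕ → ℕ → ℕ}

theorem Emb.per2 {n : ℕ} (h : Emb n k c lam) (i j : ℕ) : c i (j + n) = c i j := by
  rw [h.symm, h.per, h.symm]

theorem Emb.perl' {n : ℕ} (h : Emb n k c lam) (p i : ℕ) : lam p (i + n) = lam p i := h.perl p i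

theorem maximal_base (hk : 0 < k) (h : Emb (3 * k) k c lam) (p : ℕ) (hp : p < k) (Y : ℕ)
    (h1 : k - 1 < Y) (h2 : Y < 3 * k) (hl : lam p (k - 1) = lam p Y) (hc : c (k - 1) Y ≠ p) :
    ∃ a b, k - 1 < a ∧ a < Y ∧ Y < b ∧ b < k - 1 + 3 * k ∧ c a b = p ∧ lam p a = lam p (k - 1) := by
  classical
  by_contra hno
  push Not at hno
  set l := lam p (k - 1) with hldef
  have hY : 1 ≤ Y / k := (Nat.one_le_div_iff hk).2 (by omega)
  have hX : (k - 1) / k = 0 := Nat.div_eq_of_lt (by omega)
  have hnot : (k - 1, Y) ∉ XL k c lam p l := by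
    intro h3
    simp only [XL, XP, mem_filter] at h3
    exact hc h3.1.2
  have hXL : ∀ e ∈ XL k c lam p l, c e.1 e.2 = p ∧ lam p e.1 = l ∧ e.1 < 3 * k ∧ e.2 < 3 * k ∧ e.1 < e.2 := by
    intro e he
    simp only [XL, XP, XX, mem_filter, mem_product, mem_range] at he
    exact ⟨he.1.2, he.2, he.1.1.1.1, he.1.1.1.2, he.1.1.2.1⟩
  have hb := nc_bound k (KK (3 * k) lam p l) (insert (k - 1, Y) (XL k c lam p l)) ?_ ?_
  · rw [Finset.card_insert_of_notMem hnot, XL_eq hk h p hp l] at hb
    omega
  · intro e he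
    rw [mem_insert] at he
    rcases he with rfl | he
    · simp only [KK, mem_filter, mem_range]
      refine ⟨⟨by omega, hldef.symm⟩, ⟨h2, hl.symm⟩, h1, h2, ?_⟩
      omega
    · exact XL_mem h p l e he
  · intro e he e' he'
    rw [mem_insert] at he he'
    rcases he with rfl | he <;> rcases he' with rfl | he'
    · intro h3; exact absurd h3.1 (lt_irrefl _)
    · obtain ⟨g1, g2, g3, g4, g5⟩ := hXL e' he'
      rintro ⟨h3, h4, h5⟩
      exact hno e'.1 e'.2 h3 h4 h5 (by omega) g1 g2
    · obtain ⟨g1, g2, g3, g4, g5⟩ := hXL e he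
      rintro ⟨h3, h4, h5⟩
      refine hno e.2 (e.1 + 3 * k) h4 h5 (by omega) ?_ ?_ ?_
      · have : e.1 < k - 1 := h3
        omega
      · rw [h.per2, h.symm]
        exact g1
      · have := h.same e.1 e.2 g5 (by omega)
        rw [g1] at this
        rw [← this, g2]
    · exact XL_nc h p l e he e' he'

theorem next_base (hk : 0 < k) (h : Emb (3 * k) k c lam) (p : ℕ) (hp : p < k) :
    ∃ d, 1 ≤ d ∧ d ≤ k ∧ c (k - 1) (k - 1 + d) = p ∧
      ∀ z, k - 1 < z → z < k - 1 + d → lam p z ≠ lam p (k - 1) := by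
  classical
  set l := lam p (k - 1) with hldef
  by_cases hA : ∃ z, k ≤ z ∧ z < 2 * k ∧ lam p z = l
  · obtain ⟨h1, h2, h3⟩ := Nat.find_spec hA
    have hmin : ∀ m, m < Nat.find hA → ¬ (k ≤ m ∧ m < 2 * k ∧ lam p m = l) := fun m hm => Nat.find_min hA hm
    set Y := Nat.find hA with hY
    refine ⟨Y - (k - 1), by omega, by omega, ?_, ?_⟩
    · rw [show k - 1 + (Y - (k - 1)) = Y by omega]
      by_contra hne
      obtain ⟨a, b, g1, g2, g3, g4, g5, g6⟩ := maximal_base hk h p hp Y (by omega) (by omega)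
        (by rw [h3]) hne
      exact hmin a g2 ⟨by omega, by omega, g6⟩
    · intro z hz1 hz2 hz3
      exact hmin z (by omega) ⟨by omega, by omega, hz3⟩
  · exfalso
    push Not at hA
    have hXL : ∀ e ∈ XL k c lam p l, e.1 < 3 * k ∧ e.2 < 3 * k ∧ e.1 < e.2 ∧ lam p e.1 = l ∧ lam p e.2 = l ∧
        e.1 / k < e.2 / k := by
      intro e he
      have h1 := XL_mem h p l e he
      simp only [KK, mem_filter, mem_range] at h1
      exact ⟨h1.1.1, h1.2.1.1, h1.2.2.1, h1.1.2, h1.2.1.2, h1.2.2.2.2⟩
    by_cases hB : ∃ z, 2 * k ≤ z ∧ z < 3 * k ∧ lam p z = l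
    · obtain ⟨h1, h2, h3⟩ := Nat.find_spec hB
      have hmin : ∀ m, m < Nat.find hB → ¬ (2 * k ≤ m ∧ m < 3 * k ∧ lam p m = l) :=
        fun m hm => Nat.find_min hB hm
      set Y := Nat.find hB with hY
      have hkK : k ∉ KK (3 * k) lam p l := by
        intro hx
        simp only [KK, mem_filter] at hx
        exact hA k le_rfl (by omega) hx.2
      have n1 : (k, Y) ∉ XL k c lam p l := by
        intro hx
        exact hkK (XL_mem h p l _ hx).1
      have n2 : (k - 1, k) ∉ insert (k, Y) (XL k c lam p l) := by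
        intro hx
        rw [mem_insert] at hx
        rcases hx with hx | hx
        · have := congrArg Prod.fst hx
          simp only at this
          omega
        · exact hkK (XL_mem h p l _ hx).2.1
      have hb := nc_bound k (insert k (KK (3 * k) lam p l))
        (insert (k - 1, k) (insert (k, Y) (XL k c lam p l))) ?_ ?_
      · rw [Finset.card_insert_of_notMem n2, Finset.card_insert_of_notMem n1,
          Finset.card_insert_of_notMem hkK, XL_eq hk h p hp l] at hb
        omega
      · intro e he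
        rw [mem_insert, mem_insert] at he
        rcases he with rfl | rfl | he
        · simp only [KK, mem_insert, mem_filter, mem_range]
          have e1 : (k - 1) / k = 0 := Nat.div_eq_of_lt (by omega)
          have e2 : k / k = 1 := Nat.div_self hk
          refine ⟨Or.inr ⟨by omega, hldef.symm⟩, Or.inl trivial, by omega, by omega, by omega⟩
        · simp only [KK, mem_insert, mem_filter, mem_range]
          have e1 : k / k = 1 := Nat.div_self hk
          have e2 : 2 ≤ Y / k := (Nat.le_div_iff_mul_le hk).2 h1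
          refine ⟨Or.inl trivial, Or.inr ⟨h2, h3⟩, by omega, h2, by omega⟩
        · have := XL_mem h p l e he
          exact ⟨mem_insert_of_mem this.1, mem_insert_of_mem this.2.1, this.2.2⟩
      · intro e he e' he'
        rw [mem_insert, mem_insert] at he he'
        rcases he with rfl | rfl | he <;> rcases he' with rfl | rfl | he'
        · rintro ⟨h4, h5, h6⟩; exact absurd h4 (lt_irrefl _)
        · rintro ⟨h4, h5, h6⟩
          exact absurd h5 (lt_irrefl _)
        · rintro ⟨h4, h5, h6⟩
          simp only at h4 h5 h6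
          omega
        · rintro ⟨h4, h5, h6⟩
          simp only at h4 h5 h6
          omega
        · rintro ⟨h4, h5, h6⟩; exact absurd h4 (lt_irrefl _)
        · obtain ⟨g1, g2, g3, g4, g5, g6⟩ := hXL e' he'
          rintro ⟨h4, h5, h6⟩
          simp only at h4 h5 h6
          rcases lt_or_ge e'.1 (2 * k) with hh | hh
          · exact hA e'.1 (by omega) hh g4
          · exact hmin e'.1 h5 ⟨hh, g1, g4⟩
        · obtain ⟨g1, g2, g3, g4, g5, g6⟩ := hXL e he
          rintro ⟨h4, h5, h6⟩
          simp only at h4 h5 h6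
          omega
        · obtain ⟨g1, g2, g3, g4, g5, g6⟩ := hXL e he
          rintro ⟨h4, h5, h6⟩
          simp only at h4 h5 h6
          rcases lt_or_ge e.2 (2 * k) with hh | hh
          · exact hA e.2 (by omega) hh g5
          · exact hmin e.2 h6 ⟨hh, g2, g5⟩
        · exact XL_nc h p l e he e' he'
    · push Not at hB
      have he : XL k c lam p l = ∅ := by
        rw [Finset.eq_empty_iff_forall_notMem]
        intro e he
        obtain ⟨g1, g2, g3, g4, g5, g6⟩ := hXL e he
        have hlt : e.2 < k := by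
          by_contra hge
          rcases lt_or_ge e.2 (2 * k) with hh | hh
          · exact hA e.2 (by omega) hh g5
          · exact hB e.2 hh g2 g5
        rw [Nat.div_eq_of_lt hlt] at g6
        exact absurd g6 (Nat.not_lt_zero _)
      have h1 := XL_eq hk h p hp l
      rw [he, Finset.card_empty] at h1
      have h2 : k - 1 ∈ KK (3 * k) lam p l := by
        simp only [KK, mem_filter, mem_range]
        exact ⟨by omega, hldef.symm⟩
      rw [Finset.card_eq_zero.1 h1.symm] at h2
      exact absurd h2 (Finset.notMem_empty _)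

/-- on every page the next vertex of the component of `x` is at distance at most `k`, and the chord is on the page -/
theorem next (hk : 0 < k) (h : Emb (3 * k) k c lam) (p : ℕ) (hp : p < k) (x : ℕ) :
    ∃ d, 1 ≤ d ∧ d ≤ k ∧ c x (x + d) = p ∧ ∀ z, x < z → z < x + d → lam p z ≠ lam p x := by
  obtain ⟨d, h1, h2, h3, h4⟩ := next_base hk (h.shift (x + 3 * k - (k - 1))) p hp
  have e1 : k - 1 + (x + 3 * k - (k - 1)) = x + 3 * k := by omega
  have e2 : k - 1 + d + (x + 3 * k - (k - 1)) = x + d + 3 * k := by omega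
  rw [e1, e2, h.per2, h.per] at h3
  refine ⟨d, h1, h2, h3, ?_⟩
  intro z hz1 hz2
  have h5 := h4 (k - 1 + (z - x)) (by omega) (by omega)
  rw [e1, show k - 1 + (z - x) + (x + 3 * k - (k - 1)) = z + 3 * k by omega, h.perl, h.perl] at h5
  exact h5

theorem t2 (hk : 0 < k) (h : Emb (3 * k) k c lam) (v d e : ℕ) (h1 : 1 ≤ d) (h2 : d < e) (h3 : e ≤ k) :
    c v (v + d) ≠ c v (v + e) := by
  let f : Fin k → Fin k := fun d => ⟨c v (v + (d.1 + 1)), h.lt _ _ (by omega) (by have := d.2; omega)⟩
  have hs : Function.Surjective f := by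
    intro p
    obtain ⟨d, g1, g2, g3, g4⟩ := next hk h p.1 p.2 v
    refine ⟨⟨d - 1, by omega⟩, ?_⟩
    apply Fin.ext
    show c v (v + (d - 1 + 1)) = p.1
    rw [show d - 1 + 1 = d by omega, g3]
  have hi : Function.Injective f := Finite.injective_iff_surjective.2 hs
  intro he
  have : (⟨d - 1, by omega⟩ : Fin k) = ⟨e - 1, by omega⟩ := by
    apply hi
    apply Fin.ext
    show c v (v + (d - 1 + 1)) = c v (v + (e - 1 + 1))
    rw [show d - 1 + 1 = d by omega, show e - 1 + 1 = e by omega, he]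
  have := congrArg Fin.val this
  simp only at this
  omega

/-- chords of length at most `k` are hull chords -/
theorem hull (hk : 0 < k) (h : Emb (3 * k) k c lam) (x d : ℕ) (h1 : 1 ≤ d) (h2 : d ≤ k) (z : ℕ)
    (h3 : x < z) (h4 : z < x + d) : lam (c x (x + d)) z ≠ lam (c x (x + d)) x := by
  obtain ⟨e, g1, g2, g3, g4⟩ := next hk h (c x (x + d)) (h.lt _ _ (by omega) (by omega)) x
  have : e = d := by
    rcases lt_trichotomy e d with h5 | h5 | h5
    · exact absurd g3 (t2 hk h x e d g1 h5 h2)
    · exact h5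
    · exact absurd g3.symm (t2 hk h x d e h1 h5 g2)
  subst this
  exact g4 z h3 h4

theorem maximal_up (hk : 0 < k) (h : Emb (3 * k) k c lam) (p : ℕ) (hp : p < k) (X Y : ℕ)
    (h0 : k - 1 ≤ X) (h1 : X < Y) (h2 : Y ≤ X + 2 * k) (hl : lam p X = lam p Y) (hc : c X Y ≠ p) :
    ∃ a b, X < a ∧ a < Y ∧ Y < b ∧ b < X + 3 * k ∧ c a b = p ∧ lam p a = lam p X := by
  obtain ⟨a, b, g1, g2, g3, g4, g5, g6⟩ := maximal_base hk (h.shift (X - (k - 1))) p hp
    (Y - (X - (k - 1))) (by omega) (by omega) (by
      rw [show k - 1 + (X - (k - 1)) = X by omega, show Y - (X - (k - 1)) + (X - (k - 1)) = Y by omega]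
      exact hl) (by
      rw [show k - 1 + (X - (k - 1)) = X by omega, show Y - (X - (k - 1)) + (X - (k - 1)) = Y by omega]
      exact hc)
  refine ⟨a + (X - (k - 1)), b + (X - (k - 1)), by omega, by omega, by omega, by omega, g5, ?_⟩
  rw [g6, show k - 1 + (X - (k - 1)) = X by omega]

theorem maximal_short (hk : 0 < k) (h : Emb (3 * k) k c lam) (p : ℕ) (hp : p < k) (X Y : ℕ)
    (h1 : X < Y) (h2 : Y ≤ X + 2 * k) (hl : lam p X = lam p Y) (hc : c X Y ≠ p) :
    ∃ a b, X < a ∧ a < Y ∧ Y < b ∧ b < X + 3 * k ∧ c a b = p ∧ lam p a = lam p X := by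
  obtain ⟨a, b, g1, g2, g3, g4, g5, g6⟩ := maximal_up hk h p hp (X + 3 * k) (Y + 3 * k) (by omega)
    (by omega) (by omega) (by rw [h.perl, h.perl]; exact hl) (by rw [h.per, h.per2]; exact hc)
  refine ⟨a - 3 * k, b - 3 * k, by omega, by omega, by omega, by omega, ?_, ?_⟩
  · rw [← h.per, ← h.per2, show a - 3 * k + 3 * k = a by omega, show b - 3 * k + 3 * k = b by omega]
    exact g5
  · rw [← h.perl, show a - 3 * k + 3 * k = a by omega, g6, h.perl]

/-- two vertices of one component whose chord is not on the page are separated by a chord of the component -/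
theorem maximal (hk : 0 < k) (h : Emb (3 * k) k c lam) (p : ℕ) (hp : p < k) (X Y : ℕ)
    (h1 : X < Y) (h2 : Y < X + 3 * k) (hl : lam p X = lam p Y) (hc : c X Y ≠ p) :
    ∃ a b, X < a ∧ a < Y ∧ Y < b ∧ b < X + 3 * k ∧ c a b = p ∧ lam p a = lam p X := by
  rcases le_or_gt Y (X + 2 * k) with h3 | h3
  · exact maximal_short hk h p hp X Y h1 h3 hl hc
  · obtain ⟨a, b, g1, g2, g3, g4, g5, g6⟩ := maximal_short hk h p hp Y (X + 3 * k) (by omega)
      (by omega) (by rw [h.perl]; exact hl.symm) (by rw [h.per2, h.symm]; exact hc)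
    have hs := h.same a b (by omega) (by omega)
    rw [g5] at hs
    refine ⟨b - 3 * k, a, by omega, by omega, by omega, by omega, ?_, ?_⟩
    · rw [← h.per, show b - 3 * k + 3 * k = b by omega, h.symm]
      exact g5
    · rw [← h.perl, show b - 3 * k + 3 * k = b by omega, ← hs, g6, hl]

theorem t2' (hk : 0 < k) (h : Emb (3 * k) k c lam) (v d e : ℕ) (h1 : 1 ≤ d) (h2 : d < e) (h3 : e ≤ k) :
    c v (v + (3 * k - d)) ≠ c v (v + (3 * k - e)) := by
  intro he
  have e1 : c (v + (3 * k - e)) (v + (3 * k - e) + e) = c v (v + (3 * k - e)) := by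
    rw [show v + (3 * k - e) + e = v + 3 * k by omega, h.per2, h.symm]
  have e2 : c (v + (3 * k - d)) (v + 3 * k) = c v (v + (3 * k - e)) := by
    rw [h.per2, h.symm, he]
  have h4 := hull hk h (v + (3 * k - e)) e (by omega) h3 (v + (3 * k - d)) (by omega) (by omega)
  rw [e1] at h4
  have s1 := h.same (v + (3 * k - e)) (v + (3 * k - e) + e) (by omega) (by omega)
  rw [e1] at s1
  have s2 := h.same (v + (3 * k - d)) (v + 3 * k) (by omega) (by omega)
  rw [e2] at s2
  apply h4
  rw [s2, s1, show v + (3 * k - e) + e = v + 3 * k by omega]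

theorem t3 (hk : 0 < k) (h : Emb (3 * k) k c lam) (v y z : ℕ) (h1 : 1 ≤ y) (h2 : y < z) (h3 : z < 3 * k)
    (h4 : c v (v + y) = c v (v + z)) (h5 : ∀ w, y < w → w < z → c v (v + w) ≠ c v (v + y)) :
    c (v + y) (v + z) = c v (v + y) := by
  obtain ⟨p, hp⟩ : ∃ p, p = c v (v + y) := ⟨_, rfl⟩
  have hpk : p < k := by rw [hp]; exact h.lt _ _ (by omega) (by omega)
  have s1 := h.same v (v + y) (by omega) (by omega)
  have s2 := h.same v (v + z) (by omega) (by omega)
  rw [← h4] at s2
  rw [← hp] at h4 h5 s1 s2 ⊢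
  by_contra hne
  obtain ⟨a, b, g1, g2, g3, g4, g5, g6⟩ := maximal hk h p hpk (v + y) (v + z) (by omega) (by omega)
    (by rw [← s1, ← s2]) hne
  rcases lt_trichotomy b (v + 3 * k) with hb | hb | hb
  · refine h.nc v a (v + z) b (by omega) g2 g3 hb ?_ ?_
    · rw [← h4, g5]
    · rw [← h4, g6, s1]
  · rw [hb, h.per2, h.symm] at g5
    refine h5 (a - v) (by omega) (by omega) ?_
    rw [show v + (a - v) = a by omega]
    exact g5
  · have s3 := h.same a b (by omega) (by omega)
    rw [g5] at s3
    have e1 : c (b - 3 * k) a = p := by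
      rw [← h.per, show b - 3 * k + 3 * k = b by omega, h.symm]
      exact g5
    refine h.nc v (b - 3 * k) (v + y) a (by omega) (by omega) g1 (by omega) ?_ ?_
    · rw [e1, hp]
    · rw [← hp, ← h.perl p (b - 3 * k), show b - 3 * k + 3 * k = b by omega, ← s3, g6, s1]

theorem t4 (h : Emb (3 * k) k c lam) (a b e d : ℕ) (h1 : a < b) (h2 : b < e) (h3 : e < d)
    (h4 : d < a + 3 * k) (h5 : c a e = c b d) :
    c a b ≠ c a e ∧ c b e ≠ c a e ∧ c e d ≠ c a e ∧ c a d ≠ c a e := by
  have s0 := h.same a e (by omega) (by omega)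
  have s1 := h.same b d (by omega) (by omega)
  rw [← h5] at s1
  have hno : lam (c a e) a ≠ lam (c a e) b := fun h6 => h.nc a b e d h1 h2 h3 h4 h5 h6
  refine ⟨?_, ?_, ?_, ?_⟩
  · intro h6
    have s2 := h.same a b (by omega) (by omega)
    rw [h6] at s2
    exact hno s2
  · intro h6
    have s2 := h.same b e (by omega) (by omega)
    rw [h6] at s2
    exact hno (s0.trans s2.symm)
  · intro h6
    have s2 := h.same e d (by omega) (by omega)
    rw [h6] at s2
    exact hno (s0.trans (s2.trans s1.symm))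
  · intro h6
    have s2 := h.same a d (by omega) (by omega)
    rw [h6] at s2
    exact hno (s2.trans s1.symm)

theorem Emb.mod_left {n : ℕ} (h : Emb n k c lam) (x y : ℕ) : c x y = c (x % n) y := by
  have hmul : ∀ z q, c (z + n * q) y = c z y := by
    intro z q
    induction q with
    | zero => simp
    | succ q ih => rw [Nat.mul_succ, ← add_assoc, h.per, ih]
  conv_lhs => rw [show x = x % n + n * (x / n) from (Nat.mod_add_div x n).symm]
  exact hmul _ _

theorem tcol (hk : 0 < k) (h : Emb (3 * k) k c lam) : TCol k c where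
  lt := by
    intro x y hx hy hxy
    rcases lt_or_gt_of_ne hxy with h1 | h1
    · exact h.lt x y h1 (by omega)
    · rw [h.symm]
      exact h.lt y x h1 (by omega)
  symm := h.symm
  per := by
    intro x y
    rw [h.mod_left, h.symm, h.mod_left, h.symm]
  t2 := t2 hk h
  t2' := t2' hk h
  t3 := t3 hk h
  t4 := fun a b e d h1 h2 h3 h4 h5 => t4 h a b e d h1 h2 h3 h4 h5

/-- a union embedding of `K_{3k}` with `k` pages gives a colouring with the properties `TCol` -/
theorem exists_tcol (hk : 0 < k) (r : Fin (3 * k) → ℕ) (c : Sym2 (Fin (3 * k)) → ℕ)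
    (h : IsUnionEmbedding (⊤ : SimpleGraph (Fin (3 * k))) r c)
    (hc : ∀ e ∈ (⊤ : SimpleGraph (Fin (3 * k))).edgeSet, c e < k) : ∃ c', TCol k c' := by
  obtain ⟨c', lam, h1⟩ := exists_emb (by omega) r c h hc
  exact ⟨c', tcol hk h1⟩

/-- without such a colouring, `K_{3k}` needs `k + 1` pages -/
theorem lt_unionPN (k : ℕ) (hk : 0 < k) (h : ¬ ∃ c, TCol k c) :
    k < unionPageNumber (⊤ : SimpleGraph (Fin (3 * k))) := by
  have h1 := le_unionPN (3 * k) (by omega)
  obtain ⟨r, c, h2, h3⟩ := unionPN_spec (3 * k) (by omega)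
  rcases lt_or_eq_of_le (show k ≤ unionPageNumber (⊤ : SimpleGraph (Fin (3 * k))) by omega) with h4 | h4
  · exact h4
  · exfalso
    rw [← h4] at h3
    exact h (exists_tcol hk r c h2 h3)

end Pool.Agent.Lib.MP_a966e6_co.PNU.Neg
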