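import Pool.Agent.Lib.MP_a966e6_co.PNU.NegB

/-! `K_5` has no union embedding with 2 pages, and no colouring `TCol 2` exists. -/

set_option autoImplicit false

namespace Pool.Agent.Lib.MP_a966e6_co.PNU.Neg

open Pool.Agent.Lib.MP_a966e6_co.PNU

/-- if no cyclic union embedding with `k` pages exists, more than `k` pages are needed -/
theorem lt_of_no_emb (n k : ℕ) (hn : 2 ≤ n) (h : ∀ c lam, ¬ Emb n k c lam) :
    k < unionPageNumber (⊤ : SimpleGraph (Fin n)) := by
  by_contra h1
  obtain ⟨r, c, h2, h3⟩ := unionPN_spec n hn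
  obtain ⟨c', lam, h4⟩ := exists_emb (k := k) (by omega) r c h2
    (fun e he => lt_of_lt_of_le (h3 e he) (not_lt.1 h1))
  exact h c' lam h4

theorem five_aux {c lam : ℕ → ℕ → ℕ} (h : Emb 5 2 c lam) (h0 : c 0 2 = c 1 3) : False := by
  obtain ⟨p, hp⟩ : ∃ p, p = c 0 2 := ⟨_, rfl⟩
  have hp2 : p < 2 := by rw [hp]; exact h.lt 0 2 (by norm_num) (by norm_num)
  have hne : lam p 0 ≠ lam p 1 := by
    intro h1
    refine h.nc 0 1 2 3 (by norm_num) (by norm_num) (by norm_num) (by norm_num) h0 ?_
    rw [← hp]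
    exact h1
  have a02 := h.same 0 2 (by norm_num) (by norm_num)
  have a13 := h.same 1 3 (by norm_num) (by norm_num)
  rw [← hp] at a02
  rw [← h0, ← hp] at a13
  have hq : ∀ i j, i < j → j < i + 5 → c i j ≠ p → c i j = 1 - p := by
    intro i j h1 h2 h3
    have := h.lt i j h1 h2
    omega
  have b01 : c 0 1 ≠ p := by
    intro h1
    have := h.same 0 1 (by norm_num) (by norm_num)
    rw [h1] at this
    exact hne this
  have b03 : c 0 3 ≠ p := by
    intro h1
    have := h.same 0 3 (by norm_num) (by norm_num)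
    rw [h1] at this
    exact hne (this.trans a13.symm)
  have b12 : c 1 2 ≠ p := by
    intro h1
    have := h.same 1 2 (by norm_num) (by norm_num)
    rw [h1] at this
    exact hne (a02.trans this.symm)
  have e01 := hq 0 1 (by norm_num) (by norm_num) b01
  have e03 := hq 0 3 (by norm_num) (by norm_num) b03
  have e12 := hq 1 2 (by norm_num) (by norm_num) b12
  have s01 := h.same 0 1 (by norm_num) (by norm_num)
  have s12 := h.same 1 2 (by norm_num) (by norm_num)
  rw [e01] at s01
  rw [e12] at s12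
  have f14 : c 1 4 = p := by
    by_contra h1
    have h2 := hq 1 4 (by norm_num) (by norm_num) h1
    exact h.nc 0 1 3 4 (by norm_num) (by norm_num) (by norm_num) (by norm_num) (by rw [e03, h2])
      (by rw [e03]; exact s01)
  have f24 : c 2 4 = p := by
    by_contra h1
    have h2 := hq 2 4 (by norm_num) (by norm_num) h1
    exact h.nc 0 2 3 4 (by norm_num) (by norm_num) (by norm_num) (by norm_num) (by rw [e03, h2])
      (by rw [e03]; exact s01.trans s12)
  have g14 := h.same 1 4 (by norm_num) (by norm_num)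
  have g24 := h.same 2 4 (by norm_num) (by norm_num)
  rw [f14] at g14
  rw [f24] at g24
  exact hne (a02.trans (g24.trans g14.symm))

theorem no_emb5 (c lam : ℕ → ℕ → ℕ) : ¬ Emb 5 2 c lam := by
  intro h
  have key : ∀ v, c v (v + 2) ≠ c (v + 1) (v + 3) := by
    intro v h1
    refine five_aux (h.shift v) ?_
    show c (0 + v) (2 + v) = c (1 + v) (3 + v)
    rw [show 0 + v = v by ring, show 2 + v = v + 2 by ring, show 1 + v = v + 1 by ring,
      show 3 + v = v + 3 by ring]
    exact h1
  have k0 := key 0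
  have k1 := key 1
  have k2 := key 2
  have k3 := key 3
  have k4 := key 4
  have l : ∀ v, c v (v + 2) < 2 := fun v => h.lt _ _ (by omega) (by omega)
  have l0 := l 0
  have l1 := l 1
  have l2 := l 2
  have l3 := l 3
  have l4 := l 4
  have e : c 5 7 = c 0 2 := by
    have h1 := h.per 0 7
    have h2 := h.per2 0 2
    norm_num at h1 h2
    rw [h1, h2]
  norm_num at k0 k1 k2 k3 k4 l0 l1 l2 l3 l4
  rw [e] at k4
  omega

/-- the union page number of `K_5` is at least 3 -/
theorem five : 2 < unionPageNumber (⊤ : SimpleGraph (Fin 5)) := lt_of_no_emb 5 2 (by norm_num) no_emb5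

theorem no_tcol2 : ¬ ∃ c, TCol 2 c := by
  rintro ⟨c, h⟩
  have hlt : ∀ x y, x % 6 ≠ y % 6 → c x y < 2 := by
    intro x y hxy
    rw [h.per]
    exact h.lt _ _ (Nat.mod_lt _ (by norm_num)) (Nat.mod_lt _ (by norm_num)) hxy
  have p2 : ∀ x y, c x (y + 6) = c x y := by
    intro x y
    rw [h.per, h.per x y]
    norm_num
  -- short chords
  have hs : ∀ v, c v (v + 1) = c (v + 1) (v + 2) := by
    intro v
    have h1 := h.t2 v 1 2 (by norm_num) (by norm_num) (by norm_num)
    have h2 := h.t2' (v + 2) 1 2 (by norm_num) (by norm_num) (by norm_num)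
    rw [show v + 2 + (3 * 2 - 1) = v + 1 + 6 by omega, show v + 2 + (3 * 2 - 2) = v + 6 by omega,
      p2, p2, h.symm (v + 2) (v + 1), h.symm (v + 2) v] at h2
    have l1 := hlt v (v + 1) (by omega)
    have l2 := hlt v (v + 2) (by omega)
    have l3 := hlt (v + 1) (v + 2) (by omega)
    omega
  have h01 : ∀ v, c v (v + 1) = c 0 1 := by
    intro v
    induction v with
    | zero => rfl
    | succ v ih => rw [← hs v, ih]
  have h02 : ∀ v, c v (v + 2) ≠ c 0 1 := by
    intro v h1
    rw [← h01 v] at h1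
    exact h.t2 v 1 2 (by norm_num) (by norm_num) (by norm_num) h1.symm
  have h03 : ∀ v, c v (v + 3) = c 0 1 := by
    intro v
    by_contra h1
    have h5 : c v (v + 5) = c v (v + 1) := by
      rw [h.symm, ← p2, show v + 6 = v + 5 + 1 by omega, h01 (v + 5), h01 v]
    have h6 := h.t3 v 1 5 (by norm_num) (by norm_num) (by norm_num) h5.symm (by
      intro w hw1 hw2
      rw [h01 v]
      have : w = 2 ∨ w = 3 ∨ w = 4 := by omega
      rcases this with rfl | rfl | rfl
      · exact h02 v
      · exact h1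
      · rw [h.symm, ← p2, show v + 6 = v + 4 + 2 by omega]
        exact h02 (v + 4))
    rw [h.symm, ← p2, show v + 1 + 6 = v + 5 + 2 by omega, h01 v] at h6
    exact h02 (v + 5) h6
  have h4 := h.t4 0 1 3 4 (by norm_num) (by norm_num) (by norm_num) (by norm_num)
    (by rw [show (3 : ℕ) = 0 + 3 by norm_num, h03, show (4 : ℕ) = 1 + 3 by norm_num, h03])
  exact h4.1 (h03 0).symm

theorem six : 2 < unionPageNumber (⊤ : SimpleGraph (Fin 6)) := lt_unionPN 2 (by norm_num) no_tcol2

end Pool.Agent.Lib.MP_a966e6_co.PNU.Neg
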