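import Pool.Agent.Lib.MP_a966e6_co.PNU.Loc
import Pool.Agent.Lib.MP_a966e6_co.PNU.Frame

/-! Union embeddings of `K_n` from systems of pages; `⌈n / 3⌉ ≤ pn_l ≤ pn_u`. -/

set_option autoImplicit false

namespace Pool.Agent.Lib.MP_a966e6_co.PNU

theorem pageGraph_adj {V : Type} (G : SimpleGraph V) (c : Sym2 V → ℕ) (p : ℕ) (u v : V) :
    (pageGraph G c p).Adj u v ↔ G.Adj u v ∧ c s(u, v) = p := by
  unfold pageGraph
  rw [SimpleGraph.fromEdgeSet_adj]
  simp only [Set.mem_ofPred_eq, SimpleGraph.mem_edgeSet]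
  constructor
  · rintro ⟨h, _⟩
    exact h
  · rintro h
    exact ⟨h, h.1.ne⟩

theorem local_of_union {V : Type} [Finite V] (G : SimpleGraph V) (r : V → ℕ) (c : Sym2 V → ℕ)
    (k : ℕ) (hu : IsUnionEmbedding G r c) (hk : ∀ e ∈ G.edgeSet, c e < k) :
    ∃ c' : Sym2 V → ℕ, IsBookEmbedding G r c' ∧ IsLocal G c' k := by
  classical
  obtain ⟨hr, hnc⟩ := hu
  obtain ⟨φ, hφ⟩ := Countable.exists_injective_nat (ℕ × Set V)
  set comp : Sym2 V → Set V := fun e => {v | ∃ a ∈ e, (pageGraph G c (c e)).Reachable a v}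
    with hcomp
  have hce : ∀ u v, G.Adj u v → comp s(u, v) =
      {w | (pageGraph G c (c s(u, v))).Reachable u w} := by
    intro u v huv
    ext w
    simp only [hcomp, Set.mem_ofPred_eq, Sym2.mem_iff]
    constructor
    · rintro ⟨a, ha | ha, h⟩
      · subst ha; exact h
      · subst ha
        have : (pageGraph G c (c s(u, a))).Adj u a := (pageGraph_adj _ _ _ _ _).2 ⟨huv, rfl⟩
        exact this.reachable.trans h
    · intro h
      exact ⟨u, Or.inl rfl, h⟩
  refine ⟨fun e => φ (c e, comp e), ⟨hr, ?_⟩, ?_⟩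
  · intro e he f hf hef
    induction e using Sym2.ind with
    | _ u v =>
      induction f using Sym2.ind with
      | _ x y =>
        rw [SimpleGraph.mem_edgeSet] at he hf
        have h1 := hφ hef
        rw [Prod.mk.injEq] at h1
        obtain ⟨h2, h3⟩ := h1
        apply hnc (c s(u, v)) u v x y
        · exact (pageGraph_adj _ _ _ _ _).2 ⟨he, rfl⟩
        · exact (pageGraph_adj _ _ _ _ _).2 ⟨hf, h2.symm⟩
        · rw [hce _ _ he, hce _ _ hf] at h3
          have : x ∈ {w | (pageGraph G c (c s(x, y))).Reachable x w} := SimpleGraph.Reachable.refl _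
          rw [← h3] at this
          exact this
  · intro v
    have hsub : {p : ℕ | ∃ w, G.Adj v w ∧ φ (c s(v, w), comp s(v, w)) = p} ⊆
        (fun p => φ (p, {w | (pageGraph G c p).Reachable v w})) '' (Set.Iio k) := by
      rintro p ⟨w, hw, rfl⟩
      refine ⟨c s(v, w), ?_, ?_⟩
      · exact hk _ ((SimpleGraph.mem_edgeSet _).2 hw)
      · simp only
        rw [hce _ _ hw]
    refine (Set.encard_le_encard hsub).trans ?_
    refine (Set.encard_image_le _ _).trans ?_
    have : (Set.Iio k).encard = k := by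
      have : (Set.Iio k) = ((Finset.range k : Finset ℕ) : Set ℕ) := by
        ext x
        simp
      rw [this, Set.encard_coe_eq_coe_finsetCard, Finset.card_range]
    rw [this]

/-- A system of `k` pages on at least `n` vertices gives a union embedding of `K_n` with `k` pages. -/
theorem union_of_U (n k : ℕ) (hn : n ≤ 3 * k) (h : U k) :
    ∃ (r : Fin n → ℕ) (c : Sym2 (Fin n) → ℕ), IsUnionEmbedding (⊤ : SimpleGraph (Fin n)) r c ∧
      ∀ e ∈ (⊤ : SimpleGraph (Fin n)).edgeSet, c e < k := by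
  classical
  obtain ⟨E, lam, h1, h2, h3⟩ := h
  have h3' : ∀ e : Sym2 (Fin n), e ∈ (⊤ : SimpleGraph (Fin n)).edgeSet →
      ∃ i, i < k ∧ ∀ u v : Fin n, e = s(u, v) → u < v → E i u v := by
    intro e he
    induction e using Sym2.ind with
    | _ a b =>
      rw [SimpleGraph.mem_edgeSet, SimpleGraph.top_adj] at he
      rcases lt_or_gt_of_ne he with hab | hab
      · obtain ⟨i, hi⟩ := h3 a b hab (by have := b.2; omega) (by
          simp only
          have := Fin.lt_def.1 hab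
          omega)
        refine ⟨i, (h1 _ _ _ hi).1, ?_⟩
        intro u v huv hlt
        rw [Sym2.eq_iff] at huv
        rcases huv with ⟨rfl, rfl⟩ | ⟨rfl, rfl⟩
        · exact hi
        · exact absurd hlt (not_lt.2 hab.le)
      · obtain ⟨i, hi⟩ := h3 b a hab (by have := a.2; omega) (by
          simp only
          have := Fin.lt_def.1 hab
          omega)
        refine ⟨i, (h1 _ _ _ hi).1, ?_⟩
        intro u v huv hlt
        rw [Sym2.eq_iff] at huv
        rcases huv with ⟨rfl, rfl⟩ | ⟨rfl, rfl⟩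
        · exact absurd hlt (not_lt.2 hab.le)
        · exact hi
  choose! pg hpk hpg using h3'
  refine ⟨fun v => v, pg, ⟨Fin.val_injective, ?_⟩, hpk⟩
  intro p u v x y huv hxy hreach hcr
  have hpage : ∀ a b : Fin n, (pageGraph (⊤ : SimpleGraph (Fin n)) pg p).Adj a b →
      a < b → E p a b := by
    intro a b hab hlt
    rw [pageGraph_adj] at hab
    have h4 := hpg s(a, b) ((SimpleGraph.mem_edgeSet _).2 hab.1) a b rfl hlt
    rw [hab.2] at h4
    exact h4
  have hadj : ∀ a b : Fin n, (pageGraph (⊤ : SimpleGraph (Fin n)) pg p).Adj a b →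
      lam p a = lam p b := by
    intro a b hab
    rcases lt_or_gt_of_ne hab.ne with hlt | hlt
    · exact (h1 _ _ _ (hpage a b hab hlt)).2.2.2.2.2
    · exact (h1 _ _ _ (hpage b a hab.symm hlt)).2.2.2.2.2.symm
  have hre : ∀ a b : Fin n, (pageGraph (⊤ : SimpleGraph (Fin n)) pg p).Reachable a b →
      lam p a = lam p b := by
    intro a b hab
    obtain ⟨W⟩ := hab
    induction W with
    | nil => rfl
    | cons h _ ih => exact (hadj _ _ h).trans ih
  have hux := hre u x hreach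
  have huv' := hadj u v huv
  have hxy' := hadj x y hxy
  obtain ⟨u', v', x', y', e1, e2, hcr⟩ := hcr
  have hlu : lam p u' = lam p u ∧ (pageGraph (⊤ : SimpleGraph (Fin n)) pg p).Adj u' v' := by
    rw [Sym2.eq_iff] at e1
    rcases e1 with ⟨rfl, rfl⟩ | ⟨rfl, rfl⟩
    · exact ⟨rfl, huv⟩
    · exact ⟨huv'.symm, huv.symm⟩
  have hlx : lam p x' = lam p x ∧ (pageGraph (⊤ : SimpleGraph (Fin n)) pg p).Adj x' y' := by
    rw [Sym2.eq_iff] at e2
    rcases e2 with ⟨rfl, rfl⟩ | ⟨rfl, rfl⟩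
    · exact ⟨rfl, hxy⟩
    · exact ⟨hxy'.symm, hxy.symm⟩
  rcases hcr with ⟨c1, c2, c3⟩ | ⟨c1, c2, c3⟩
  · refine h2 p u' v' x' y' (hpage _ _ hlu.2 ?_) (hpage _ _ hlx.2 ?_) ?_ c1 c2 c3
    · exact Fin.lt_def.2 (c1.trans c2)
    · exact Fin.lt_def.2 (c2.trans c3)
    · rw [hlu.1, hlx.1, hux]
  · refine h2 p x' y' u' v' (hpage _ _ hlx.2 ?_) (hpage _ _ hlu.2 ?_) ?_ c1 c2 c3
    · exact Fin.lt_def.2 (c1.trans c2)
    · exact Fin.lt_def.2 (c2.trans c3)
    · rw [hlu.1, hlx.1, hux]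

/-- `pn_u(K_n) ≤ k` if `n ≤ 3 k` and `U k`. -/
theorem unionPN_le (n k : ℕ) (hn : n ≤ 3 * k) (h : U k) : unionPageNumber (⊤ : SimpleGraph (Fin n)) ≤ k :=
  Nat.sInf_le (union_of_U n k hn h)

/-- A union embedding of `K_n` with `unionPageNumber` pages exists. -/
theorem unionPN_spec (n : ℕ) (hn : 2 ≤ n) : ∃ (r : Fin n → ℕ) (c : Sym2 (Fin n) → ℕ),
    IsUnionEmbedding (⊤ : SimpleGraph (Fin n)) r c ∧
      ∀ e ∈ (⊤ : SimpleGraph (Fin n)).edgeSet, c e < unionPageNumber (⊤ : SimpleGraph (Fin n)) := by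
  classical
  have hne : {k : ℕ | ∃ (r : Fin n → ℕ) (c : Sym2 (Fin n) → ℕ),
      IsUnionEmbedding (⊤ : SimpleGraph (Fin n)) r c ∧
      ∀ e ∈ (⊤ : SimpleGraph (Fin n)).edgeSet, c e < k}.Nonempty := by
    obtain ⟨f, hf⟩ := Countable.exists_injective_nat (Sym2 (Fin n))
    refine ⟨(Finset.univ.sup f) + 1, fun v => v, f, ⟨Fin.val_injective, ?_⟩, ?_⟩
    · intro p u v x y huv hxy _ hcr
      rw [pageGraph_adj] at huv hxy
      have he : s(u, v) = s(x, y) := hf (huv.2.trans hxy.2.symm)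
      obtain ⟨u', v', x', y', e1, e2, hcr⟩ := hcr
      have h3 : s(u', v') = s(x', y') := by rw [← e1, ← e2, he]
      rw [Sym2.eq_iff] at h3
      rcases h3 with ⟨rfl, rfl⟩ | ⟨rfl, rfl⟩ <;> omega
    · intro e _
      exact Nat.lt_succ_of_le (Finset.le_sup (Finset.mem_univ e))
  exact Nat.sInf_mem hne

/-- `n ≤ 3 pn_u(K_n)`. -/
theorem le_unionPN (n : ℕ) (hn : 2 ≤ n) : n ≤ 3 * unionPageNumber (⊤ : SimpleGraph (Fin n)) := by
  obtain ⟨r, c, h1, h2⟩ := unionPN_spec n hn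
  obtain ⟨c', h3, h4⟩ := local_of_union _ r c _ h1 h2
  exact Loc.lower hn r c' _ h3 h4

/-- `pn_u(K_n) = ⌈n / 3⌉` if `U ⌈n / 3⌉`. -/
theorem unionPN_eq (n : ℕ) (hn : 2 ≤ n) (h : U ((n + 2) / 3)) :
    unionPageNumber (⊤ : SimpleGraph (Fin n)) = (n + 2) / 3 := by
  have h1 := unionPN_le n _ (by omega) h
  have h2 := le_unionPN n hn
  omega

end Pool.Agent.Lib.MP_a966e6_co.PNU
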