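/-! Fast kernel checker for systems of pages: pages as streams of triangulated polygons. Core Lean only, so that the
data modules load quickly. The soundness is proved in `Sound.lean`. -/

set_option autoImplicit false

namespace Pool.Agent.Lib.MP_a966e6_co.PNU

/-- `f x`, after evaluation of `x` -/
noncomputable def force {β : Type} (x : Nat) (f : Nat → β) : β :=
  Nat.rec (motive := fun _ => β) (f 0) (fun m _ => f (Nat.succ m)) x

/-- `if c then x else y` -/
noncomputable def ite' {β : Type} (c : Bool) (x y : β) : β := Bool.rec (motive := fun _ => β) y x c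

/-- adds the two codes of the chord `a < b` to `K` -/
def cod (n a b K : Nat) : Nat :=
  Nat.lor K (Nat.lor (Nat.shiftLeft 1 (Nat.add (Nat.mul a n) (Nat.sub b a)))
    (Nat.shiftLeft 1 (Nat.add (Nat.mul b n) (Nat.sub (Nat.add n a) b))))

abbrev St : Type := Nat → Nat → List Nat → Nat → Nat → Option (Nat × Nat)

/-- One step of the reader. State: `s` = rest of the stream (9 bits per symbol, `0` = leaf or end, `v + 1` = vertex `v`),
`a :: st` = boundary of the region still to be read, `V` = set of the vertices, `K` = set of the codes of the chords. -/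
noncomputable def step (n : Nat) (ih : St) : St := fun s a st V K =>
  List.rec (motive := fun _ => Option (Nat × Nat))
    (Nat.rec (motive := fun _ => Option (Nat × Nat)) (some (V, K))
      (fun a _ => Nat.rec (motive := fun _ => Option (Nat × Nat)) none
        (fun b _ => ite' (Nat.blt a b) (ite' (Nat.blt b n) (ite' (Nat.beq (Nat.land V (Nat.shiftLeft 1 a)) 0)
          (force (Nat.shiftRight s 18) fun s' => force (Nat.lor V (Nat.shiftLeft 1 a)) fun V' => ih s' a [b] V' K)
          none) none) none)
        (Nat.mod (Nat.shiftRight s 9) 512))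
      (Nat.mod s 512))
    (fun b st' _ => Nat.rec (motive := fun _ => Option (Nat × Nat))
      (ite' (Nat.beq (Nat.land V (Nat.shiftLeft 1 b)) 0)
        (force (Nat.shiftRight s 9) fun s' => force (Nat.lor V (Nat.shiftLeft 1 b)) fun V' => force (cod n a b K) fun K' =>
          ih s' b st' V' K')
        none)
      (fun c _ => ite' (Nat.blt a c) (ite' (Nat.blt c b)
        (force (Nat.shiftRight s 9) fun s' => force (cod n a b K) fun K' => ih s' a (c :: b :: st') V K')
        none) none)
      (Nat.mod s 512))
    st

noncomputable def run (n f : Nat) : St :=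
  Nat.rec (motive := fun _ => St) (fun _ _ _ _ _ => none) (fun _ ih => step n ih) f

/-- the triangles `c, c + k, c + 2k` -/
noncomputable def addT (n k : Nat) : List Nat → Nat → Nat → Option (Nat × Nat)
  | [], V, K => some (V, K)
  | c :: ts, V, K =>
    ite' (Nat.blt c k)
      (ite' (Nat.beq (Nat.land V (Nat.lor (Nat.shiftLeft 1 c) (Nat.lor (Nat.shiftLeft 1 (c + k)) (Nat.shiftLeft 1 (c + 2 * k))))) 0)
        (force (Nat.lor V (Nat.lor (Nat.shiftLeft 1 c) (Nat.lor (Nat.shiftLeft 1 (c + k)) (Nat.shiftLeft 1 (c + 2 * k))))) fun V' =>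
          force (cod n c (c + k) (cod n (c + k) (c + 2 * k) (cod n c (c + 2 * k) K))) fun K' => addT n k ts V' K')
        none)
      none

/-- union of the sets `K - i w`, `i < m` -/
def fold (K w : Nat) : Nat → Nat
  | 0 => 0
  | m + 1 => Nat.lor (Nat.shiftRight K (Nat.mul m w)) (fold K w m)

/-- the codes `r n + d`, `r < g`, `0 < d < n` -/
def tgt (n : Nat) : Nat → Nat
  | 0 => 0
  | g + 1 => Nat.lor (Nat.shiftLeft (Nat.sub (Nat.pow 2 n) 2) (Nat.mul g n)) (tgt n g)

/-- the set `K` is invariant under the rotation by `L` -/
def rotOK (n L K : Nat) : Bool :=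
  Nat.beq (Nat.lor (Nat.mod (Nat.shiftLeft K (Nat.mul L n)) (Nat.pow 2 (Nat.mul n n))) (Nat.shiftRight K (Nat.mul (Nat.sub n L) n))) K

/-- adds the page numbers to the set `Q` -/
noncomputable def addPg (N : Nat) : List Nat → Nat → Option Nat
  | [], Q => some Q
  | p :: ps, Q => ite' (Nat.blt p N) (ite' (Nat.beq (Nat.land Q (Nat.shiftLeft 1 p)) 0)
      (force (Nat.lor Q (Nat.shiftLeft 1 p)) fun Q' => addPg N ps Q') none) none

/-- A base page: `(L, pages, ts, stream)`. It is invariant under the rotation by `L`; the `j`-th page is the base page rotated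
by `j g`; `ts` = the triangles `c, c + k, c + 2k`; `stream` = the other components. -/
abbrev Pg : Type := Nat × List Nat × List Nat × Nat

noncomputable def go (n N g k : Nat) : List Pg → Nat → Nat → Bool
  | [], M, _ => Nat.beq (Nat.land M (tgt n g)) (tgt n g)
  | B :: D, M, Q =>
    match addT n k B.2.2.1 0 0 with
    | none => false
    | some VK =>
      match run n (3 * n) B.2.2.2 0 [] VK.1 VK.2 with
      | none => false
      | some VK' =>
        ite' (Nat.beq (Nat.mul g (List.length B.2.1)) B.1) (ite' (Nat.blt 0 B.1) (ite' (Nat.ble B.1 n) (ite' (rotOK n B.1 VK'.2)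
          (match addPg N B.2.1 Q with
          | none => false
          | some Q' => force (Nat.lor M (fold VK'.2 (Nat.mul g n) (Nat.div n g))) fun M' => go n N g k D M' Q') false)
          false) false) false

/-- all chords of `K_{3k}` are covered by `k` pages -/
noncomputable def chk (k g : Nat) (D : List Pg) : Bool :=
  ite' (Nat.blt 0 g) (ite' (Nat.beq (Nat.mod (3 * k) g) 0) (go (3 * k) k g k D 0 0) false) false

/-- page `k - 1` contains the triangle of `k - 1` -/
def hasT (k g : Nat) (D : List Pg) : Bool :=
  D.any fun B => (List.range (List.length B.2.1)).any fun j => Nat.beq (B.2.1.getD j 0) (k - 1) &&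
    B.2.2.1.any fun c => Nat.beq (Nat.mod (c + j * g) k) (k - 1)

end Pool.Agent.Lib.MP_a966e6_co.PNU
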