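import Pool.Agent.Lib.MP_a966e6_co.PNU.Run

/-! The checker `chk` cut into blocks of pages, so that no single kernel computation is large. -/

set_option autoImplicit false

namespace Pool.Agent.Lib.MP_a966e6_co.PNU.Seg

/-- The accumulators `M`, `Q` of `go` after the pages of `D`. -/
noncomputable def goS (n N g k : Nat) : List Pg → Nat → Nat → Option (Nat × Nat)
  | [], M, Q => some (M, Q)
  | B :: D, M, Q =>
    match addT n k B.2.2.1 0 0 with
    | none => none
    | some VK =>
      match run n (3 * n) B.2.2.2 0 [] VK.1 VK.2 with
      | none => none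
      | some VK' =>
        ite' (Nat.beq (Nat.mul g (List.length B.2.1)) B.1) (ite' (Nat.blt 0 B.1) (ite' (Nat.ble B.1 n) (ite' (rotOK n B.1 VK'.2)
          (match addPg N B.2.1 Q with
          | none => none
          | some Q' => force (Nat.lor M (fold VK'.2 (Nat.mul g n) (Nat.div n g))) fun M' => goS n N g k D M' Q') none)
          none) none) none

theorem force_eq {β : Type} (x : Nat) (f : Nat → β) : force x f = f x := by
  cases x <;> rfl

theorem ite'_some {c : Bool} {α : Type} {x : Option α} {r : α} (h : ite' c x none = some r) : c = true ∧ x = some r := by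
  cases c
  · cases h
  · exact ⟨rfl, h⟩

theorem go_append {n N g k : Nat} (D₂ : List Pg) : ∀ (D₁ : List Pg) (M Q M' Q' : Nat),
    goS n N g k D₁ M Q = some (M', Q') → go n N g k (D₁ ++ D₂) M Q = go n N g k D₂ M' Q' := by
  intro D₁
  induction D₁ with
  | nil =>
    intro M Q M' Q' h
    injection h with h
    injection h with h1 h2
    subst h1 h2
    rfl
  | cons B D ih =>
    intro M Q M' Q' h
    simp only [goS] at h
    simp only [List.cons_append, go]
    generalize addT n k B.2.2.1 0 0 = r1 at h ⊢
    cases r1 with
    | none => cases h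
    | some VK =>
      simp only at h ⊢
      generalize run n (3 * n) B.2.2.2 0 [] VK.1 VK.2 = r2 at h ⊢
      cases r2 with
      | none => cases h
      | some VK' =>
        simp only at h ⊢
        obtain ⟨h1, h⟩ := ite'_some h
        obtain ⟨h2, h⟩ := ite'_some h
        obtain ⟨h3, h⟩ := ite'_some h
        obtain ⟨h4, h⟩ := ite'_some h
        rw [h1, h2, h3, h4]
        simp only [ite']
        generalize addPg N B.2.1 Q = r3 at h ⊢
        cases r3 with
        | none => cases h
        | some Q1 =>
          simp only [force_eq] at h ⊢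
          exact ih _ _ _ _ h

theorem chk_go {k g : Nat} {D : List Pg} (h1 : Nat.blt 0 g = true) (h2 : Nat.beq (Nat.mod (3 * k) g) 0 = true)
    (h : go (3 * k) k g k D 0 0 = true) : chk k g D = true := by
  unfold chk
  rw [h1, h2, h]
  rfl

end Pool.Agent.Lib.MP_a966e6_co.PNU.Seg
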