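import Pool.Agent.Lib.MP_a966e6_co.PNU.Run
import Pool.Agent.Lib.MP_a966e6_co.PNU.Check

/-! Soundness of the checker of `Run.lean`: the reader. -/

set_option autoImplicit false

namespace Pool.Agent.Lib.MP_a966e6_co.PNU

/-- the piece `P` is a non-crossing set of chords -/
def PieceOK (n : ℕ) (P : Piece) : Prop :=
  (∀ v ∈ P.1, v < n) ∧ (∀ c ∈ P.2, c.1 < c.2 ∧ c.1 ∈ P.1 ∧ c.2 ∈ P.1) ∧
  (∀ c ∈ P.2, ∀ c' ∈ P.2, ¬ (c.1 < c'.1 ∧ c'.1 < c.2 ∧ c.2 < c'.2))

theorem force_eq {β : Type} (x : ℕ) (f : ℕ → β) : force x f = f x := by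
  cases x <;> rfl

theorem ite'_some {β : Type} {c : Bool} {x : Option β} {r : β} (h : ite' c x none = some r) : c = true ∧ x = some r := by
  cases c
  · exact absurd h (by simp [ite'])
  · exact ⟨rfl, h⟩

theorem ite'_true {c x : Bool} (h : ite' c x false = true) : c = true ∧ x = true := by
  cases c
  · exact absurd h (by simp [ite'])
  · exact ⟨rfl, h⟩

theorem tb_lor (x y i : ℕ) : (Nat.lor x y).testBit i = (x.testBit i || y.testBit i) := Nat.testBit_or x y i

theorem tb_land (x y i : ℕ) : (Nat.land x y).testBit i = (x.testBit i && y.testBit i) := Nat.testBit_and x y i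

theorem tb_one (a i : ℕ) : (Nat.shiftLeft 1 a).testBit i = decide (a = i) := by
  change (1 <<< a).testBit i = _
  rw [Nat.one_shiftLeft, Nat.testBit_two_pow]

/-- code of a chord -/
def isCod (n : ℕ) (c : ℕ × ℕ) (x : ℕ) : Prop := x = c.1 * n + (c.2 - c.1) ∨ x = c.2 * n + (n + c.1 - c.2)

theorem cod_spec (n a b K x : ℕ) : (cod n a b K).testBit x = true ↔ (K.testBit x = true ∨ isCod n (a, b) x) := by
  unfold cod isCod
  rw [tb_lor, tb_lor, tb_one, tb_one, Bool.or_eq_true, Bool.or_eq_true, decide_eq_true_iff, decide_eq_true_iff]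
  constructor
  · rintro (h | h | h)
    · exact Or.inl h
    · exact Or.inr (Or.inl h.symm)
    · exact Or.inr (Or.inr h.symm)
  · rintro (h | h | h)
    · exact Or.inl h
    · exact Or.inr (Or.inl h.symm)
    · exact Or.inr (Or.inr h.symm)

theorem bit_of_land (V a : ℕ) (h : Nat.beq (Nat.land V (Nat.shiftLeft 1 a)) 0 = true) : V.testBit a = false := by
  rw [natbeq] at h
  have h1 := tb_land V (Nat.shiftLeft 1 a) a
  rw [h, tb_one, Nat.zero_testBit] at h1
  simpa using h1.symm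

/-- a page which has been read -/
structure Comp (n : ℕ) (Ps : List Piece) (V K : ℕ) : Prop where
  hP : ∀ P ∈ Ps, PieceOK n P
  hV : ∀ P ∈ Ps, ∀ v ∈ P.1, V.testBit v = true
  hD : ∀ P ∈ Ps, ∀ P' ∈ Ps, ∀ v ∈ P.1, v ∈ P'.1 → P = P'
  hK : ∀ x, K.testBit x = true ↔ ∃ P ∈ Ps, ∃ c ∈ P.2, isCod n c x

/-- a page which is being read -/
structure Prog (n : ℕ) (Ps : List Piece) (vs : List ℕ) (cs : List (ℕ × ℕ)) (a b : ℕ) (st : List ℕ) (V K : ℕ) : Prop where
  hP : ∀ P ∈ Ps, PieceOK n P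
  hV : ∀ P ∈ Ps, ∀ v ∈ P.1, V.testBit v = true
  hD : ∀ P ∈ Ps, ∀ P' ∈ Ps, ∀ v ∈ P.1, v ∈ P'.1 → P = P'
  hK : ∀ x, K.testBit x = true ↔ ((∃ P ∈ Ps, ∃ c ∈ P.2, isCod n c x) ∨ ∃ c ∈ cs, isCod n c x)
  v1 : ∀ v ∈ vs, v ≤ a ∧ v < n ∧ V.testBit v = true
  v2 : ∀ v ∈ vs, ∀ P ∈ Ps, v ∉ P.1
  v3 : a ∈ vs
  s1 : List.Pairwise (· < ·) (a :: b :: st)
  s2 : ∀ x ∈ b :: st, x < n
  c1 : ∀ c ∈ cs, c.1 < c.2 ∧ c.1 ∈ vs ∧ (c.2 ∈ vs ∨ c.2 ∈ b :: st)
  c2 : ∀ c ∈ cs, ∀ c' ∈ cs, ¬ (c.1 < c'.1 ∧ c'.1 < c.2 ∧ c.2 < c'.2)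

/-- recording the chord `(a, b)` -/
theorem Prog.record {n : ℕ} {Ps : List Piece} {vs : List ℕ} {cs : List (ℕ × ℕ)} {a b : ℕ} {st : List ℕ} {V K : ℕ}
    (h : Prog n Ps vs cs a b st V K) : Prog n Ps vs ((a, b) :: cs) a b st V (cod n a b K) := by
  have hab : a < b := (List.pairwise_cons.1 h.s1).1 b List.mem_cons_self
  have hst : ∀ x ∈ b :: st, b ≤ x := by
    intro x hx
    rcases List.mem_cons.1 hx with rfl | hx
    · exact le_rfl
    · exact ((List.pairwise_cons.1 (List.pairwise_cons.1 h.s1).2).1 x hx).le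
  refine ⟨h.hP, h.hV, h.hD, ?_, h.v1, h.v2, h.v3, h.s1, h.s2, ?_, ?_⟩
  · intro x
    rw [cod_spec, h.hK]
    simp only [List.mem_cons, exists_eq_or_imp]
    constructor
    · rintro ((h | h) | h)
      · exact Or.inl h
      · exact Or.inr (Or.inr h)
      · exact Or.inr (Or.inl h)
    · rintro (h | h | h)
      · exact Or.inl (Or.inl h)
      · exact Or.inr h
      · exact Or.inl (Or.inr h)
  · intro c hc
    rcases List.mem_cons.1 hc with rfl | hc
    · exact ⟨hab, h.v3, Or.inr List.mem_cons_self⟩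
    · exact h.c1 c hc
  · intro c hc c' hc'
    rcases List.mem_cons.1 hc with rfl | hc <;> rcases List.mem_cons.1 hc' with rfl | hc'
    · simp
    · have h1 := (h.v1 _ (h.c1 c' hc').2.1).1
      simp only
      omega
    · obtain ⟨h1, h2, h3⟩ := h.c1 c hc
      simp only
      rcases h3 with h3 | h3
      · have := (h.v1 _ h3).1
        omega
      · have := hst _ h3
        omega
    · exact h.c2 c hc c' hc'

/-- the chord `(a, b)` is a leaf, not the last one of the piece -/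
theorem Prog.leaf {n : ℕ} {Ps : List Piece} {vs : List ℕ} {cs : List (ℕ × ℕ)} {a b b' : ℕ} {st : List ℕ} {V K : ℕ}
    (h : Prog n Ps vs cs a b (b' :: st) V K) (hb : V.testBit b = false) :
    Prog n Ps (b :: vs) cs b b' st (Nat.lor V (Nat.shiftLeft 1 b)) K := by
  have hab : a < b := (List.pairwise_cons.1 h.s1).1 b List.mem_cons_self
  have hV' : ∀ i, V.testBit i = true → (Nat.lor V (Nat.shiftLeft 1 b)).testBit i = true := by
    intro i hi
    rw [tb_lor, hi, Bool.true_or]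
  refine ⟨h.hP, fun P hP v hv => hV' v (h.hV P hP v hv), h.hD, h.hK, ?_, ?_, List.mem_cons_self,
    (List.pairwise_cons.1 h.s1).2, fun x hx => h.s2 x (List.mem_cons_of_mem _ hx), ?_, h.c2⟩
  · intro v hv
    rcases List.mem_cons.1 hv with rfl | hv
    · exact ⟨le_rfl, h.s2 _ List.mem_cons_self, by rw [tb_lor, tb_one]; simp⟩
    · obtain ⟨h1, h2, h3⟩ := h.v1 v hv
      exact ⟨by omega, h2, hV' v h3⟩
  · intro v hv P hP hvP
    rcases List.mem_cons.1 hv with rfl | hv
    · rw [h.hV P hP v hvP] at hb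
      exact absurd hb (by simp)
    · exact h.v2 v hv P hP hvP
  · intro c hc
    obtain ⟨h1, h2, h3⟩ := h.c1 c hc
    refine ⟨h1, List.mem_cons_of_mem _ h2, ?_⟩
    rcases h3 with h3 | h3
    · exact Or.inl (List.mem_cons_of_mem _ h3)
    · rcases List.mem_cons.1 h3 with h3 | h3
      · left
        rw [h3]
        exact List.mem_cons_self
      · exact Or.inr h3

/-- the chord `(a, b)` is the last leaf of the piece -/
theorem Prog.last {n : ℕ} {Ps : List Piece} {vs : List ℕ} {cs : List (ℕ × ℕ)} {a b : ℕ} {V K : ℕ}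
    (h : Prog n Ps vs cs a b [] V K) (hb : V.testBit b = false) :
    Comp n ((b :: vs, cs) :: Ps) (Nat.lor V (Nat.shiftLeft 1 b)) K := by
  have hab : a < b := (List.pairwise_cons.1 h.s1).1 b List.mem_cons_self
  have hV' : ∀ i, V.testBit i = true → (Nat.lor V (Nat.shiftLeft 1 b)).testBit i = true := by
    intro i hi
    rw [tb_lor, hi, Bool.true_or]
  have hnew : ∀ v ∈ b :: vs, ∀ P ∈ Ps, v ∉ P.1 := by
    intro v hv P hP hvP
    rcases List.mem_cons.1 hv with rfl | hv
    · rw [h.hV P hP v hvP] at hb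
      exact absurd hb (by simp)
    · exact h.v2 v hv P hP hvP
  refine ⟨?_, ?_, ?_, ?_⟩
  · intro P hP
    rcases List.mem_cons.1 hP with rfl | hP
    · refine ⟨?_, ?_, h.c2⟩
      · intro v hv
        rcases List.mem_cons.1 hv with rfl | hv
        · exact h.s2 _ List.mem_cons_self
        · exact (h.v1 v hv).2.1
      · intro c hc
        obtain ⟨h1, h2, h3⟩ := h.c1 c hc
        refine ⟨h1, List.mem_cons_of_mem _ h2, ?_⟩
        rcases h3 with h3 | h3
        · exact List.mem_cons_of_mem _ h3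
        · rw [List.mem_singleton.1 h3]
          exact List.mem_cons_self
    · exact h.hP P hP
  · intro P hP v hv
    rcases List.mem_cons.1 hP with rfl | hP
    · rcases List.mem_cons.1 hv with rfl | hv
      · rw [tb_lor, tb_one]
        simp
      · exact hV' v (h.v1 v hv).2.2
    · exact hV' v (h.hV P hP v hv)
  · intro P hP P' hP' v hv hv'
    rcases List.mem_cons.1 hP with rfl | hP <;> rcases List.mem_cons.1 hP' with rfl | hP'
    · rfl
    · exact absurd hv' (hnew v hv P' hP')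
    · exact absurd hv (hnew v hv' P hP)
    · exact h.hD P hP P' hP' v hv hv'
  · intro x
    rw [h.hK]
    simp only [List.mem_cons, exists_eq_or_imp]
    exact or_comm

/-- a new triangle `(a, c, b)` -/
theorem Prog.node {n : ℕ} {Ps : List Piece} {vs : List ℕ} {cs : List (ℕ × ℕ)} {a b c : ℕ} {st : List ℕ} {V K : ℕ}
    (h : Prog n Ps vs cs a b st V K) (hc1 : a < c) (hc2 : c < b) : Prog n Ps vs cs a c (b :: st) V K := by
  refine ⟨h.hP, h.hV, h.hD, h.hK, h.v1, h.v2, h.v3, ?_, ?_, ?_, h.c2⟩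
  · have h1 := List.pairwise_cons.1 h.s1
    have h2 := List.pairwise_cons.1 h1.2
    refine List.pairwise_cons.2 ⟨?_, List.pairwise_cons.2 ⟨?_, h1.2⟩⟩
    · intro x hx
      rcases List.mem_cons.1 hx with rfl | hx
      · exact hc1
      · exact h1.1 x hx
    · intro x hx
      rcases List.mem_cons.1 hx with rfl | hx
      · exact hc2
      · have := h2.1 x hx
        omega
  · intro x hx
    rcases List.mem_cons.1 hx with rfl | hx
    · have := h.s2 b List.mem_cons_self
      omega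
    · exact h.s2 x hx
  · intro e he
    obtain ⟨h1, h2, h3⟩ := h.c1 e he
    exact ⟨h1, h2, h3.imp_right (List.mem_cons_of_mem _)⟩

/-- a new piece -/
theorem Comp.start {n : ℕ} {Ps : List Piece} {a b V K : ℕ} (h : Comp n Ps V K) (hab : a < b) (hb : b < n)
    (ha : V.testBit a = false) : Prog n Ps [a] [] a b [] (Nat.lor V (Nat.shiftLeft 1 a)) K := by
  have hV' : ∀ i, V.testBit i = true → (Nat.lor V (Nat.shiftLeft 1 a)).testBit i = true := by
    intro i hi
    rw [tb_lor, hi, Bool.true_or]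
  refine ⟨h.hP, fun P hP v hv => hV' v (h.hV P hP v hv), h.hD, ?_, ?_, ?_, by simp, by simpa using hab, by simpa using hb,
    by simp, by simp⟩
  · intro x
    rw [h.hK]
    simp
  · intro v hv
    rw [List.mem_singleton.1 hv]
    exact ⟨le_rfl, by omega, by rw [tb_lor, tb_one]; simp⟩
  · intro v hv P hP hvP
    rw [List.mem_singleton.1 hv] at hvP
    rw [h.hV P hP a hvP] at ha
    exact absurd ha (by simp)

theorem blt_lt {a b : ℕ} (h : Nat.blt a b = true) : a < b := by
  rw [Nat.blt_eq] at h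
  exact h

theorem step_nil {n : ℕ} {ih : St} {s a V K : ℕ} {R : ℕ × ℕ} (h : step n ih s a [] V K = some R) :
    R = (V, K) ∨ ∃ a' b' s', a' < b' ∧ b' < n ∧ V.testBit a' = false ∧
      ih s' a' [b'] (Nat.lor V (Nat.shiftLeft 1 a')) K = some R := by
  unfold step at h
  simp only at h
  rcases h1 : Nat.mod s 512 with _ | a'
  · rw [h1] at h
    left
    exact (Option.some.inj h).symm
  · rw [h1] at h
    simp only at h
    rcases h2 : Nat.mod (Nat.shiftRight s 9) 512 with _ | b'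
    · rw [h2] at h
      exact absurd h (by simp)
    · rw [h2] at h
      simp only at h
      right
      obtain ⟨k1, h⟩ := ite'_some h
      obtain ⟨k2, h⟩ := ite'_some h
      obtain ⟨k3, h⟩ := ite'_some h
      rw [force_eq, force_eq] at h
      exact ⟨a', b', _, blt_lt k1, blt_lt k2, bit_of_land _ _ k3, h⟩

theorem step_cons {n : ℕ} {ih : St} {s a b : ℕ} {st : List ℕ} {V K : ℕ} {R : ℕ × ℕ}
    (h : step n ih s a (b :: st) V K = some R) :
    (∃ s', V.testBit b = false ∧ ih s' b st (Nat.lor V (Nat.shiftLeft 1 b)) (cod n a b K) = some R) ∨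
    ∃ c s', a < c ∧ c < b ∧ ih s' a (c :: b :: st) V (cod n a b K) = some R := by
  unfold step at h
  simp only at h
  rcases h1 : Nat.mod s 512 with _ | c
  · rw [h1] at h
    left
    obtain ⟨k3, h⟩ := ite'_some h
    rw [force_eq, force_eq, force_eq] at h
    exact ⟨_, bit_of_land _ _ k3, h⟩
  · rw [h1] at h
    simp only at h
    right
    obtain ⟨k1, h⟩ := ite'_some h
    obtain ⟨k2, h⟩ := ite'_some h
    rw [force_eq, force_eq] at h
    exact ⟨c, _, blt_lt k1, blt_lt k2, h⟩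

theorem run_spec (n f : ℕ) : ∀ (s a : ℕ) (st : List ℕ) (V K : ℕ) (R : ℕ × ℕ), run n f s a st V K = some R →
    (st = [] → ∀ Ps, Comp n Ps V K → ∃ Ps', Comp n Ps' R.1 R.2 ∧ ∀ P ∈ Ps, P ∈ Ps') ∧
    (∀ b st', st = b :: st' → ∀ Ps vs cs, Prog n Ps vs cs a b st' V K → ∃ Ps', Comp n Ps' R.1 R.2 ∧ ∀ P ∈ Ps, P ∈ Ps') := by
  induction f with
  | zero =>
    intro s a st V K R h
    exact absurd h (by simp [run])
  | succ f ih =>
    intro s a st V K R h
    change step n (run n f) s a st V K = some R at h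
    constructor
    · rintro rfl Ps hPs
      rcases step_nil h with rfl | ⟨a', b', s', h1, h2, h3, h4⟩
      · exact ⟨Ps, hPs, fun _ h => h⟩
      · exact (ih _ _ _ _ _ _ h4).2 b' [] rfl Ps [a'] [] (hPs.start h1 h2 h3)
    · rintro b st' rfl Ps vs cs hPs
      have hr := hPs.record
      rcases step_cons h with ⟨s', h1, h2⟩ | ⟨c, s', h1, h2, h3⟩
      · cases st' with
        | nil =>
          obtain ⟨Ps', k1, k2⟩ := (ih _ _ _ _ _ _ h2).1 rfl _ (hr.last h1)
          exact ⟨Ps', k1, fun P hP => k2 P (List.mem_cons_of_mem _ hP)⟩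
        | cons b' st' => exact (ih _ _ _ _ _ _ h2).2 b' st' rfl Ps _ _ (hr.leaf h1)
      · exact (ih _ _ _ _ _ _ h3).2 c (b :: st') rfl Ps _ _ (hr.node h1 h2)

end Pool.Agent.Lib.MP_a966e6_co.PNU
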