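import Pool.Agent.Lib.MP_a966e6_co.PNU.Sound

/-! Soundness of the checker of `Run.lean`: the pages. -/

set_option autoImplicit false

namespace Pool.Agent.Lib.MP_a966e6_co.PNU

theorem addT_spec (n k : ℕ) (hn : n = 3 * k) (ts : List ℕ) : ∀ (V K : ℕ) (R : ℕ × ℕ), addT n k ts V K = some R →
    ∀ Ps, Comp n Ps V K → ∃ Ps', Comp n Ps' R.1 R.2 ∧ (∀ P ∈ Ps, P ∈ Ps') ∧
      ∀ c ∈ ts, c < k ∧ ∃ P ∈ Ps', P.1 = [c, c + k, c + 2 * k] := by
  induction ts with
  | nil =>
    intro V K R h Ps hPs
    rw [addT] at h
    obtain rfl := (Option.some.inj h)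
    exact ⟨Ps, hPs, fun _ h => h, by simp⟩
  | cons c ts ih =>
    intro V K R h Ps hPs
    rw [addT] at h
    obtain ⟨k1, h⟩ := ite'_some h
    obtain ⟨k2, h⟩ := ite'_some h
    rw [force_eq, force_eq] at h
    have hc : c < k := blt_lt k1
    have hbits : V.testBit c = false ∧ V.testBit (c + k) = false ∧ V.testBit (c + 2 * k) = false := by
      rw [natbeq] at k2
      refine ⟨?_, ?_, ?_⟩
      · have h1 := tb_land V (Nat.lor (Nat.shiftLeft 1 c) (Nat.lor (Nat.shiftLeft 1 (c + k)) (Nat.shiftLeft 1 (c + 2 * k)))) c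
        rw [k2, tb_lor, tb_lor, tb_one, tb_one, tb_one, Nat.zero_testBit] at h1
        simpa using h1.symm
      · have h1 := tb_land V (Nat.lor (Nat.shiftLeft 1 c) (Nat.lor (Nat.shiftLeft 1 (c + k)) (Nat.shiftLeft 1 (c + 2 * k)))) (c + k)
        rw [k2, tb_lor, tb_lor, tb_one, tb_one, tb_one, Nat.zero_testBit] at h1
        simpa using h1.symm
      · have h1 := tb_land V (Nat.lor (Nat.shiftLeft 1 c) (Nat.lor (Nat.shiftLeft 1 (c + k)) (Nat.shiftLeft 1 (c + 2 * k)))) (c + 2 * k)
        rw [k2, tb_lor, tb_lor, tb_one, tb_one, tb_one, Nat.zero_testBit] at h1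
        simpa using h1.symm
    have hV' : ∀ i, V.testBit i = true → (Nat.lor V (Nat.lor (Nat.shiftLeft 1 c) (Nat.lor (Nat.shiftLeft 1 (c + k))
        (Nat.shiftLeft 1 (c + 2 * k))))).testBit i = true := by
      intro i hi
      rw [tb_lor, hi, Bool.true_or]
    have hT : Comp n (([c, c + k, c + 2 * k], [(c, c + k), (c + k, c + 2 * k), (c, c + 2 * k)]) :: Ps)
        (Nat.lor V (Nat.lor (Nat.shiftLeft 1 c) (Nat.lor (Nat.shiftLeft 1 (c + k)) (Nat.shiftLeft 1 (c + 2 * k)))))
        (cod n c (c + k) (cod n (c + k) (c + 2 * k) (cod n c (c + 2 * k) K))) := by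
      have hnew : ∀ v ∈ [c, c + k, c + 2 * k], ∀ P ∈ Ps, v ∉ P.1 := by
        intro v hv P hP hvP
        have h1 := hPs.hV P hP v hvP
        simp only [List.mem_cons, List.not_mem_nil, or_false] at hv
        rcases hv with rfl | rfl | rfl
        · rw [hbits.1] at h1
          exact absurd h1 (by simp)
        · rw [hbits.2.1] at h1
          exact absurd h1 (by simp)
        · rw [hbits.2.2] at h1
          exact absurd h1 (by simp)
      refine ⟨?_, ?_, ?_, ?_⟩
      · intro P hP
        rcases List.mem_cons.1 hP with rfl | hP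
        · refine ⟨?_, ?_, ?_⟩
          · intro v hv
            simp only [List.mem_cons, List.not_mem_nil, or_false] at hv
            omega
          · intro e he
            simp only [List.mem_cons, List.not_mem_nil, or_false] at he
            rcases he with rfl | rfl | rfl
            · exact ⟨by simp only; omega, by simp, by simp⟩
            · exact ⟨by simp only; omega, by simp, by simp⟩
            · exact ⟨by simp only; omega, by simp, by simp⟩
          · intro e he e' he'
            simp only [List.mem_cons, List.not_mem_nil, or_false] at he he'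
            rcases he with rfl | rfl | rfl <;> rcases he' with rfl | rfl | rfl <;> simp only <;> omega
        · exact hPs.hP P hP
      · intro P hP v hv
        rcases List.mem_cons.1 hP with rfl | hP
        · rw [tb_lor, tb_lor, tb_lor, tb_one, tb_one, tb_one]
          simp only [List.mem_cons, List.not_mem_nil, or_false] at hv
          rcases hv with rfl | rfl | rfl <;> simp
        · exact hV' v (hPs.hV P hP v hv)
      · intro P hP P' hP' v hv hv'
        rcases List.mem_cons.1 hP with rfl | hP <;> rcases List.mem_cons.1 hP' with rfl | hP'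
        · rfl
        · exact absurd hv' (hnew v hv P' hP')
        · exact absurd hv (hnew v hv' P hP)
        · exact hPs.hD P hP P' hP' v hv hv'
      · intro x
        rw [cod_spec, cod_spec, cod_spec, hPs.hK]
        simp only [List.mem_cons, exists_eq_or_imp, List.not_mem_nil, false_and, exists_false, or_false, exists_eq_left]
        constructor
        · rintro (((h | h) | h) | h)
          · exact Or.inr h
          · exact Or.inl (Or.inr (Or.inr h))
          · exact Or.inl (Or.inr (Or.inl h))
          · exact Or.inl (Or.inl h)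
        · rintro ((h | h | h) | h)
          · exact Or.inr h
          · exact Or.inl (Or.inr h)
          · exact Or.inl (Or.inl (Or.inr h))
          · exact Or.inl (Or.inl (Or.inl h))
    obtain ⟨Ps', h1, h2, h3⟩ := ih _ _ _ h _ hT
    refine ⟨Ps', h1, fun P hP => h2 P (List.mem_cons_of_mem _ hP), ?_⟩
    intro c' hc'
    rcases List.mem_cons.1 hc' with rfl | hc'
    · exact ⟨hc, _, h2 _ List.mem_cons_self, rfl⟩
    · exact h3 c' hc'

theorem fold_spec (K w m x : ℕ) (h : (fold K w m).testBit x = true) : ∃ i, i < m ∧ K.testBit (i * w + x) = true := by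
  induction m with
  | zero => simp [fold] at h
  | succ m ih =>
    rw [fold, tb_lor, Bool.or_eq_true] at h
    rcases h with h | h
    · change (K >>> (m * w)).testBit x = true at h
      rw [Nat.testBit_shiftRight] at h
      exact ⟨m, by omega, h⟩
    · obtain ⟨i, h1, h2⟩ := ih h
      exact ⟨i, by omega, h2⟩

theorem tgt_row (n d : ℕ) (h1 : 0 < d) (h2 : d < n) : (Nat.sub (Nat.pow 2 n) 2).testBit d = true := by
  change (2 ^ n - 2).testBit d = true
  have h3 : 2 ^ n - 2 = 2 * (2 ^ (n - 1) - 1) := by
    have : 2 ^ n = 2 * 2 ^ (n - 1) := by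
      rw [← pow_succ']
      congr 1
      omega
    omega
  obtain ⟨e, rfl⟩ : ∃ e, d = e + 1 := ⟨d - 1, by omega⟩
  rw [h3, Nat.testBit_succ, Nat.mul_div_cancel_left _ (by norm_num), Nat.testBit_two_pow_sub_one]
  simp
  omega

theorem tgt_spec (n g r d : ℕ) (hr : r < g) (h1 : 0 < d) (h2 : d < n) : (tgt n g).testBit (r * n + d) = true := by
  induction g with
  | zero => omega
  | succ g ih =>
    rw [tgt, tb_lor, Bool.or_eq_true]
    rcases Nat.lt_or_ge r g with h | h
    · exact Or.inr (ih h)
    · left
      have : r = g := by omega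
      subst this
      change ((Nat.sub (Nat.pow 2 n) 2) <<< (r * n)).testBit (r * n + d) = true
      rw [Nat.testBit_shiftLeft]
      have h3 : r * n + d - r * n = d := by omega
      rw [h3, tgt_row n d h1 h2]
      simp

theorem rotOK_spec (n L K a d : ℕ) (h : rotOK n L K = true) (hL : L ≤ n) (ha : a < n) (hd : d < n)
    (hK : K.testBit (a * n + d) = true) : K.testBit ((a + L) % n * n + d) = true := by
  unfold rotOK at h
  rw [natbeq] at h
  rw [← h, tb_lor, Bool.or_eq_true]
  by_cases hc : a + L < n
  · left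
    change ((K <<< (L * n)) % 2 ^ (n * n)).testBit _ = true
    rw [Nat.mod_eq_of_lt hc, Nat.testBit_mod_two_pow, Nat.testBit_shiftLeft]
    have e1 : (a + L) * n + d = a * n + d + L * n := by ring
    have e2 : (a + L) * n + d - L * n = a * n + d := by omega
    have e3 : (a + L + 1) * n ≤ n * n := Nat.mul_le_mul_right n hc
    have e4 : (a + L + 1) * n = (a + L) * n + n := by ring
    rw [e2, hK]
    simp only [Bool.and_true, Bool.and_eq_true, decide_eq_true_eq, ge_iff_le]
    constructor <;> omega
  · right
    change (K >>> ((n - L) * n)).testBit _ = true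
    rw [Nat.testBit_shiftRight]
    have e0 : (a + L) % n = a + L - n := by
      rw [Nat.mod_eq_sub_mod (by omega), Nat.mod_eq_of_lt (by omega)]
    have e1 : (n - L) * n + ((a + L) % n * n + d) = a * n + d := by
      rw [e0, ← add_assoc, ← add_mul]
      congr 2
      omega
    rw [e1, hK]

theorem addPg_spec (N : ℕ) (ps : List ℕ) : ∀ (Q Q' : ℕ), addPg N ps Q = some Q' →
    (∀ p ∈ ps, p < N ∧ Q.testBit p = false) ∧ ps.Nodup ∧ (∀ i, Q.testBit i = true → Q'.testBit i = true) ∧
    ∀ p ∈ ps, Q'.testBit p = true := by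
  induction ps with
  | nil =>
    intro Q Q' h
    rw [addPg] at h
    obtain rfl := (Option.some.inj h)
    simp
  | cons p ps ih =>
    intro Q Q' h
    rw [addPg] at h
    obtain ⟨k1, h⟩ := ite'_some h
    obtain ⟨k2, h⟩ := ite'_some h
    rw [force_eq] at h
    have hb := bit_of_land _ _ k2
    obtain ⟨i1, i2, i3, i4⟩ := ih _ _ h
    have hor : ∀ i, (Nat.lor Q (Nat.shiftLeft 1 p)).testBit i = (Q.testBit i || decide (p = i)) := by
      intro i
      rw [tb_lor, tb_one]
    refine ⟨?_, ?_, ?_, ?_⟩
    · intro q hq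
      rcases List.mem_cons.1 hq with rfl | hq
      · exact ⟨blt_lt k1, hb⟩
      · have h1 := (i1 q hq).2
        rw [hor, Bool.or_eq_false_iff] at h1
        exact ⟨(i1 q hq).1, h1.1⟩
    · rw [List.nodup_cons]
      refine ⟨?_, i2⟩
      intro hp
      have h1 := (i1 p hp).2
      rw [hor] at h1
      simp at h1
    · intro i hi
      exact i3 i (by rw [hor, hi, Bool.true_or])
    · intro q hq
      rcases List.mem_cons.1 hq with rfl | hq
      · exact i3 _ (by rw [hor]; simp)
      · exact i4 q hq

/-- the rotations of a base page -/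
def mvs (g : ℕ) : ℕ → List ℕ → List (ℕ × ℕ)
  | _, [] => []
  | j, p :: ps => (j * g, p) :: mvs g (j + 1) ps

theorem mvs_mem (g : ℕ) (ps : List ℕ) : ∀ (j : ℕ) (x : ℕ × ℕ), x ∈ mvs g j ps →
    x.2 ∈ ps ∧ ∃ i, i < ps.length ∧ x.1 = (j + i) * g ∧ ps[i]? = some x.2 := by
  induction ps with
  | nil =>
    intro j x h
    simp [mvs] at h
  | cons p ps ih =>
    intro j x h
    rw [mvs] at h
    rcases List.mem_cons.1 h with rfl | h
    · exact ⟨List.mem_cons_self, 0, by simp, by simp, by simp⟩
    · obtain ⟨h1, i, h2, h3, h4⟩ := ih (j + 1) x h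
      refine ⟨List.mem_cons_of_mem _ h1, i + 1, ?_, ?_, ?_⟩
      · rw [List.length_cons]
        omega
      · rw [h3]
        ring
      · simpa using h4

theorem mvs_get (g : ℕ) (ps : List ℕ) : ∀ (j i : ℕ) (p : ℕ), ps[i]? = some p → ((j + i) * g, p) ∈ mvs g j ps := by
  induction ps with
  | nil =>
    intro j i p h
    simp at h
  | cons q ps ih =>
    intro j i p h
    rw [mvs]
    cases i with
    | zero =>
      simp only [List.getElem?_cons_zero, Option.some.injEq] at h
      subst h
      simp
    | succ i =>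
      have h1 := ih (j + 1) i p (by simpa using h)
      have e : (j + 1 + i) * g = (j + (i + 1)) * g := by ring
      rw [e] at h1
      exact List.mem_cons_of_mem _ h1

theorem mvs_uniq (g : ℕ) (ps : List ℕ) : ∀ (j : ℕ), ps.Nodup → ∀ x ∈ mvs g j ps, ∀ x' ∈ mvs g j ps, x.2 = x'.2 → x = x' := by
  induction ps with
  | nil =>
    intro j _ x h
    simp [mvs] at h
  | cons p ps ih =>
    intro j hn x h x' h' e
    rw [List.nodup_cons] at hn
    rw [mvs] at h h'
    rcases List.mem_cons.1 h with rfl | h <;> rcases List.mem_cons.1 h' with rfl | h'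
    · rfl
    · exact absurd (mvs_mem g ps _ _ h').1 (by rw [← e]; exact hn.1)
    · exact absurd (mvs_mem g ps _ _ h).1 (by rw [e]; exact hn.1)
    · exact ih (j + 1) hn.2 x h x' h' e

end Pool.Agent.Lib.MP_a966e6_co.PNU
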