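import Pool.Agent.Lib.MP_a966e6_co.PNU.Sound2
import Pool.Agent.Lib.MP_a966e6_co.PNU.Fill

/-! Soundness of the checker of `Run.lean`: `chk k g D = true → U k`, `chk k g D = true → hasT k g D = true → UT k`. -/

set_option autoImplicit false

namespace Pool.Agent.Lib.MP_a966e6_co.PNU

/-- the base page `B` has the chord from `a` to `a + d` -/
def Has (n : ℕ) (B : Base) (a d : ℕ) : Prop :=
  ∃ P ∈ B.2, ∃ c ∈ P.2, (a = c.1 ∧ d = c.2 - c.1) ∨ (a = c.2 ∧ d = n + c.1 - c.2)

theorem isCod_iff (n : ℕ) (c : ℕ × ℕ) (a d : ℕ) (h1 : c.1 < c.2) (h2 : c.2 < n) (hd : d < n) :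
    isCod n c (a * n + d) ↔ ((a = c.1 ∧ d = c.2 - c.1) ∨ (a = c.2 ∧ d = n + c.1 - c.2)) := by
  unfold isCod
  constructor
  · rintro (h | h)
    · exact Or.inl (code_inj n _ _ _ _ hd (by omega) h)
    · exact Or.inr (code_inj n _ _ _ _ hd (by omega) h)
  · rintro (⟨rfl, rfl⟩ | ⟨rfl, rfl⟩)
    · exact Or.inl rfl
    · exact Or.inr rfl

theorem has_iff {n : ℕ} {Ps : List Piece} {V K : ℕ} (h : Comp n Ps V K) (ms : List (ℕ × ℕ)) (a d : ℕ) (hd : d < n) :
    K.testBit (a * n + d) = true ↔ Has n (ms, Ps) a d := by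
  rw [h.hK]
  unfold Has
  constructor
  · rintro ⟨P, hP, c, hc, hx⟩
    obtain ⟨h1, h2, h3⟩ := (h.hP P hP).2.1 c hc
    exact ⟨P, hP, c, hc, (isCod_iff n c a d h1 ((h.hP P hP).1 _ h3) hd).1 hx⟩
  · rintro ⟨P, hP, c, hc, hx⟩
    obtain ⟨h1, h2, h3⟩ := (h.hP P hP).2.1 c hc
    exact ⟨P, hP, c, hc, (isCod_iff n c a d h1 ((h.hP P hP).1 _ h3) hd).2 hx⟩

theorem go_spec (n N g k : ℕ) (hn : n = 3 * k) (hg : 0 < g) (hgn : n % g = 0) (D : List Pg) : ∀ (M Q : ℕ),
    go n N g k D M Q = true → ∃ D' : List Base,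
      (∀ B ∈ D', ∀ x ∈ B.1, Q.testBit x.2 = false) ∧
      (∀ B ∈ D', ∀ B' ∈ D', ∀ x ∈ B.1, ∀ x' ∈ B'.1, x.2 = x'.2 → B = B' ∧ x = x') ∧
      (∀ B ∈ D', ∀ x ∈ B.1, x.1 < n ∧ x.2 < N) ∧
      (∀ B ∈ D', ∀ P ∈ B.2, PieceOK n P) ∧
      (∀ B ∈ D', ∀ P ∈ B.2, ∀ P' ∈ B.2, ∀ v ∈ P.1, v ∈ P'.1 → P = P') ∧
      (∀ r d, r < g → 0 < d → d < n → M.testBit (r * n + d) = true ∨ ∃ B ∈ D', ∃ i, i < n / g ∧ Has n B (i * g + r) d) ∧
      (∀ B ∈ D', ∃ L, 0 < L ∧ L % g = 0 ∧ (∀ a d, a < n → d < n → Has n B a d → Has n B ((a + L) % n) d) ∧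
        ∀ j, j * g < L → ∃ p, (j * g, p) ∈ B.1) ∧
      (∀ B ∈ D, ∃ B' ∈ D', B'.1 = mvs g 0 B.2.1 ∧ ∀ c ∈ B.2.2.1, c < k ∧ ∃ P ∈ B'.2, P.1 = [c, c + k, c + 2 * k]) := by
  induction D with
  | nil =>
    intro M Q h
    rw [go, natbeq] at h
    refine ⟨[], by simp, by simp, by simp, by simp, by simp, ?_, by simp, by simp⟩
    intro r d hr h1 h2
    left
    have h3 := tb_land M (tgt n g) (r * n + d)
    rw [h, tgt_spec n g r d hr h1 h2, Bool.and_true] at h3
    exact h3.symm
  | cons B D ih =>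
    intro M Q h
    rw [go] at h
    split at h
    · exact absurd h (by simp)
    · rename_i VK hVK
      split at h
      · exact absurd h (by simp)
      · rename_i VK' hVK'
        obtain ⟨k1, h⟩ := ite'_true h
        obtain ⟨k2, h⟩ := ite'_true h
        obtain ⟨k3, h⟩ := ite'_true h
        obtain ⟨k4, h⟩ := ite'_true h
        rw [natbeq] at k1
        change g * B.2.1.length = B.1 at k1
        have k2' := blt_lt k2
        have k3' : B.1 ≤ n := Nat.ble_eq.mp k3
        split at h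
        · exact absurd h (by simp)
        · rename_i Q' hQ'
          rw [force_eq] at h
          obtain ⟨q1, q2, q3, q4⟩ := addPg_spec N B.2.1 Q Q' hQ'
          obtain ⟨Ps0, t1, t2, t3⟩ := addT_spec n k hn B.2.2.1 0 0 VK hVK []
            ⟨by simp, by simp, by simp, by simp⟩
          obtain ⟨Ps, r1, r2⟩ := (run_spec n _ _ _ _ _ _ _ hVK').1 rfl Ps0 t1
          obtain ⟨D', i1, i2, i3, i4, i5, i6, i7, i8⟩ := ih _ _ h
          have hms := mvs_mem g B.2.1 0
          refine ⟨(mvs g 0 B.2.1, Ps) :: D', ?_, ?_, ?_, ?_, ?_, ?_, ?_, ?_⟩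
          · intro C hC x hx
            rcases List.mem_cons.1 hC with rfl | hC
            · exact (q1 _ (hms x hx).1).2
            · have h1 := i1 C hC x hx
              by_contra h2
              rw [Bool.not_eq_false] at h2
              rw [q3 _ h2] at h1
              exact absurd h1 (by simp)
          · intro C hC C' hC' x hx x' hx' e
            rcases List.mem_cons.1 hC with rfl | hC <;> rcases List.mem_cons.1 hC' with rfl | hC'
            · exact ⟨rfl, mvs_uniq g B.2.1 0 q2 x hx x' hx' e⟩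
            · have h1 := i1 C' hC' x' hx'
              rw [← e, q4 _ (hms x hx).1] at h1
              exact absurd h1 (by simp)
            · have h1 := i1 C hC x hx
              rw [e, q4 _ (hms x' hx').1] at h1
              exact absurd h1 (by simp)
            · exact i2 C hC C' hC' x hx x' hx' e
          · intro C hC x hx
            rcases List.mem_cons.1 hC with rfl | hC
            · obtain ⟨h1, i, h2, h3, h4⟩ := hms x hx
              refine ⟨?_, (q1 _ h1).1⟩
              rw [h3, zero_add]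
              have h5 : (i + 1) * g ≤ B.2.1.length * g := Nat.mul_le_mul_right g h2
              have h6 : (i + 1) * g = i * g + g := by ring
              have h7 : g * B.2.1.length = B.2.1.length * g := mul_comm _ _
              omega
            · exact i3 C hC x hx
          · intro C hC
            rcases List.mem_cons.1 hC with rfl | hC
            · exact r1.hP
            · exact i4 C hC
          · intro C hC
            rcases List.mem_cons.1 hC with rfl | hC
            · exact r1.hD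
            · exact i5 C hC
          · intro r d hr h1 h2
            rcases i6 r d hr h1 h2 with h3 | ⟨C, hC, h3⟩
            · rw [tb_lor, Bool.or_eq_true] at h3
              rcases h3 with h3 | h3
              · exact Or.inl h3
              · right
                obtain ⟨i, e1, e2⟩ := fold_spec _ _ _ _ h3
                refine ⟨_, List.mem_cons_self, i, e1, ?_⟩
                rw [← has_iff r1 _ _ _ h2]
                have e3 : (i * g + r) * n + d = i * (Nat.mul g n) + (r * n + d) := by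
                  change _ = i * (g * n) + (r * n + d)
                  ring
                rw [e3]
                exact e2
            · exact Or.inr ⟨C, List.mem_cons_of_mem _ hC, h3⟩
          · intro C hC
            rcases List.mem_cons.1 hC with rfl | hC
            · refine ⟨B.1, k2', ?_, ?_, ?_⟩
              · rw [← k1]
                exact Nat.mul_mod_right _ _
              · intro a d ha hd hh
                rw [← has_iff r1 _ _ _ hd] at hh ⊢
                exact rotOK_spec n B.1 VK'.2 a d k4 k3' ha hd hh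
              · intro j hj
                have hj' : j < B.2.1.length := by
                  rw [← k1, mul_comm] at hj
                  exact Nat.lt_of_mul_lt_mul_left hj
                refine ⟨B.2.1[j], ?_⟩
                have h1 := mvs_get g B.2.1 0 j B.2.1[j] (by simp [hj'])
                rw [zero_add] at h1
                exact h1
            · exact i7 C hC
          · intro C hC
            rcases List.mem_cons.1 hC with rfl | hC
            · refine ⟨_, List.mem_cons_self, rfl, ?_⟩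
              intro c hc
              obtain ⟨h1, P, h2, h3⟩ := t3 c hc
              exact ⟨h1, P, r2 P h2, h3⟩
            · obtain ⟨B', h1, h2⟩ := i8 C hC
              exact ⟨B', List.mem_cons_of_mem _ h1, h2⟩

/-- the vertex `w` lies on the piece `P` of page `p` (after the rotation) -/
private def InPc (n : ℕ) (D : List Base) (p w : ℕ) (P : Piece) : Prop :=
  ∃ B ∈ D, ∃ s, (s, p) ∈ B.1 ∧ P ∈ B.2 ∧ ∃ v ∈ P.1, (v + s) % n = w

theorem sys_abs (n N : ℕ) (D : List Base)
    (hpg : ∀ B ∈ D, ∀ B' ∈ D, ∀ x ∈ B.1, ∀ x' ∈ B'.1, x.2 = x'.2 → B = B' ∧ x = x')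
    (hx : ∀ B ∈ D, ∀ x ∈ B.1, x.1 < n ∧ x.2 < N)
    (hP : ∀ B ∈ D, ∀ P ∈ B.2, PieceOK n P)
    (hdis : ∀ B ∈ D, ∀ P ∈ B.2, ∀ P' ∈ B.2, ∀ v ∈ P.1, v ∈ P'.1 → P = P')
    (hcov : ∀ u v, u < v → v < n → ∃ B ∈ D, ∃ x ∈ B.1, ∃ P ∈ B.2, ∃ c ∈ P.2,
      ((u = (c.1 + x.1) % n ∧ v = (c.2 + x.1) % n) ∨ (u = (c.2 + x.1) % n ∧ v = (c.1 + x.1) % n))) :
    ∃ (E : ℕ → ℕ → ℕ → Prop) (lam : ℕ → ℕ → ℕ),
      (∀ p u v, E p u v → p < N ∧ u < v ∧ v < n ∧ lam p u = lam p v) ∧
      (∀ p u v u' v', E p u v → E p u' v' → lam p u = lam p u' → u < u' → u' < v → v < v' → False) ∧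
      (∀ u v, u < v → v < n → ∃ p, E p u v) ∧
      (∀ B ∈ D, ∀ x ∈ B.1, ∀ P ∈ B.2, ∀ u v, E x.2 u v →
        ((∃ w ∈ P.1, (w + x.1) % n = u) ↔ ∃ w ∈ P.1, (w + x.1) % n = v)) := by
  classical
  have hrot : ∀ v v' s, v < n → v' < n → s < n → (v + s) % n = (v' + s) % n → v = v' := by
    intro v v' s hv hv' hs h
    rcases rot_cases n v s hv hs with ⟨a1, a2⟩ | ⟨a1, a2⟩ <;> rcases rot_cases n v' s hv' hs with ⟨b1, b2⟩ | ⟨b1, b2⟩ <;> omega
  have huniq : ∀ p w P P', InPc n D p w P → InPc n D p w P' → P = P' := by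
    rintro p w P P' ⟨B, hB, s, hs, hPB, v, hv, hw⟩ ⟨B', hB', s', hs', hPB', v', hv', hw'⟩
    obtain ⟨e1, e2⟩ := hpg B hB B' hB' (s, p) hs (s', p) hs' rfl
    subst e1
    have e3 : s = s' := congrArg Prod.fst e2
    subst e3
    have hvv : v = v' := hrot v v' s ((hP B hB P hPB).1 v hv) ((hP B hB P' hPB').1 v' hv') (hx B hB _ hs).1 (hw.trans hw'.symm)
    subst hvv
    exact hdis B hB P hPB P' hPB' v hv hv'
  let E : ℕ → ℕ → ℕ → Prop := fun p u v => u < v ∧ ∃ B ∈ D, ∃ s, (s, p) ∈ B.1 ∧ ∃ P ∈ B.2, ∃ c ∈ P.2,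
    ((u = (c.1 + s) % n ∧ v = (c.2 + s) % n) ∨ (u = (c.2 + s) % n ∧ v = (c.1 + s) % n))
  let lam : ℕ → ℕ → ℕ := fun p w => if hw : ∃ P, InPc n D p w P then Encodable.encode hw.choose else 0
  have hlam : ∀ p w P, InPc n D p w P → lam p w = Encodable.encode P := by
    intro p w P hP
    have h1 : ∃ P, InPc n D p w P := ⟨P, hP⟩
    change (if hw : ∃ P, InPc n D p w P then Encodable.encode hw.choose else 0) = _
    rw [dif_pos h1, huniq p w _ P h1.choose_spec hP]
  refine ⟨E, lam, ?_, ?_, ?_, ?_⟩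
  · rintro p u v ⟨huv, B, hB, s, hs, P, hPB, c, hc, hcuv⟩
    obtain ⟨q1, q2, q3⟩ := hP B hB P hPB
    obtain ⟨r1, r2, r3⟩ := q2 c hc
    obtain ⟨t1, t2⟩ := hx B hB _ hs
    have hn : 0 < n := by omega
    have l1 := hlam p ((c.1 + s) % n) P ⟨B, hB, s, hs, hPB, c.1, r2, rfl⟩
    have l2 := hlam p ((c.2 + s) % n) P ⟨B, hB, s, hs, hPB, c.2, r3, rfl⟩
    rcases hcuv with ⟨rfl, rfl⟩ | ⟨rfl, rfl⟩
    · exact ⟨t2, huv, Nat.mod_lt _ hn, l1.trans l2.symm⟩
    · exact ⟨t2, huv, Nat.mod_lt _ hn, l2.trans l1.symm⟩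
  · rintro p u v u' v' ⟨huv, B, hB, s, hs, P, hPB, c, hc, hcuv⟩ ⟨huv', B', hB', s', hs', P', hPB', c', hc', hcuv'⟩ hl c1 c2 c3
    obtain ⟨e1, e2⟩ := hpg B hB B' hB' (s, p) hs (s', p) hs' rfl
    subst e1
    have e3 : s = s' := congrArg Prod.fst e2
    subst e3
    obtain ⟨q1, q2, q3⟩ := hP B hB P hPB
    obtain ⟨r1, r2, r3⟩ := q2 c hc
    obtain ⟨q1', q2', q3'⟩ := hP B hB P' hPB'
    obtain ⟨r1', r2', r3'⟩ := q2' c' hc'
    have l1 : lam p u = Encodable.encode P := by
      rcases hcuv with ⟨rfl, _⟩ | ⟨rfl, _⟩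
      · exact hlam _ _ P ⟨B, hB, s, hs, hPB, c.1, r2, rfl⟩
      · exact hlam _ _ P ⟨B, hB, s, hs, hPB, c.2, r3, rfl⟩
    have l2 : lam p u' = Encodable.encode P' := by
      rcases hcuv' with ⟨rfl, _⟩ | ⟨rfl, _⟩
      · exact hlam _ _ P' ⟨B, hB, s, hs, hPB', c'.1, r2', rfl⟩
      · exact hlam _ _ P' ⟨B, hB, s, hs, hPB', c'.2, r3', rfl⟩
    have hPP : P = P' := Encodable.encode_injective (l1.symm.trans (hl.trans l2))
    subst hPP
    rcases rot_cross n s c.1 c.2 c'.1 c'.2 u v u' v' (hx B hB _ hs).1 r1 (q1 _ r3) r1' (q1 _ r3') hcuv hcuv' c1 c2 c3 with hx | hx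
    · exact q3 c hc c' hc' hx
    · exact q3 c' hc' c hc hx
  · intro u v huv hv
    obtain ⟨B, hB, x, hx, P, hP, c, hcP, hi⟩ := hcov u v huv hv
    exact ⟨x.2, huv, B, hB, x.1, hx, P, hP, c, hcP, hi⟩
  · rintro B hB x hxB P hPB u v ⟨huv, B', hB', s, hs, P', hPB', c, hc, hcuv⟩
    obtain ⟨e1, e2⟩ := hpg B hB B' hB' x hxB (s, x.2) hs rfl
    subst e1
    have e3 : x.1 = s := congrArg Prod.fst e2
    subst e3
    obtain ⟨q1, q2, q3⟩ := hP B hB P' hPB'
    obtain ⟨r1, r2, r3⟩ := q2 c hc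
    have key : ∀ e e' : ℕ, e ∈ P'.1 → e' ∈ P'.1 → (∃ w ∈ P.1, (w + x.1) % n = (e + x.1) % n) →
        ∃ w ∈ P.1, (w + x.1) % n = (e' + x.1) % n := by
      rintro e e' he he' ⟨w, hw, hwe⟩
      have h1 : w = e := hrot w e x.1 ((hP B hB P hPB).1 w hw) (q1 e he) (hx B hB _ hxB).1 hwe
      subst h1
      have h2 := hdis B hB P hPB P' hPB' w hw he
      subst h2
      exact ⟨e', he', rfl⟩
    rcases hcuv with ⟨rfl, rfl⟩ | ⟨rfl, rfl⟩
    · exact ⟨key _ _ r2 r3, key _ _ r3 r2⟩
    · exact ⟨key _ _ r3 r2, key _ _ r2 r3⟩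

/-- all chords, with a distinguished component -/
theorem chk_spec (k g : ℕ) (D : List Pg) (h : chk k g D = true) :
    ∃ (E : ℕ → ℕ → ℕ → Prop) (lam : ℕ → ℕ → ℕ),
      (∀ p u v, E p u v → p < k ∧ u < v ∧ v < 3 * k ∧ lam p u = lam p v) ∧
      (∀ p u v u' v', E p u v → E p u' v' → lam p u = lam p u' → u < u' → u' < v → v < v' → False) ∧
      (∀ u v, u < v → v < 3 * k → ∃ p, E p u v) ∧
      (hasT k g D = true → ∀ u v, E (k - 1) u v → (u % k = k - 1 ↔ v % k = k - 1)) := by
  unfold chk at h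
  obtain ⟨h0, h⟩ := ite'_true h
  obtain ⟨h1, h⟩ := ite'_true h
  have hg := blt_lt h0
  rw [natbeq] at h1
  obtain ⟨D', i1, i2, i3, i4, i5, i6, i7, i8⟩ := go_spec (3 * k) k g k rfl hg h1 D 0 0 h
  have hcov : ∀ u v, u < v → v < 3 * k → ∃ B ∈ D', ∃ x ∈ B.1, ∃ P ∈ B.2, ∃ c ∈ P.2,
      ((u = (c.1 + x.1) % (3 * k) ∧ v = (c.2 + x.1) % (3 * k)) ∨ (u = (c.2 + x.1) % (3 * k) ∧ v = (c.1 + x.1) % (3 * k))) := by
    intro u v huv hv
    generalize hn : 3 * k = n at *
    obtain ⟨m, hm⟩ : ∃ m, n = g * m := Nat.dvd_of_mod_eq_zero h1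
    have hmg : n / g = m := by
      rw [hm]
      exact Nat.mul_div_cancel_left m hg
    rcases i6 (u % g) (v - u) (Nat.mod_lt _ hg) (by omega) (by omega) with h3 | ⟨B, hB, i, hi, hh⟩
    · rw [Nat.zero_testBit] at h3
      exact absurd h3 (by simp)
    obtain ⟨L, hL0, hLg, hinv, hmv⟩ := i7 B hB
    obtain ⟨a, ha⟩ : ∃ a, a = i * g + u % g := ⟨_, rfl⟩
    rw [← ha] at hh
    have han : a < n := by
      have h4 : (i + 1) * g ≤ m * g := Nat.mul_le_mul_right g (by omega)
      have h5 : (i + 1) * g = i * g + g := by ring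
      have h6 := Nat.mod_lt u hg
      have h7 : g * m = m * g := mul_comm _ _
      omega
    -- rotation by multiples of `L`
    have hiter : ∀ t, Has n B ((a + t * L) % n) (v - u) := by
      intro t
      induction t with
      | zero => simpa [Nat.mod_eq_of_lt han] using hh
      | succ t iht =>
        have h4 := hinv _ _ (Nat.mod_lt _ (by omega)) (by omega) iht
        have h5 : ((a + t * L) % n + L) % n = (a + (t + 1) * L) % n := by
          rw [Nat.mod_add_mod]
          congr 1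
          ring
        rw [h5] at h4
        exact h4
    obtain ⟨s0, hs0⟩ : ∃ s0, s0 = (u + n - a) := ⟨_, rfl⟩
    have hs0g : s0 % g = 0 := by
      have e1 : s0 + a = u + n := by omega
      have e2 : u + n = g * (u / g + m) + u % g := by
        have := Nat.div_add_mod u g
        rw [mul_add]
        omega
      have e3 : s0 + g * i = g * (u / g + m) := by
        have : g * i = i * g := mul_comm _ _
        omega
      have e4 : (s0 + g * i) % g = s0 % g := Nat.add_mul_mod_self_left _ _ _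
      rw [← e4, e3]
      exact Nat.mul_mod_right _ _
    have hs1g : (s0 % L) % g = 0 := by
      rw [Nat.mod_mod_of_dvd _ (Nat.dvd_of_mod_eq_zero hLg)]
      exact hs0g
    obtain ⟨j, hj⟩ : ∃ j, s0 % L = j * g := by
      obtain ⟨j, hj⟩ := Nat.dvd_of_mod_eq_zero hs1g
      exact ⟨j, by rw [hj, mul_comm]⟩
    obtain ⟨p, hp⟩ := hmv j (by rw [← hj]; exact Nat.mod_lt _ hL0)
    obtain ⟨P, hP, c, hc, hcc⟩ := hiter (s0 / L)
    have hkey : ∀ z, (((a + s0 / L * L) % n + z) + j * g) % n = (u + z) % n := by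
      intro z
      have e1 : ((a + s0 / L * L) % n + z) + j * g = (a + s0 / L * L) % n + (z + j * g) := by ring
      have e2 : s0 / L * L + j * g = s0 := by
        rw [← hj, mul_comm]
        exact Nat.div_add_mod s0 L
      have e3 : a + s0 / L * L + (z + j * g) = (u + z) + n := by omega
      rw [e1, Nat.mod_add_mod, e3, Nat.add_mod_right]
    have hk0 := hkey 0
    have hk1 := hkey (v - u)
    rw [add_zero, add_zero, Nat.mod_eq_of_lt (show u < n by omega)] at hk0
    have e5 : u + (v - u) = v := by omega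
    rw [e5, Nat.mod_eq_of_lt hv] at hk1
    refine ⟨B, hB, (j * g, p), hp, P, hP, c, hc, ?_⟩
    obtain ⟨q1, q2, q3⟩ := i4 B hB P hP
    obtain ⟨r1, r2, r3⟩ := q2 c hc
    have hc2 := q1 _ r3
    rcases hcc with ⟨f1, f2⟩ | ⟨f1, f2⟩
    · left
      refine ⟨?_, ?_⟩
      · rw [← f1]
        exact hk0.symm
      · rw [f1] at hk1
        have e6 : c.1 + (v - u) = c.2 := by omega
        rw [e6] at hk1
        exact hk1.symm
    · right
      refine ⟨?_, ?_⟩
      · rw [← f1]
        exact hk0.symm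
      · rw [f1] at hk1
        have e6 : c.2 + (v - u) + j * g = c.1 + j * g + n := by omega
        rw [e6, Nat.add_mod_right] at hk1
        exact hk1.symm
  obtain ⟨E, lam, h2, h3, h4, h5⟩ := sys_abs (3 * k) k D' i2 i3 i4 i5 hcov
  refine ⟨E, lam, h2, h3, h4, ?_⟩
  intro hT u v hE
  unfold hasT at hT
  rw [List.any_eq_true] at hT
  obtain ⟨B, hB, hT⟩ := hT
  rw [List.any_eq_true] at hT
  obtain ⟨j, hj, hT⟩ := hT
  rw [Bool.and_eq_true, natbeq, List.any_eq_true] at hT
  obtain ⟨hp, c, hc, hT⟩ := hT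
  rw [natbeq] at hT
  change (c + j * g) % k = k - 1 at hT
  rw [List.mem_range] at hj
  obtain ⟨B', hB', e1, e2⟩ := i8 B hB
  obtain ⟨hck, P, hP, hPc⟩ := e2 c hc
  have hmem : (j * g, k - 1) ∈ B'.1 := by
    rw [e1]
    have h6 := mvs_get g B.2.1 0 j (k - 1) (by
      rw [← hp]
      simp [List.getD, hj])
    rw [zero_add] at h6
    exact h6
  have h6 := h5 B' hB' _ hmem P hP u v hE
  have hk : 0 < k := by omega
  have hz : ∀ z, z < 3 * k → ((∃ w ∈ P.1, (w + j * g) % (3 * k) = z) ↔ z % k = k - 1) := by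
    intro z hz
    rw [hPc]
    simp only [List.mem_cons, List.not_mem_nil, or_false, exists_eq_or_imp, exists_eq_left]
    have hjg := Nat.div_add_mod (c + j * g) k
    rw [hT] at hjg
    obtain ⟨q, hq⟩ : ∃ q, q = (c + j * g) / k := ⟨_, rfl⟩
    rw [← hq] at hjg
    have f0 : ∀ i, c + i * k + j * g = (q + i) * k + (k - 1) := by
      intro i
      have : (q + i) * k = k * q + i * k := by ring
      omega
    have f1 : ∀ i, (c + i * k + j * g) % (3 * k) = ((q + i) % 3) * k + (k - 1) := by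
      intro i
      rw [f0]
      have g1 : (q + i) * k + (k - 1) = 3 * k * ((q + i) / 3) + (((q + i) % 3) * k + (k - 1)) := by
        have := Nat.div_add_mod (q + i) 3
        have g2 : 3 * k * ((q + i) / 3) + ((q + i) % 3) * k = (3 * ((q + i) / 3) + (q + i) % 3) * k := by ring
        rw [← add_assoc, g2, this]
      rw [g1, Nat.mul_add_mod]
      apply Nat.mod_eq_of_lt
      have g3 : (q + i) % 3 * k ≤ 2 * k := Nat.mul_le_mul_right k (by omega)
      omega
    have f2 : (c + j * g) % (3 * k) = (q % 3) * k + (k - 1) := by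
      have := f1 0
      simpa using this
    have f3 : (c + k + j * g) % (3 * k) = ((q + 1) % 3) * k + (k - 1) := by
      have := f1 1
      simpa using this
    have f4 : (c + 2 * k + j * g) % (3 * k) = ((q + 2) % 3) * k + (k - 1) := f1 2
    rw [f2, f3, f4]
    constructor
    · intro hh
      have g4 : ∀ t, (t * k + (k - 1)) % k = k - 1 := by
        intro t
        rw [Nat.mul_comm t k, Nat.mul_add_mod]
        exact Nat.mod_eq_of_lt (Nat.sub_lt hk Nat.one_pos)
      rcases hh with hh | hh | hh <;> rw [← hh] <;> exact g4 _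
    · intro hh
      have g5 := Nat.div_add_mod z k
      rw [hh] at g5
      obtain ⟨t, ht⟩ : ∃ t, t = z / k := ⟨_, rfl⟩
      rw [← ht] at g5
      have ht3 : t < 3 := by
        rw [ht]
        exact Nat.div_lt_of_lt_mul (by rw [mul_comm]; exact hz)
      have g6 : z = t * k + (k - 1) := by
        have : k * t = t * k := mul_comm _ _
        omega
      have g7 : t = q % 3 ∨ t = (q + 1) % 3 ∨ t = (q + 2) % 3 := by omega
      rcases g7 with g7 | g7 | g7
      · left
        rw [g6, g7]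
      · right
        left
        rw [g6, g7]
      · right
        right
        rw [g6, g7]
  obtain ⟨a1, a2, a3, a4⟩ := h2 _ _ _ hE
  have hu := hz u (by omega)
  have hv := hz v a3
  simp only at h6
  rw [← hu, ← hv]
  exact h6

theorem U_of_chk (k g : ℕ) (D : List Pg) (h : chk k g D = true) : U k := by
  obtain ⟨E, lam, h1, h2, h3, _⟩ := chk_spec k g D h
  refine ⟨E, lam, ?_, h2, ?_⟩
  · intro p u v hE
    obtain ⟨a1, a2, a3, a4⟩ := h1 p u v hE
    exact ⟨a1, a2, a3, by simp only; omega, by simp only; omega, a4⟩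
  · intro u v huv hv _
    exact h3 u v huv hv

theorem UT_of_chk (k g : ℕ) (D : List Pg) (h : chk k g D = true) (hT : hasT k g D = true) : UT k := by
  obtain ⟨E, lam, h1, h2, h3, h4⟩ := chk_spec k g D h
  have h5 := h4 hT
  refine ⟨fun p u v => E p u v ∧ ¬ (p = k - 1 ∧ u % k = k - 1), lam, ?_, ?_, ?_⟩
  · rintro p u v ⟨hE, hne⟩
    obtain ⟨a1, a2, a3, a4⟩ := h1 p u v hE
    refine ⟨a1, a2, a3, ?_, ?_, a4⟩
    · show (if u % k = k - 1 then 3 * k else u) ≠ (if p = k - 1 then 3 * k else 3 * k + 1)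
      by_cases hp : p = k - 1
      · rw [if_neg (fun hu => hne ⟨hp, hu⟩), if_pos hp]
        omega
      · rw [if_neg hp]
        split_ifs <;> omega
    · show (if v % k = k - 1 then 3 * k else v) ≠ (if p = k - 1 then 3 * k else 3 * k + 1)
      by_cases hp : p = k - 1
      · have h6 : ¬ v % k = k - 1 := by
          intro hv
          subst hp
          exact hne ⟨rfl, (h5 u v hE).2 hv⟩
        rw [if_neg h6, if_pos hp]
        omega
      · rw [if_neg hp]
        split_ifs <;> omega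
  · rintro p u v u' v' ⟨hE, _⟩ ⟨hE', _⟩
    exact h2 p u v u' v' hE hE'
  · intro u v huv hv hc
    obtain ⟨p, hE⟩ := h3 u v huv hv
    refine ⟨p, hE, ?_⟩
    rintro ⟨hp, hu⟩
    subst hp
    have hv' := (h5 u v hE).1 hu
    apply hc
    show (if u % k = k - 1 then 3 * k else u) = (if v % k = k - 1 then 3 * k else v)
    rw [if_pos hu, if_pos hv']

end Pool.Agent.Lib.MP_a966e6_co.PNU
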