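import Pool.Agent.Lib.MP_a966e6_co.PNU.Fill01

/-! Transversal designs and the closure theorems `tdU`, `tdT`. -/

set_option autoImplicit false

namespace Pool.Agent.Lib.MP_a966e6_co.PNU

/-- Transversal design with `K` groups of `N` points: the block `(a, b)` meets the group `i` in the point `y i a b`. -/
def TD (K N : ℕ) : Prop := ∃ y : ℕ → ℕ → ℕ → ℕ,
  (∀ i a b, i < K → a < N → b < N → y i a b < N) ∧
  (∀ i i' p q, i < K → i' < K → i ≠ i' → p < N → q < N → ∃ a b, a < N ∧ b < N ∧ y i a b = p ∧ y i' a b = q) ∧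
  (∀ i i' a b a' b', i < K → i' < K → i ≠ i' → a < N → b < N → a' < N → b' < N →
    y i a b = y i a' b' → y i' a b = y i' a' b' → a = a' ∧ b = b')

theorem TD.of_inj {K N : ℕ} (y : ℕ → ℕ → ℕ → ℕ) (h1 : ∀ i a b, i < K → a < N → b < N → y i a b < N)
    (h2 : ∀ i i' a b a' b', i < K → i' < K → i ≠ i' → a < N → b < N → a' < N → b' < N →
      y i a b = y i a' b' → y i' a b = y i' a' b' → a = a' ∧ b = b') : TD K N := by
  refine ⟨y, h1, ?_, h2⟩
  intro i i' p q hi hi' hii hp hq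
  let f : Fin N × Fin N → Fin N × Fin N := fun t =>
    (⟨y i t.1 t.2, h1 i _ _ hi t.1.2 t.2.2⟩, ⟨y i' t.1 t.2, h1 i' _ _ hi' t.1.2 t.2.2⟩)
  have hf : Function.Injective f := by
    rintro ⟨a, b⟩ ⟨a', b'⟩ h
    simp only [f, Prod.mk.injEq, Fin.mk.injEq] at h
    obtain ⟨e1, e2⟩ := h2 i i' _ _ _ _ hi hi' hii a.2 b.2 a'.2 b'.2 h.1 h.2
    rw [Fin.ext e1, Fin.ext e2]
  obtain ⟨⟨a, b⟩, h⟩ := (Finite.injective_iff_surjective.1 hf) (⟨p, hp⟩, ⟨q, hq⟩)
  simp only [f, Prod.mk.injEq, Fin.mk.injEq] at h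
  exact ⟨a, b, a.2, b.2, h.1, h.2⟩

theorem TD.of_surj {K N : ℕ} (y : ℕ → ℕ → ℕ → ℕ) (h1 : ∀ i a b, i < K → a < N → b < N → y i a b < N)
    (h2 : ∀ i i' p q, i < K → i' < K → i ≠ i' → p < N → q < N → ∃ a b, a < N ∧ b < N ∧ y i a b = p ∧ y i' a b = q) :
    TD K N := by
  refine ⟨y, h1, h2, ?_⟩
  intro i i' a b a' b' hi hi' hii ha hb ha' hb' e e'
  let f : Fin N × Fin N → Fin N × Fin N := fun t =>
    (⟨y i t.1 t.2, h1 i _ _ hi t.1.2 t.2.2⟩, ⟨y i' t.1 t.2, h1 i' _ _ hi' t.1.2 t.2.2⟩)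
  have hf : Function.Surjective f := by
    rintro ⟨p, q⟩
    obtain ⟨a, b, ha, hb, k1, k2⟩ := h2 i i' p q hi hi' hii p.2 q.2
    refine ⟨(⟨a, ha⟩, ⟨b, hb⟩), ?_⟩
    simp only [f, Prod.mk.injEq]
    exact ⟨Fin.ext k1, Fin.ext k2⟩
  have hi := Finite.injective_iff_surjective.2 hf
  have := @hi (⟨a, ha⟩, ⟨b, hb⟩) (⟨a', ha'⟩, ⟨b', hb'⟩) (by
    simp only [f, Prod.mk.injEq, Fin.mk.injEq]
    exact ⟨e, e'⟩)
  simp only [Prod.mk.injEq, Fin.mk.injEq] at this
  exact this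

/-- `TD(8, N)` for `N` coprime to 30: the lines `y = a x + b`. -/
theorem TD_of_coprime (N : ℕ) (hN : Nat.Coprime N 30) : TD 8 N := by
  refine TD.of_inj (fun i a b => if i < 7 then (a * i + b) % N else a) ?_ ?_
  · intro i a b _ ha _
    show (if i < 7 then (a * i + b) % N else a) < N
    split_ifs
    · exact Nat.mod_lt _ (by omega)
    · exact ha
  · intro i i' a b a' b' hi hi' hii ha hb ha' hb' e e'
    have key : ∀ i, i < 7 → (a * i + b) % N = (a' * i + b') % N →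
        ((N : ℤ) ∣ ((a : ℤ) - a') * i + (b - b')) := by
      intro i _ h
      have h1 : ((a * i + b : ℕ) : ℤ) % N = ((a' * i + b' : ℕ) : ℤ) % N := by
        exact_mod_cast h
      have h2 := Int.emod_emod_of_dvd ((a * i + b : ℕ) : ℤ) (dvd_refl (N : ℤ))
      have h3 := Int.emod_eq_emod_iff_emod_sub_eq_zero.1 h1
      have h4 := Int.dvd_of_emod_eq_zero h3
      push_cast at h4
      have e5 : ((a : ℤ) - a') * i + (b - b') = (a : ℤ) * i + b - ((a' : ℤ) * i + b') := by ring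
      rw [e5]
      exact h4
    have small : ∀ x y : ℕ, x < N → y < N → ((N : ℤ) ∣ ((x : ℤ) - y)) → x = y := by
      intro x y hx hy h
      have h1 := Int.eq_zero_of_abs_lt_dvd h (by rw [abs_lt]; constructor <;> omega)
      omega
    have fin : ∀ i, i < 7 → a = a' → (a * i + b) % N = (a' * i + b') % N → b = b' := by
      intro i hi h1 h2
      have h3 := key i hi h2
      subst h1
      refine small b b' hb hb' ?_
      have e6 : ((a : ℤ) - a) * i + ((b : ℤ) - b') = (b : ℤ) - b' := by ring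
      rw [e6] at h3
      exact h3
    have e1 : (if i < 7 then (a * i + b) % N else a) = (if i < 7 then (a' * i + b') % N else a') := e
    have e2 : (if i' < 7 then (a * i' + b) % N else a) = (if i' < 7 then (a' * i' + b') % N else a') := e'
    by_cases h7 : i < 7
    · rw [if_pos h7, if_pos h7] at e1
      by_cases h7' : i' < 7
      · rw [if_pos h7', if_pos h7'] at e2
        have k1 := key i h7 e1
        have k2 := key i' h7' e2
        have k3 : (N : ℤ) ∣ ((a : ℤ) - a') * (((i : ℤ)) - i') := by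
          have := dvd_sub k1 k2
          have e5 : ((a : ℤ) - a') * i + (b - b') - (((a : ℤ) - a') * i' + (b - b')) = ((a : ℤ) - a') * (((i : ℤ)) - i') := by
            ring
          rw [e5] at this
          exact this
        have hc : IsCoprime (N : ℤ) ((i : ℤ) - i') := by
          have h30 : IsCoprime (N : ℤ) (30 : ℤ) := by
            exact_mod_cast Nat.isCoprime_iff_coprime.2 hN
          have hsq : IsCoprime (N : ℤ) ((30 : ℤ) ^ 2) := h30.pow_right
          refine IsCoprime.of_isCoprime_of_dvd_right hsq ?_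
          have : (i : ℤ) - i' = 1 ∨ (i : ℤ) - i' = 2 ∨ (i : ℤ) - i' = 3 ∨ (i : ℤ) - i' = 4 ∨ (i : ℤ) - i' = 5 ∨
              (i : ℤ) - i' = 6 ∨ (i : ℤ) - i' = -1 ∨ (i : ℤ) - i' = -2 ∨ (i : ℤ) - i' = -3 ∨ (i : ℤ) - i' = -4 ∨
              (i : ℤ) - i' = -5 ∨ (i : ℤ) - i' = -6 := by omega
          rcases this with h | h | h | h | h | h | h | h | h | h | h | h <;> rw [h] <;> norm_num
        have ha2 := small a a' ha ha' (hc.dvd_of_dvd_mul_right k3)
        exact ⟨ha2, fin i h7 ha2 e1⟩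
      · rw [if_neg h7', if_neg h7'] at e2
        exact ⟨e2, fin i h7 e2 e1⟩
    · rw [if_neg h7, if_neg h7] at e1
      have h7' : i' < 7 := by omega
      rw [if_pos h7', if_pos h7'] at e2
      exact ⟨e1, fin i' h7' e1 e2⟩

/-! ### `TD(8, 9)` from the field with nine elements (`3 x + y` stands for `x i + y`) -/

def add9 (u v : ℕ) : ℕ := (u / 3 + v / 3) % 3 * 3 + (u % 3 + v % 3) % 3
def neg9 (u : ℕ) : ℕ := (3 - u / 3) % 3 * 3 + (3 - u % 3) % 3
def mul9 (u v : ℕ) : ℕ := (u / 3 * (v % 3) + u % 3 * (v / 3)) % 3 * 3 + (u % 3 * (v % 3) + 2 * (u / 3 * (v / 3))) % 3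
def inv9 (u : ℕ) : ℕ := mul9 u (mul9 (mul9 u u) (mul9 (mul9 u u) (mul9 u u)))

def y9 (i a b : ℕ) : ℕ := add9 (mul9 a i) b

def a9 (i i' p q : ℕ) : ℕ := mul9 (add9 q (neg9 p)) (inv9 (add9 i' (neg9 i)))
def b9 (i i' p q : ℕ) : ℕ := add9 p (neg9 (mul9 (a9 i i' p q) i))

def ok9 (i i' p q : ℕ) : Bool :=
  i == i' || (decide (a9 i i' p q < 9) && decide (b9 i i' p q < 9) && y9 i (a9 i i' p q) (b9 i i' p q) == p &&
    y9 i' (a9 i i' p q) (b9 i i' p q) == q)

theorem check9 : ∀ i < 8, ∀ i' < 8, ∀ p < 9, ∀ q < 9, ok9 i i' p q = true := by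
  decide +kernel

theorem TD_nine : TD 8 9 := by
  refine TD.of_surj y9 ?_ ?_
  · intro i a b _ _ _
    unfold y9 add9
    omega
  · intro i i' p q hi hi' hii hp hq
    have h := check9 i hi i' hi' p hp q hq
    unfold ok9 at h
    simp only [Bool.or_eq_true, beq_iff_eq, Bool.and_eq_true, decide_eq_true_eq] at h
    rcases h with h | ⟨⟨⟨h1, h2⟩, h3⟩, h4⟩
    · exact absurd h hii
    · exact ⟨_, _, h1, h2, h3, h4⟩

end Pool.Agent.Lib.MP_a966e6_co.PNU
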