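import Pool.Agent.Lib.MP_a966e6_co.PNU.TD

/-! Truncated transversal designs with weights: the closure theorems `tdU`, `tdT`. -/

set_option autoImplicit false

namespace Pool.Agent.Lib.MP_a966e6_co.PNU

theorem frC_zero (g : ℕ) : FrC g 0 := by
  refine ⟨fun _ _ _ => False, fun _ _ => 0, ?_, ?_, ?_⟩
  · intro p u v h
    exact h.elim
  · intro p u v u' v' h
    exact h.elim
  · intro u v _ hv
    simp at hv

/-- the group of the point `x` -/
def grp (m N t1 x : ℕ) : ℕ := if x < m * N then x / N else if x < m * N + t1 then m else m + 1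

/-- the first point of the group `i` -/
def off (m N t1 i : ℕ) : ℕ := if i ≤ m then i * N else m * N + t1

/-- the size of the group `i` -/
def siz (m N t1 t2 i : ℕ) : ℕ := if i < m then N else if i = m then t1 else if i = m + 1 then t2 else 0

theorem grp_off {m N t1 t2 i w : ℕ} (hi : i < m + 2) (hw : w < siz m N t1 t2 i) :
    grp m N t1 (off m N t1 i + w) = i ∧ off m N t1 i + w < m * N + t1 + t2 ∧
      off m N t1 i + siz m N t1 t2 i ≤ m * N + t1 + t2 := by
  unfold siz at hw ⊢
  unfold grp off
  by_cases h : i < m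
  · rw [if_pos h] at hw ⊢
    rw [if_pos h.le]
    have h1 : (i + 1) * N ≤ m * N := Nat.mul_le_mul_right N h
    rw [add_mul, one_mul] at h1
    rw [if_pos (show i * N + w < m * N by omega)]
    refine ⟨?_, by omega, by omega⟩
    rw [mul_comm, Nat.mul_add_div (by omega), Nat.div_eq_of_lt hw, add_zero]
  · rw [if_neg h] at hw ⊢
    by_cases h' : i = m
    · subst h'
      rw [if_pos rfl] at hw ⊢
      rw [if_pos le_rfl, if_neg (by omega), if_pos (by omega)]
      exact ⟨rfl, by omega, by omega⟩
    · rw [if_neg h'] at hw ⊢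
      have h'' : i = m + 1 := by omega
      subst h''
      rw [if_pos rfl] at hw ⊢
      rw [if_neg (show ¬ (m + 1 ≤ m) by omega), if_neg (show ¬ (m * N + t1 + w < m * N) by omega),
        if_neg (show ¬ (m * N + t1 + w < m * N + t1) by omega)]
      exact ⟨rfl, by omega, by omega⟩

theorem exists_off {m N t1 t2 x : ℕ} (hx : x < m * N + t1 + t2) :
    ∃ i w, i < m + 2 ∧ w < siz m N t1 t2 i ∧ off m N t1 i + w = x ∧ grp m N t1 x = i := by
  have main : ∃ i w, i < m + 2 ∧ w < siz m N t1 t2 i ∧ off m N t1 i + w = x := by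
    by_cases h : x < m * N
    · obtain ⟨h1, h2, h3⟩ := div_mod_lt x N m h
      refine ⟨x / N, x % N, by omega, ?_, ?_⟩
      · unfold siz
        rw [if_pos h1]
        exact h2
      · unfold off
        rw [if_pos h1.le, mul_comm]
        exact Nat.div_add_mod x N
    · by_cases h' : x < m * N + t1
      · refine ⟨m, x - m * N, by omega, ?_, ?_⟩
        · unfold siz
          rw [if_neg (by omega), if_pos rfl]
          omega
        · unfold off
          rw [if_pos le_rfl]
          omega
      · refine ⟨m + 1, x - (m * N + t1), by omega, ?_, ?_⟩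
        · unfold siz
          rw [if_neg (by omega), if_neg (by omega), if_pos rfl]
          omega
        · unfold off
          rw [if_neg (by omega)]
          omega
  obtain ⟨i, w, h1, h2, h3⟩ := main
  refine ⟨i, w, h1, h2, h3, ?_⟩
  rw [← h3]
  exact (grp_off h1 h2).1

theorem off_mono {m N t1 t2 i i' : ℕ} (hi : i < i') (hi' : i' < m + 2) (_ht : t1 ≤ N) :
    off m N t1 i + siz m N t1 t2 i ≤ off m N t1 i' := by
  unfold off siz
  by_cases h : i < m
  · rw [if_pos h, if_pos h.le]
    by_cases h' : i' ≤ m
    · rw [if_pos h']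
      have h1 : (i + 1) * N ≤ i' * N := Nat.mul_le_mul_right N hi
      rw [add_mul, one_mul] at h1
      exact h1
    · rw [if_neg h']
      have h1 : (i + 1) * N ≤ m * N := Nat.mul_le_mul_right N h
      rw [add_mul, one_mul] at h1
      omega
  · have h1 : i = m := by omega
    have h2 : i' = m + 1 := by omega
    subst h1
    subst h2
    rw [if_neg h, if_pos rfl, if_pos le_rfl, if_neg (by omega)]

/-- The weighted frame of a truncated transversal design: `m` groups of `N`, one of `t1` and one of `t2` points,
weight `g`. -/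
theorem tdFrame {g m N t1 t2 : ℕ} (h0 : FrC g m) (h1 : FrC g (m + 1)) (h2 : FrC g (m + 2)) (hTD : TD (m + 2) N)
    (ht1 : t1 ≤ N) (ht2 : t2 ≤ N) :
    Gr (g * (m * N + t1 + t2)) (fun x => grp m N t1 (x % (m * N + t1 + t2))) := by
  obtain ⟨y, hy, hex, hun⟩ := hTD
  -- number of the group of the point number `s` of the block `(a, b)`
  let G : Fin N × Fin N → ℕ → ℕ := fun t s => if s < m then s else if s = m ∧ y m t.1 t.2 < t1 then m else m + 1
  let Z : Fin N × Fin N → ℕ := fun t => m + (if y m t.1 t.2 < t1 then 1 else 0) + (if y (m + 1) t.1 t.2 < t2 then 1 else 0)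
  have G2 : ∀ t s, s < Z t → G t s < m + 2 ∧ y (G t s) t.1 t.2 < siz m N t1 t2 (G t s) := by
    intro t s hs
    simp only [Z] at hs
    simp only [G]
    by_cases c1 : s < m
    · rw [if_pos c1]
      refine ⟨by omega, ?_⟩
      unfold siz
      rw [if_pos c1]
      exact hy _ _ _ (by omega) t.1.2 t.2.2
    · rw [if_neg c1]
      by_cases c2 : s = m ∧ y m t.1 t.2 < t1
      · rw [if_pos c2]
        refine ⟨by omega, ?_⟩
        unfold siz
        rw [if_neg (by omega), if_pos rfl]
        exact c2.2
      · rw [if_neg c2]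
        refine ⟨by omega, ?_⟩
        unfold siz
        rw [if_neg (by omega), if_neg (by omega), if_pos rfl]
        by_contra c3
        rw [if_neg c3] at hs
        by_cases c4 : y m t.1 t.2 < t1
        · rw [if_pos c4] at hs
          exact c2 ⟨by omega, c4⟩
        · rw [if_neg c4] at hs
          omega
  have Gm : ∀ t s s', s < s' → s' < Z t → G t s < G t s' := by
    intro t s s' hss hs'
    simp only [Z] at hs'
    simp only [G]
    by_cases c1 : s < m
    · rw [if_pos c1]
      split_ifs with c2 c3 <;> omega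
    · rw [if_neg c1, if_neg (show ¬ s' < m by omega), if_neg (show ¬ (s' = m ∧ y m t.1 t.2 < t1) by omega)]
      split_ifs at hs' with c3 c4
      · rw [if_pos ⟨by omega, c3⟩]
        omega
      · omega
      · omega
      · omega
  have Gi : ∀ t s s', s < Z t → s' < Z t → G t s = G t s' → s = s' := by
    intro t s s' hs hs' h
    rcases lt_trichotomy s s' with h' | h' | h'
    · have := Gm t s s' h' hs'
      omega
    · exact h'
    · have := Gm t s' s h' hs
      omega
  have hcl : ∀ t s, s < Z t → grp m N t1 (off m N t1 (G t s) + y (G t s) t.1 t.2) = G t s := by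
    intro t s hs
    obtain ⟨a1, a2⟩ := G2 t s hs
    exact (grp_off a1 a2).1
  refine wilson g (m * N + t1 + t2) (grp m N t1) Z
    (fun t s => off m N t1 (G t s) + y (G t s) t.1 t.2) ?_ ?_ ?_ ?_ ?_ ?_
  · intro t
    simp only [Z]
    split_ifs
    · exact h2
    · exact h1
    · exact h1
    · exact h0
  · intro t s s' hss hs'
    have a1 := G2 t s (by omega)
    have a2 := Gm t s s' hss hs'
    have a3 := G2 t s' hs'
    have := off_mono (m := m) (N := N) (t1 := t1) (t2 := t2) a2 a3.1 ht1
    omega
  · intro t s hs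
    obtain ⟨a1, a2⟩ := G2 t s hs
    exact (grp_off a1 a2).2.1
  · intro t s s' hs hs' hne h
    rw [hcl t s hs, hcl t s' hs'] at h
    exact hne (Gi t s s' hs hs' h)
  · intro t t' s s' r r' hs hs' hne hr hr' e e'
    have f1 := hcl t s hs
    have f2 := hcl t' r hr
    have f3 := hcl t s' hs'
    have f4 := hcl t' r' hr'
    rw [e, f2] at f1
    rw [e', f4] at f3
    rw [f1] at e
    rw [f3] at e'
    have k1 := G2 t s hs
    have k2 := G2 t s' hs'
    have hn : G t s ≠ G t s' := fun h => hne (Gi t s s' hs hs' h)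
    obtain ⟨q1, q2⟩ := hun (G t s) (G t s') t.1 t.2 t'.1 t'.2 k1.1 k2.1 hn t.1.2 t.2.2 t'.1.2 t'.2.2
      (by omega) (by omega)
    exact Prod.ext (Fin.ext q1) (Fin.ext q2)
  · intro x x' hx hx' hc
    obtain ⟨i, w, i1, i2, i3, i4⟩ := exists_off (t2 := t2) hx
    obtain ⟨i', w', j1, j2, j3, j4⟩ := exists_off (t2 := t2) hx'
    rw [i4, j4] at hc
    have szle : ∀ i, siz m N t1 t2 i ≤ N := by
      intro i
      unfold siz
      split_ifs <;> omega
    obtain ⟨a, b, ha, hb, e1, e2⟩ := hex i i' w w' i1 j1 hc (lt_of_lt_of_le i2 (szle i)) (lt_of_lt_of_le j2 (szle i'))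
    have idx : ∀ i w, i < m + 2 → w < siz m N t1 t2 i → y i a b = w →
        ∃ s, s < Z (⟨a, ha⟩, ⟨b, hb⟩) ∧ G (⟨a, ha⟩, ⟨b, hb⟩) s = i := by
      intro i w hi hw hyw
      simp only [Z, G]
      unfold siz at hw
      by_cases c1 : i < m
      · exact ⟨i, by omega, if_pos c1⟩
      · rw [if_neg c1] at hw
        by_cases c2 : i = m
        · subst c2
          rw [if_pos rfl] at hw
          refine ⟨i, ?_, ?_⟩
          · rw [if_pos (show y i a b < t1 by omega)]
            omega
          · rw [if_neg c1, if_pos ⟨rfl, show y i a b < t1 by omega⟩]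
        · rw [if_neg c2] at hw
          have c3 : i = m + 1 := by omega
          subst c3
          rw [if_pos rfl] at hw
          rw [if_pos (show y (m + 1) a b < t2 by omega)]
          by_cases c4 : y m a b < t1
          · refine ⟨m + 1, ?_, ?_⟩
            · rw [if_pos c4]
              omega
            · rw [if_neg (by omega), if_neg (by omega)]
          · refine ⟨m, ?_, ?_⟩
            · rw [if_neg c4]
              omega
            · rw [if_neg (by omega), if_neg (fun h => c4 h.2)]
    obtain ⟨s, s1, s2⟩ := idx i w i1 i2 e1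
    obtain ⟨s', s3, s4⟩ := idx i' w' j1 j2 e2
    refine ⟨(⟨a, ha⟩, ⟨b, hb⟩), s, s', s1, s3, ?_, ?_⟩
    · simp only [s2]
      rw [← i3, ← e1]
    · simp only [s4]
      rw [← j3, ← e2]

/-! ### Counting the points of a hole -/

theorem count_periodic (q : ℕ → Prop) [DecidablePred q] (S : ℕ) (g : ℕ) :
    Nat.count (fun x => q (x % S)) (g * S) = g * Nat.count q S := by
  induction g with
  | zero => simp
  | succ g ih =>
    rw [add_mul, one_mul, Nat.count_add, ih, add_mul, one_mul]
    congr 1
    apply count_congr'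
    intro x hx
    rw [add_comm, Nat.add_mul_mod_self_right, Nat.mod_eq_of_lt hx]

theorem count_interval (a b S : ℕ) (h1 : a ≤ b) (h2 : b ≤ S) : Nat.count (fun x => a ≤ x ∧ x < b) S = b - a := by
  have e1 : ∀ n, n ≤ a → Nat.count (fun x => a ≤ x ∧ x < b) n = 0 := by
    intro n
    induction n with
    | zero => intro _; simp
    | succ n ih =>
      intro hn
      rw [Nat.count_succ, ih (by omega), if_neg (by omega)]
  have e2 : ∀ d, a + d ≤ b → Nat.count (fun x => a ≤ x ∧ x < b) (a + d) = d := by
    intro d
    induction d with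
    | zero => intro _; exact e1 a le_rfl
    | succ d ih =>
      intro hd
      rw [← add_assoc, Nat.count_succ, ih (by omega), if_pos (by omega)]
  have e3 : ∀ d, Nat.count (fun x => a ≤ x ∧ x < b) (b + d) = b - a := by
    intro d
    induction d with
    | zero =>
      have := e2 (b - a) (by omega)
      rw [show a + (b - a) = b + 0 by omega] at this
      exact this
    | succ d ih =>
      rw [← add_assoc, Nat.count_succ, ih, if_neg (by omega), add_zero]
  have := e3 (S - b)
  rw [show b + (S - b) = S by omega] at this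
  exact this

theorem count_grp (m N t1 t2 i : ℕ) (ht1 : t1 ≤ N) :
    Nat.count (fun x => grp m N t1 x = i) (m * N + t1 + t2) = siz m N t1 t2 i := by
  by_cases hi : i < m + 2
  · have e1 : Nat.count (fun x => grp m N t1 x = i) (m * N + t1 + t2) =
        Nat.count (fun x => off m N t1 i ≤ x ∧ x < off m N t1 i + siz m N t1 t2 i) (m * N + t1 + t2) := by
      apply count_congr'
      intro x hx
      obtain ⟨j, w, j1, j2, j3, j4⟩ := exists_off (t2 := t2) hx
      rw [j4]
      constructor
      · rintro rfl
        omega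
      · rintro ⟨k1, k2⟩
        rcases lt_trichotomy j i with h | h | h
        · have := off_mono (m := m) (N := N) (t1 := t1) (t2 := t2) h hi ht1
          omega
        · exact h
        · have := off_mono (m := m) (N := N) (t1 := t1) (t2 := t2) h j1 ht1
          omega
    rw [e1]
    have hle : off m N t1 i + siz m N t1 t2 i ≤ m * N + t1 + t2 := by
      rcases Nat.eq_zero_or_pos (siz m N t1 t2 i) with h | h
      · rw [h, add_zero]
        unfold off
        split_ifs with h'
        · have := Nat.mul_le_mul_right N h'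
          omega
        · omega
      · exact (grp_off hi h).2.2
    rw [count_interval _ _ _ (by omega) hle]
    omega
  · have e1 : Nat.count (fun x => grp m N t1 x = i) (m * N + t1 + t2) =
        Nat.count (fun x => 0 ≤ x ∧ x < 0) (m * N + t1 + t2) := by
      apply count_congr'
      intro x hx
      obtain ⟨j, w, j1, j2, j3, j4⟩ := exists_off (t2 := t2) hx
      rw [j4]
      constructor
      · rintro rfl
        omega
      · rintro ⟨k1, k2⟩
        omega
    rw [e1, count_interval 0 0 _ le_rfl (by omega)]
    unfold siz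
    rw [if_neg (by omega), if_neg (by omega), if_neg (by omega)]

theorem count_tdhole (g m N t1 t2 i : ℕ) (ht1 : t1 ≤ N) :
    Nat.count (fun x => grp m N t1 (x % (m * N + t1 + t2)) = i) (g * (m * N + t1 + t2)) = g * siz m N t1 t2 i := by
  rw [count_periodic (fun x => grp m N t1 x = i), count_grp m N t1 t2 i ht1]

/-- Closure, no extra point. -/
theorem tdU {g m N t1 t2 : ℕ} (h0 : FrC g m) (h1 : FrC g (m + 1)) (h2 : FrC g (m + 2)) (hTD : TD (m + 2) N)
    (ht1 : t1 ≤ N) (ht2 : t2 ≤ N) (hN : U (g * N)) (hU1 : t1 = 0 ∨ U (g * t1)) (hU2 : t2 = 0 ∨ U (g * t2)) :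
    U (g * (m * N + t1 + t2)) := by
  refine fill0 _ _ (tdFrame h0 h1 h2 hTD ht1 ht2) ?_
  intro i
  rw [count_tdhole g m N t1 t2 i ht1]
  unfold siz
  split_ifs
  · exact hN
  · rcases hU1 with h | h
    · rw [h, mul_zero]
      exact U_zero
    · exact h
  · rcases hU2 with h | h
    · rw [h, mul_zero]
      exact U_zero
    · exact h
  · rw [mul_zero]
    exact U_zero

/-- Closure, one extra point. -/
theorem tdT {g m N t1 t2 : ℕ} (h0 : FrC g m) (h1 : FrC g (m + 1)) (h2 : FrC g (m + 2)) (hTD : TD (m + 2) N)
    (ht1 : t1 ≤ N) (ht2 : t2 ≤ N) (hN : UT (g * N + 1)) (hU1 : t1 = 0 ∨ UT (g * t1 + 1))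
    (hU2 : t2 = 0 ∨ UT (g * t2 + 1)) : UT (g * (m * N + t1 + t2) + 1) := by
  refine fill1 _ _ (tdFrame h0 h1 h2 hTD ht1 ht2) ?_
  intro i
  rw [count_tdhole g m N t1 t2 i ht1]
  unfold siz
  split_ifs
  · exact hN
  · rcases hU1 with h | h
    · rw [h, mul_zero]
      exact UT_one
    · exact h
  · rcases hU2 with h | h
    · rw [h, mul_zero]
      exact UT_one
    · exact h
  · rw [mul_zero]
    exact UT_one

end Pool.Agent.Lib.MP_a966e6_co.PNU
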