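import Pool.Agent.Lib.MP_a966e6_co.PNU.Glue

/-! Frames with arbitrary hole maps; Wilson's fundamental construction for coset frames. -/

set_option autoImplicit false

namespace Pool.Agent.Lib.MP_a966e6_co.PNU

/-- frame on the `k` points `X = [0, k)` (vertex `(x, i)` is `x + k i`) with hole map `c`: page `p` avoids the hole of `p`,
the chords between different holes are covered -/
def Gr (k : ℕ) (c : ℕ → ℕ) : Prop := Sys (3 * k) k (fun v => c (v % k)) (fun p => c p)

theorem Sys.congr {n N : ℕ} {cl hp cl' hp' : ℕ → ℕ} (h : Sys n N cl hp)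
    (h1 : ∀ u p, u < n → p < N → cl u ≠ hp p → cl' u ≠ hp' p)
    (h2 : ∀ u v, u < v → v < n → cl' u ≠ cl' v → cl u ≠ cl v) : Sys n N cl' hp' := by
  obtain ⟨E, lam, a, b, c⟩ := h
  refine ⟨E, lam, ?_, b, ?_⟩
  · intro p u v hE
    obtain ⟨a1, a2, a3, a4, a5, a6⟩ := a p u v hE
    exact ⟨a1, a2, a3, h1 u p (by omega) a1 a4, h1 v p a3 a1 a5, a6⟩
  · intro u v huv hv hc
    exact c u v huv hv (h2 u v huv hv hc)

theorem gr_of_frC {g m : ℕ} (h : FrC g m) : Gr (g * m) (fun x => x % m) := by
  unfold Gr
  rw [← mul_assoc]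
  refine Sys.congr h ?_ ?_
  · intro u p _ _ hc
    show u % (g * m) % m ≠ p % m
    rw [Nat.mod_mul_left_mod]
    exact hc
  · intro u v _ _ hc
    change u % (g * m) % m ≠ v % (g * m) % m at hc
    rw [Nat.mod_mul_left_mod, Nat.mod_mul_left_mod] at hc
    exact hc

theorem div_mod_lt (a m n : ℕ) (ha : a < n * m) : a / m < n ∧ a % m < m ∧ 0 < m := by
  have hm : 0 < m := by
    rcases Nat.eq_zero_or_pos m with h | h
    · subst h
      omega
    · exact h
  exact ⟨Nat.div_lt_of_lt_mul (by rw [mul_comm]; exact ha), Nat.mod_lt _ hm, hm⟩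

/-- Wilson's construction: points `[0, S)` with hole map `c`, blocks `b` with the points `pt b 0 < .. < pt b (sz b - 1)`
from different holes such that two points of different holes lie in exactly one block; weight `g`. -/
theorem wilson (g S : ℕ) (c : ℕ → ℕ) {ι : Type} [Encodable ι] (sz : ι → ℕ) (pt : ι → ℕ → ℕ)
    (hF : ∀ b, FrC g (sz b))
    (hmono : ∀ b s s', s < s' → s' < sz b → pt b s < pt b s')
    (hlt : ∀ b s, s < sz b → pt b s < S)
    (hcls : ∀ b s s', s < sz b → s' < sz b → s ≠ s' → c (pt b s) ≠ c (pt b s'))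
    (huniq : ∀ b b' s s' r r', s < sz b → s' < sz b → s ≠ s' → r < sz b' → r' < sz b' →
      pt b s = pt b' r → pt b s' = pt b' r' → b = b')
    (hcov : ∀ x y, x < S → y < S → c x ≠ c y → ∃ b s s', s < sz b ∧ s' < sz b ∧ pt b s = x ∧ pt b s' = y) :
    Gr (g * S) (fun x => c (x % S)) := by
  have hinj : ∀ b s s', s < sz b → s' < sz b → pt b s = pt b s' → s = s' := by
    intro b s s' hs hs' h
    rcases lt_trichotomy s s' with h' | h' | h'
    · have := hmono b s s' h' hs'
      omega
    · exact h'
    · have := hmono b s' s h' hs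
      omega
  have hdm : ∀ b a s, s < sz b → (a * S + pt b s) % S = pt b s ∧ (a * S + pt b s) / S = a := by
    intro b a s hs
    have h := hlt b s hs
    constructor
    · rw [Nat.add_comm, Nat.add_mul_mod_self_right, Nat.mod_eq_of_lt h]
    · rw [mul_comm, Nat.mul_add_div (by omega), Nat.div_eq_of_lt h, add_zero]
  have key : Sys (3 * (g * S)) (g * S) (fun v => c (v % S)) (fun p => c (p % S)) := by
    refine glue (3 * (g * S)) (g * S) (fun v => c (v % S)) (fun p => c (p % S))
      (fun b => 3 * g * sz b) (fun b => g * sz b) (fun b v => v % sz b) (fun b p => p % sz b) hF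
      (fun b u => (u / sz b) * S + pt b (u % sz b)) (fun b q => (q / sz b) * S + pt b (q % sz b))
      ?_ ?_ ?_ ?_ ?_ ?_
    · intro b u v huv hv
      obtain ⟨h1, h2, h3⟩ := div_mod_lt v (sz b) (3 * g) hv
      have hu := Nat.mod_lt u h3
      have hd : u / sz b ≤ v / sz b := Nat.div_le_div_right huv.le
      rcases Nat.lt_or_eq_of_le hd with hd' | hd'
      · have := hlt b (u % sz b) hu
        have h5 : (u / sz b + 1) * S ≤ (v / sz b) * S := Nat.mul_le_mul_right S hd'
        rw [add_mul, one_mul] at h5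
        omega
      · rw [hd']
        have e1 := Nat.div_add_mod u (sz b)
        have e2 := Nat.div_add_mod v (sz b)
        rw [hd'] at e1
        have := hmono b (u % sz b) (v % sz b) (by omega) h2
        omega
    · intro b u hu
      obtain ⟨h1, h2, h3⟩ := div_mod_lt u (sz b) (3 * g) hu
      have := hlt b (u % sz b) h2
      have h5 : (u / sz b + 1) * S ≤ (3 * g) * S := Nat.mul_le_mul_right S h1
      rw [add_mul, one_mul, mul_assoc] at h5
      omega
    · intro b q hq
      obtain ⟨h1, h2, h3⟩ := div_mod_lt q (sz b) g hq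
      have := hlt b (q % sz b) h2
      have h5 : (q / sz b + 1) * S ≤ g * S := Nat.mul_le_mul_right S h1
      rw [add_mul, one_mul] at h5
      omega
    · intro b q u hq hu hc
      obtain ⟨h1, h2, h3⟩ := div_mod_lt q (sz b) g hq
      have h4 := Nat.mod_lt u h3
      rw [(hdm b _ _ h4).1, (hdm b _ _ h2).1]
      exact hcls b _ _ h4 h2 hc
    · intro b q b' q' u u' hq hq' hu hu' hc hc' hψ hφ
      obtain ⟨h1, h2, h3⟩ := div_mod_lt q (sz b) g hq
      have h4 := Nat.mod_lt u h3
      obtain ⟨k1, k2, k3⟩ := div_mod_lt q' (sz b') g hq'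
      have k4 := Nat.mod_lt u' k3
      have e1 := (hdm b (q / sz b) _ h2)
      have e2 := (hdm b (u / sz b) _ h4)
      have e3 := (hdm b' (q' / sz b') _ k2)
      have e4 := (hdm b' (u' / sz b') _ k4)
      rw [hψ] at e1
      rw [hφ] at e2
      have f1 : pt b (q % sz b) = pt b' (q' % sz b') := by rw [← e1.1, e3.1]
      have f2 : pt b (u % sz b) = pt b' (u' % sz b') := by rw [← e2.1, e4.1]
      have f3 : q / sz b = q' / sz b' := by rw [← e1.2, e3.2]
      have hb : b = b' := huniq b b' _ _ _ _ h4 h2 hc k4 k2 f2 f1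
      subst hb
      refine ⟨rfl, ?_⟩
      have f4 := hinj b _ _ h2 k2 f1
      rw [← Nat.div_add_mod q (sz b), ← Nat.div_add_mod q' (sz b), f3, f4]
    · intro u v huv hv hc
      have hv' : v < (3 * g) * S := by rw [mul_assoc]; exact hv
      obtain ⟨h1, h2, h3⟩ := div_mod_lt v S (3 * g) hv'
      have h4 := Nat.mod_lt u h3
      obtain ⟨b, s, s', hs, hs', e1, e2⟩ := hcov (u % S) (v % S) h4 h2 hc
      have hsz : 0 < sz b := by omega
      have d1 : ∀ a t, t < sz b → (a * sz b + t) / sz b = a ∧ (a * sz b + t) % sz b = t := by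
        intro a t ht
        constructor
        · rw [mul_comm, Nat.mul_add_div hsz, Nat.div_eq_of_lt ht, add_zero]
        · rw [Nat.add_comm, Nat.add_mul_mod_self_right, Nat.mod_eq_of_lt ht]
      have hss : s ≠ s' := by
        rintro rfl
        rw [← e1, ← e2] at hc
        exact hc rfl
      have g1 : (u / S) * S + pt b s = u := by
        rw [e1, mul_comm]
        exact Nat.div_add_mod u S
      have g2 : (v / S) * S + pt b s' = v := by
        rw [e2, mul_comm]
        exact Nat.div_add_mod v S
      refine ⟨b, (u / S) * sz b + s, (v / S) * sz b + s', ?_, ?_, ?_, ?_, ?_⟩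
      · have hd : u / S ≤ v / S := Nat.div_le_div_right huv.le
        rcases Nat.lt_or_eq_of_le hd with hd' | hd'
        · have h5 : (u / S + 1) * sz b ≤ (v / S) * sz b := Nat.mul_le_mul_right _ hd'
          rw [add_mul, one_mul] at h5
          omega
        · rw [hd'] at g1 ⊢
          have : s < s' := by
            by_contra hcon
            have := hmono b s' s (by omega) hs
            omega
          omega
      · have h5 : (v / S + 1) * sz b ≤ (3 * g) * sz b := Nat.mul_le_mul_right _ h1
        rw [add_mul, one_mul] at h5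
        omega
      · rw [(d1 _ _ hs).1, (d1 _ _ hs).2]
        exact g1
      · rw [(d1 _ _ hs').1, (d1 _ _ hs').2]
        exact g2
      · rw [(d1 _ _ hs).2, (d1 _ _ hs').2]
        exact hss
  unfold Gr
  refine Sys.congr key ?_ ?_
  · intro u p _ _ hc
    show c (u % (g * S) % S) ≠ c (p % S)
    rw [Nat.mod_mul_left_mod]
    exact hc
  · intro u v _ _ hc
    change c (u % (g * S) % S) ≠ c (v % (g * S) % S) at hc
    rw [Nat.mod_mul_left_mod, Nat.mod_mul_left_mod] at hc
    exact hc

end Pool.Agent.Lib.MP_a966e6_co.PNU
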